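import Mathlib

/-!
# Local means of the logarithms of the numbers of points
-/

set_option autoImplicit false

namespace Q282.BP

open Finset

/-- bounds for `log ((N_p + 1) / p)`, `N_p = p + S` -/
lemma log_bound {s S : ℝ} (hs : 3 / 2 ≤ s) (hS : |S| ≤ 2 * s) : |Real.log (1 + (1 + S) / s ^ 2)| ≤ 6 / s := by
  have hs0 : 0 < s := by linarith
  have h1 := abs_le.1 hS
  have h2 : (1 - 1 / s) ^ 2 ≤ 1 + (1 + S) / s ^ 2 := by
    have e : (1 - 1 / s) ^ 2 = 1 + (1 - 2 * s) / s ^ 2 := by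
      field_simp
      ring
    rw [e]
    have : (1 - 2 * s) / s ^ 2 ≤ (1 + S) / s ^ 2 := div_le_div_of_nonneg_right (by linarith) (by positivity)
    linarith
  have h3 : 1 / s ≤ 2 / 3 := by
    rw [div_le_div_iff₀ hs0 (by norm_num)]
    linarith
  have h4 : 0 < 1 - 1 / s := by linarith
  have h5 : 0 < 1 + (1 + S) / s ^ 2 := lt_of_lt_of_le (by positivity) h2
  rw [abs_le]
  constructor
  · have h6 : Real.log ((1 - 1 / s) ^ 2) ≤ Real.log (1 + (1 + S) / s ^ 2) := Real.log_le_log (by positivity) h2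
    rw [Real.log_pow] at h6
    have h7 := Real.one_sub_inv_le_log_of_pos h4
    have h8 : (1 - 1 / s)⁻¹ ≤ 1 + 3 * (1 / s) := by
      rw [inv_le_comm₀ h4 (by positivity), inv_eq_one_div, div_le_iff₀ (by positivity)]
      have : 0 < 1 / s := by positivity
      nlinarith
    push_cast at h6
    have h9 : 6 / s = 6 * (1 / s) := by ring
    rw [h9]
    linarith
  · have h6 := Real.log_le_sub_one_of_pos h5
    have h7 : (1 + S) / s ^ 2 ≤ 6 / s := by
      rw [div_le_div_iff₀ (by positivity) hs0]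
      nlinarith
    linarith

/-- expansion of `log ((N_p + 1) / p)`, `N_p = p + S` -/
lemma log_expand {s S : ℝ} (hs : 4 ≤ s) (hS : |S| ≤ 2 * s) :
    |Real.log (1 + (1 + S) / s ^ 2) - ((1 + S) / s ^ 2 - S ^ 2 / (2 * s ^ 4))| ≤ 111 / s ^ 3 := by
  have hs0 : 0 < s := by linarith
  have h1 := abs_le.1 hS
  obtain ⟨v, hv⟩ : ∃ v : ℝ, v = (1 + S) / s ^ 2 := ⟨_, rfl⟩
  have hv1 : |v| ≤ 3 / s := by
    rw [hv, abs_div, abs_of_pos (by positivity : 0 < s ^ 2), div_le_div_iff₀ (by positivity) hs0]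
    have : |1 + S| ≤ 3 * s := by
      rw [abs_le]
      constructor <;> linarith
    nlinarith [abs_nonneg (1 + S)]
  have hv2 : |v| ≤ 3 / 4 := hv1.trans (by
    rw [div_le_div_iff₀ hs0 (by norm_num)]
    linarith)
  have h2 := Real.abs_log_sub_add_sum_range_le (x := -v) (by rw [abs_neg]; linarith) 2
  rw [abs_neg, sum_range_succ, sum_range_one] at h2
  have h3 : |v| ^ 3 / (1 - |v|) ≤ 108 / s ^ 3 := by
    calc |v| ^ 3 / (1 - |v|) ≤ (3 / s) ^ 3 / (1 / 4) := by
          refine div_le_div₀ (by positivity) (pow_le_pow_left₀ (abs_nonneg _) hv1 3) (by norm_num) (by linarith)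
      _ = 108 / s ^ 3 := by
          field_simp
          norm_num
  have h4 : |Real.log (1 + v) - (v - v ^ 2 / 2)| ≤ 108 / s ^ 3 := by
    refine le_trans (le_of_eq ?_) (h2.trans h3)
    congr 1
    push_cast
    rw [sub_neg_eq_add]
    ring
  have h5 : |v ^ 2 / 2 - S ^ 2 / (2 * s ^ 4)| ≤ 3 / s ^ 3 := by
    have e : v ^ 2 / 2 - S ^ 2 / (2 * s ^ 4) = (1 + 2 * S) / (2 * s ^ 4) := by
      rw [hv]
      field_simp
      ring
    rw [e, abs_div, abs_of_pos (by positivity : 0 < 2 * s ^ 4), div_le_div_iff₀ (by positivity) (by positivity)]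
    have h6 : |1 + 2 * S| ≤ 5 * s := by
      rw [abs_le]
      constructor <;> linarith
    have h7 : 0 < s ^ 3 := by positivity
    calc |1 + 2 * S| * s ^ 3 ≤ 5 * s * s ^ 3 := mul_le_mul_of_nonneg_right h6 h7.le
      _ ≤ 3 * (2 * s ^ 4) := by nlinarith [pow_pos hs0 4]
  rw [← hv]
  have h6 : Real.log (1 + v) - (v - S ^ 2 / (2 * s ^ 4)) = (Real.log (1 + v) - (v - v ^ 2 / 2)) - (v ^ 2 / 2 - S ^ 2 / (2 * s ^ 4)) := by
    ring
  rw [h6]
  refine (abs_sub _ _).trans ?_
  have : 111 / s ^ 3 = 108 / s ^ 3 + 3 / s ^ 3 := by ring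
  rw [this]
  exact add_le_add h4 h5

open Classical in
/-- the local means -/
theorem local_gen (r C : ℝ) (hC : 0 ≤ C) : ∃ C' : ℝ, 0 ≤ C' ∧ ∀ p : ℕ, 3 ≤ p → ∀ (U : Type) [Fintype U] [Nonempty U]
    (S : U → ℝ) (bad : U → Prop), (∀ u, |S u| ≤ 2 * Real.sqrt p) →
    (((univ : Finset U).filter bad).card : ℝ) * p ≤ C * Fintype.card U →
    |∑ u, S u - r * Fintype.card U| * p ≤ C * Fintype.card U →
    |∑ u, S u ^ 2 - p * Fintype.card U| ≤ C * Fintype.card U →
    |(∑ u, if bad u then 0 else Real.log (1 + (1 + S u) / p)) / Fintype.card U - (r + 1 / 2) / p| ≤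
      C' / (p : ℝ) ^ (3 / 2 : ℝ) := by
  classical
  refine ⟨111 + 5 * C + C + C + 64 * (6 + |r| + 1), by positivity, ?_⟩
  intro p hp U _ _ S bad hS hbad h1 h2
  have hp3 : (3 : ℝ) ≤ p := by exact_mod_cast hp
  have hp0 : (0 : ℝ) < p := by linarith
  obtain ⟨s, hs⟩ : ∃ s : ℝ, s = Real.sqrt p := ⟨_, rfl⟩
  have hsp : s ^ 2 = p := by rw [hs, Real.sq_sqrt hp0.le]
  have hs0 : 0 < s := by rw [hs]; exact Real.sqrt_pos.2 hp0
  have hs32 : (p : ℝ) ^ (3 / 2 : ℝ) = s ^ 3 := by
    rw [hs, Real.sqrt_eq_rpow, ← Real.rpow_natCast, ← Real.rpow_mul hp0.le]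
    norm_num
  have hs1 : 3 / 2 ≤ s := by
    rw [hs]
    refine Real.le_sqrt_of_sq_le ?_
    norm_num
    linarith
  rw [← hs] at hS
  have hq0 : (0 : ℝ) < Fintype.card U := by exact_mod_cast Fintype.card_pos
  obtain ⟨q, hq⟩ : ∃ q : ℝ, q = Fintype.card U := ⟨_, rfl⟩
  rw [← hq] at hbad h1 h2 hq0 ⊢
  rw [hs32]
  have hbd : ∀ u, |if bad u then 0 else Real.log (1 + (1 + S u) / p)| ≤ 6 / s := by
    intro u
    split_ifs
    · rw [abs_zero]
      positivity
    · rw [← hsp]
      exact log_bound hs1 (hS u)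
  rcases lt_or_ge s 4 with hlt | hge
  · -- small primes
    have h3 : |(∑ u, if bad u then 0 else Real.log (1 + (1 + S u) / p)) / q| ≤ 6 / s := by
      rw [abs_div, abs_of_pos hq0, div_le_iff₀ hq0]
      refine (abs_sum_le_sum_abs _ _).trans ((sum_le_sum fun u _ => hbd u).trans (le_of_eq ?_))
      rw [sum_const, card_univ, nsmul_eq_mul, ← hq, mul_comm]
    have h4 : |(r + 1 / 2) / p| ≤ |r| + 1 := by
      rw [abs_div, abs_of_pos hp0]
      refine (div_le_self (abs_nonneg _) (by linarith)).trans ?_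
      refine (abs_add_le _ _).trans ?_
      rw [abs_of_pos (by norm_num : (0 : ℝ) < 1 / 2)]
      linarith
    have h5 : 6 / s ≤ 6 := div_le_self (by norm_num) (by linarith)
    have h6 : 1 ≤ 64 / s ^ 3 := by
      rw [one_le_div (by positivity)]
      calc s ^ 3 ≤ 4 ^ 3 := pow_le_pow_left₀ hs0.le hlt.le 3
        _ = 64 := by norm_num
    have h7 : (111 + 5 * C + C + C + 64 * (6 + |r| + 1)) / s ^ 3 = (111 + 5 * C + C + C) / s ^ 3 + 64 / s ^ 3 * (6 + |r| + 1) := by
      ring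
    rw [h7]
    have h8 : 0 ≤ (111 + 5 * C + C + C) / s ^ 3 := by positivity
    have h9 : 6 + |r| + 1 ≤ 64 / s ^ 3 * (6 + |r| + 1) := le_mul_of_one_le_left (by positivity) h6
    refine (abs_sub _ _).trans ?_
    linarith
  · -- large primes
    obtain ⟨m, hm⟩ : ∃ m : U → ℝ, m = fun u => (1 + S u) / s ^ 2 - S u ^ 2 / (2 * s ^ 4) := ⟨_, rfl⟩
    have hm5 : ∀ u, |m u| ≤ 5 / s := by
      intro u
      have h3 := abs_le.1 (hS u)
      have h4 : |(1 + S u) / s ^ 2| ≤ 3 / s := by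
        rw [abs_div, abs_of_pos (by positivity : 0 < s ^ 2), div_le_div_iff₀ (by positivity) hs0]
        have : |1 + S u| ≤ 3 * s := by
          rw [abs_le]
          constructor <;> linarith
        nlinarith [abs_nonneg (1 + S u)]
      have h5 : |S u ^ 2 / (2 * s ^ 4)| ≤ 2 / s := by
        rw [abs_div, abs_of_pos (by positivity : 0 < 2 * s ^ 4), abs_pow, div_le_div_iff₀ (by positivity) hs0]
        have h6 : |S u| ^ 2 ≤ (2 * s) ^ 2 := pow_le_pow_left₀ (abs_nonneg _) (hS u) 2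
        calc |S u| ^ 2 * s ≤ (2 * s) ^ 2 * s := mul_le_mul_of_nonneg_right h6 hs0.le
          _ ≤ 2 * (2 * s ^ 4) := by nlinarith [pow_pos hs0 3]
      rw [hm]
      refine (abs_sub _ _).trans ?_
      have : 5 / s = 3 / s + 2 / s := by ring
      rw [this]
      exact add_le_add h4 h5
    have h3 : |∑ u, (if bad u then 0 else Real.log (1 + (1 + S u) / p)) - ∑ u, m u| ≤ q * (111 / s ^ 3) + C * q / p * (5 / s) := by
      rw [← sum_sub_distrib]
      refine (abs_sum_le_sum_abs _ _).trans ?_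
      have h4 : ∀ u, |(if bad u then 0 else Real.log (1 + (1 + S u) / p)) - m u| ≤ 111 / s ^ 3 + if bad u then 5 / s else 0 := by
        intro u
        split_ifs
        · rw [zero_sub, abs_neg]
          have := hm5 u
          have h6 : 0 ≤ 111 / s ^ 3 := by positivity
          linarith
        · rw [add_zero, ← hsp, hm]
          exact log_expand hge (hS u)
      refine (sum_le_sum fun u _ => h4 u).trans ?_
      rw [sum_add_distrib, sum_const, card_univ, nsmul_eq_mul, ← hq, ← sum_filter, sum_const, nsmul_eq_mul]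
      have h5 : (((univ : Finset U).filter bad).card : ℝ) ≤ C * q / p := by
        rw [le_div_iff₀ hp0]
        exact hbad
      have h6 := mul_le_mul_of_nonneg_right h5 (by positivity : 0 ≤ 5 / s)
      linarith
    have h4 : ∑ u, m u = (q + ∑ u, S u) / s ^ 2 - (∑ u, S u ^ 2) / (2 * s ^ 4) := by
      rw [hm, sum_sub_distrib, ← sum_div, ← sum_div, sum_add_distrib, sum_const, card_univ, nsmul_eq_mul, mul_one, ← hq]
    have h5 : |(∑ u, m u) / q - (r + 1 / 2) / p| ≤ C / s ^ 3 + C / s ^ 3 := by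
      have e : (∑ u, m u) / q - (r + 1 / 2) / p =
          (∑ u, S u - r * q) / (s ^ 2 * q) - (∑ u, S u ^ 2 - p * q) / (2 * s ^ 4 * q) := by
        rw [h4, ← hsp]
        have := hq0.ne'
        field_simp
        ring
      rw [e]
      refine (abs_sub _ _).trans (add_le_add ?_ ?_)
      · rw [abs_div, abs_of_pos (by positivity : 0 < s ^ 2 * q), div_le_div_iff₀ (by positivity) (by positivity)]
        have h6 : |∑ u, S u - r * q| * s ^ 2 ≤ C * q := by rw [hsp]; exact h1
        have h7 : |∑ u, S u - r * q| * s ^ 3 = (|∑ u, S u - r * q| * s ^ 2) * s := by ring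
        have h8 : C * (s ^ 2 * q) = C * q * s * s := by ring
        rw [h7, h8]
        have h9 : (|∑ u, S u - r * q| * s ^ 2) * s ≤ C * q * s := mul_le_mul_of_nonneg_right h6 hs0.le
        have h10 : C * q * s ≤ C * q * s * s := le_mul_of_one_le_right (by positivity) (by linarith)
        linarith
      · rw [abs_div, abs_of_pos (by positivity : 0 < 2 * s ^ 4 * q), div_le_div_iff₀ (by positivity) (by positivity)]
        have h7 : |∑ u, S u ^ 2 - p * q| * s ^ 3 ≤ C * q * s ^ 3 := mul_le_mul_of_nonneg_right h2 (by positivity)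
        have h8 : C * (2 * s ^ 4 * q) = C * q * s ^ 3 * (2 * s) := by ring
        rw [h8]
        have h10 : C * q * s ^ 3 ≤ C * q * s ^ 3 * (2 * s) := le_mul_of_one_le_right (by positivity) (by linarith)
        linarith
    have h6 : |(∑ u, if bad u then 0 else Real.log (1 + (1 + S u) / p)) / q - (∑ u, m u) / q| ≤ 111 / s ^ 3 + 5 * C / s ^ 3 := by
      rw [← sub_div, abs_div, abs_of_pos hq0, div_le_iff₀ hq0]
      refine h3.trans (le_of_eq ?_)
      rw [← hsp]
      field_simp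
    have h7 : (111 + 5 * C + C + C + 64 * (6 + |r| + 1)) / s ^ 3 = (111 / s ^ 3 + 5 * C / s ^ 3) + (C / s ^ 3 + C / s ^ 3) +
        64 * (6 + |r| + 1) / s ^ 3 := by
      ring
    rw [h7]
    have h8 : 0 ≤ 64 * (6 + |r| + 1) / s ^ 3 := by positivity
    have h9 := abs_add_le ((∑ u, if bad u then 0 else Real.log (1 + (1 + S u) / p)) / q - (∑ u, m u) / q)
      ((∑ u, m u) / q - (r + 1 / 2) / p)
    rw [sub_add_sub_cancel] at h9
    linarith

end Q282.BP
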