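import Pool.Agent.Q282.BP.Dens

/-!
# The proportion of the polynomials with a root modulo `p`: two marked points
-/

set_option autoImplicit false
set_option linter.unusedSectionVars false

namespace Q282.BP

open Finset

section

variable {K : Type} [Field K] [Fintype K] [DecidableEq K]

lemma comm4 (X : K → K → K → K → ℝ) : ∑ a, ∑ b, ∑ c, ∑ u, X a b c u = ∑ b, ∑ c, ∑ u, ∑ a, X a b c u := by
  rw [sum_comm]
  refine sum_congr rfl fun b _ => ?_
  rw [sum_comm]
  refine sum_congr rfl fun c _ => ?_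
  rw [sum_comm]

lemma cnt_sq (hK : ringChar K ≠ 2) (w : K) : ∑ y : K, (if y ^ 2 = w then (1 : ℝ) else 0) = ch w + 1 := by
  rw [← sum_filter, sum_const, nsmul_eq_mul, mul_one]
  have h2 := quadraticChar_card_sqrts hK w
  have h3 : ((univ.filter fun L : K => L ^ 2 = w).card : ℤ) = quadraticChar K w + 1 := by
    rw [← h2]
    congr 2
    ext L
    simp
  unfold ch
  exact_mod_cast h3

lemma ch_abs (x : K) : |ch x| ≤ 1 := by
  by_cases h : x = 0
  · rw [h, ch_zero, abs_zero]
    norm_num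
  · have := ch_sq h
    rw [← sq_abs] at this
    nlinarith [abs_nonneg (ch x)]

/-- family 2, the cubic polynomials -/
lemma dens2 (hK : ringChar K ≠ 2) (hq7 : 7 ≤ Fintype.card K) :
    ((univ.filter fun t : Fin 5 → K => ∃ s, cub (fam 2 t) s = 0).card : ℝ) ≤ 15 / 16 * Fintype.card (Fin 5 → K) := by
  obtain ⟨q, hq⟩ : ∃ q : ℝ, q = Fintype.card K := ⟨_, rfl⟩
  have hq7' : 7 ≤ q := by
    rw [hq]
    exact_mod_cast hq7
  have hcard : (Fintype.card (Fin 5 → K) : ℝ) = q ^ 5 := by
    rw [Fintype.card_pi_const, hq]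
    push_cast
    rfl
  have e : ∀ a b c u v s : K, cub (fam 2 ![a, b, c, u, v]) s = (s - a) * (s - b) * (s - c) + (u * s + v) ^ 2 := by
    intro a b c u v s
    show s ^ 3 + (u ^ 2 - (a + b + c)) * s ^ 2 + (a * b + a * c + b * c + 2 * u * v) * s + (v ^ 2 - a * b * c) = _
    ring
  refine dens (fun t s => cub (fam 2 t) s = 0) (fun t => cub_roots _) (fun s => ?_) (fun s s' hs => ?_)
  · rw [sum5, hcard, ← hq, comm4 (fun a b c u => ∑ v, if cub (fam 2 ![a, b, c, u, v]) s = 0 then (1 : ℝ) else 0)]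
    have h1 : ∀ b c u : K, ∑ a : K, ∑ v : K, (if cub (fam 2 ![a, b, c, u, v]) s = 0 then (1 : ℝ) else 0) = q := by
      intro b c u
      by_cases h0 : (s - b) * (s - c) = 0
      · have h2 : ∀ a : K, ∑ v : K, (if cub (fam 2 ![a, b, c, u, v]) s = 0 then (1 : ℝ) else 0) = 1 := by
          intro a
          refine (sum_congr rfl fun v _ => ?_).trans (cnt_one one_ne_zero (u * s))
          rw [e, mul_assoc, h0, mul_zero, zero_add]
          simp only [pow_eq_zero_iff (two_ne_zero), one_mul, add_comm]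
        rw [sum_congr rfl fun a _ => h2 a, sum_const, card_univ, nsmul_eq_mul, mul_one, hq]
      · rw [sum_comm]
        have h2 : ∀ v : K, ∑ a : K, (if cub (fam 2 ![a, b, c, u, v]) s = 0 then (1 : ℝ) else 0) = 1 := by
          intro v
          refine (sum_congr rfl fun a _ => ?_).trans (cnt_one (neg_ne_zero.2 h0) (s * ((s - b) * (s - c)) + (u * s + v) ^ 2))
          have e2 : (s - a) * (s - b) * (s - c) + (u * s + v) ^ 2 =
            -((s - b) * (s - c)) * a + (s * ((s - b) * (s - c)) + (u * s + v) ^ 2) := by ring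
          rw [e, e2]
        rw [sum_congr rfl fun v _ => h2 v, sum_const, card_univ, nsmul_eq_mul, mul_one, hq]
    rw [sum_congr rfl fun b _ => sum_congr rfl fun c _ => sum_congr rfl fun u _ => h1 b c u]
    simp only [sum_const, card_univ, nsmul_eq_mul, ← hq]
    refine le_of_eq ?_
    ring
  · rw [sum5, hcard, ← hq]
    have hd : s - s' ≠ 0 := sub_ne_zero.2 hs
    have h1 : ∀ a b : K, a ≠ s → a ≠ s' → b ≠ s → b ≠ s' → q - 1 ≤ ∑ c : K, ∑ u : K, ∑ v : K,
        (if cub (fam 2 ![a, b, c, u, v]) s = 0 ∧ cub (fam 2 ![a, b, c, u, v]) s' = 0 then (1 : ℝ) else 0) := by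
      intro a b ha ha' hb hb'
      obtain ⟨A, hA⟩ : ∃ A, A = (s - a) * (s - b) := ⟨_, rfl⟩
      obtain ⟨A', hA'⟩ : ∃ A', A' = (s' - a) * (s' - b) := ⟨_, rfl⟩
      have hA0 : A ≠ 0 := by
        rw [hA]
        exact mul_ne_zero (sub_ne_zero.2 (Ne.symm ha)) (sub_ne_zero.2 (Ne.symm hb))
      have hA'0 : A' ≠ 0 := by
        rw [hA']
        exact mul_ne_zero (sub_ne_zero.2 (Ne.symm ha')) (sub_ne_zero.2 (Ne.symm hb'))
      have h2 : ∀ c : K, ∑ u : K, ∑ v : K,
          (if cub (fam 2 ![a, b, c, u, v]) s = 0 ∧ cub (fam 2 ![a, b, c, u, v]) s' = 0 then (1 : ℝ) else 0) =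
          ∑ x : K, ∑ y : K, (if A * (s - c) + x ^ 2 = 0 then (1 : ℝ) else 0) * (if A' * (s' - c) + y ^ 2 = 0 then 1 else 0) := by
        intro c
        have h3 : ∀ u v : K, (if cub (fam 2 ![a, b, c, u, v]) s = 0 ∧ cub (fam 2 ![a, b, c, u, v]) s' = 0 then (1 : ℝ) else 0) =
            (fun x => if A * (s - c) + x ^ 2 = 0 then (1 : ℝ) else 0) (u * s + v) *
              (fun y => if A' * (s' - c) + y ^ 2 = 0 then (1 : ℝ) else 0) (u * s' + v) := by
          intro u v
          rw [e, e, ← hA, ← hA']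
          by_cases h4 : A * (s - c) + (u * s + v) ^ 2 = 0 <;> by_cases h5 : A' * (s' - c) + (u * s' + v) ^ 2 = 0 <;>
            simp [h4, h5]
        refine (sum_congr rfl fun u _ => sum_congr rfl fun v _ => h3 u v).trans ?_
        rw [← sum_mul_sum]
        exact sum_two hs (fun x => if A * (s - c) + x ^ 2 = 0 then (1 : ℝ) else 0) (fun y => if A' * (s' - c) + y ^ 2 = 0 then (1 : ℝ) else 0)
      rw [sum_congr rfl fun c _ => h2 c]
      have h3 : ∑ c : K, ∑ x : K, ∑ y : K, (if A * (s - c) + x ^ 2 = 0 then (1 : ℝ) else 0) * (if A' * (s' - c) + y ^ 2 = 0 then 1 else 0) =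
          ∑ x : K, ∑ y : K, (if y ^ 2 = A' / A * (A * (s - s') + x ^ 2) then (1 : ℝ) else 0) := by
        rw [sum_comm]
        refine sum_congr rfl fun x _ => ?_
        rw [sum_comm]
        refine sum_congr rfl fun y _ => ?_
        rw [Fintype.sum_eq_single (s + x ^ 2 / A)]
        · have e1 : A * (s - (s + x ^ 2 / A)) + x ^ 2 = 0 := by
            field_simp
            ring
          have e2 : A' * (s' - (s + x ^ 2 / A)) + y ^ 2 = y ^ 2 - A' / A * (A * (s - s') + x ^ 2) := by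
            field_simp
            ring
          rw [if_pos e1, one_mul, e2]
          simp only [sub_eq_zero]
        · intro c hc
          rw [if_neg, zero_mul]
          intro h4
          apply hc
          have h5 : x ^ 2 / A = c - s := by
            rw [div_eq_iff hA0]
            linear_combination h4
          rw [h5]
          ring
      rw [h3, sum_congr rfl fun x _ => cnt_sq hK _]
      have h4 : ∀ x : K, ch (A' / A * (A * (s - s') + x ^ 2)) + 1 = ch (A' / A) * ch (A * (s - s') + x ^ 2) + 1 := by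
        intro x
        rw [ch_mul]
      rw [sum_congr rfl fun x _ => h4 x, sum_add_distrib, ← mul_sum, sum_shift_sq hK, if_neg (mul_ne_zero hA0 hd), sum_const,
        card_univ, nsmul_eq_mul, ← hq, mul_one]
      have h5 := (abs_le.1 (ch_abs (A' / A))).2
      linarith
    have h2 : (q - 2) * ((q - 2) * (q - 1)) ≤ ∑ a : K, ∑ b : K, ∑ c : K, ∑ u : K, ∑ v : K,
        (if cub (fam 2 ![a, b, c, u, v]) s = 0 ∧ cub (fam 2 ![a, b, c, u, v]) s' = 0 then (1 : ℝ) else 0) := by
      have h3 : ∀ a : K, a ≠ s → a ≠ s' → (q - 2) * (q - 1) ≤ ∑ b : K, ∑ c : K, ∑ u : K, ∑ v : K,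
          (if cub (fam 2 ![a, b, c, u, v]) s = 0 ∧ cub (fam 2 ![a, b, c, u, v]) s' = 0 then (1 : ℝ) else 0) := by
        intro a ha ha'
        have h4 := sum_ge_ne2 (fun b : K => ∑ c : K, ∑ u : K, ∑ v : K,
          (if cub (fam 2 ![a, b, c, u, v]) s = 0 ∧ cub (fam 2 ![a, b, c, u, v]) s' = 0 then (1 : ℝ) else 0))
          (fun b => sum_nonneg fun c _ => sum_nonneg fun u _ => sum_nonneg fun v _ => ind_nonneg _) s s' (q - 1)
          (fun b hb hb' => h1 a b ha ha' hb hb') (by linarith)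
        rw [← hq] at h4
        exact h4
      have h4 := sum_ge_ne2 (fun a : K => ∑ b : K, ∑ c : K, ∑ u : K, ∑ v : K,
        (if cub (fam 2 ![a, b, c, u, v]) s = 0 ∧ cub (fam 2 ![a, b, c, u, v]) s' = 0 then (1 : ℝ) else 0))
        (fun a => sum_nonneg fun b _ => sum_nonneg fun c _ => sum_nonneg fun u _ => sum_nonneg fun v _ => ind_nonneg _) s s'
        ((q - 2) * (q - 1)) (fun a ha ha' => h3 a ha ha') (mul_nonneg (by linarith) (by linarith))
      rw [← hq] at h4
      exact h4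
    have h3 : 0 ≤ 4 * (q * (q - 1)) := by
      have : 0 ≤ q - 1 := by linarith
      positivity
    refine le_trans ?_ (mul_le_mul_of_nonneg_left h2 h3)
    have h4 : q ^ 2 ≤ 2 * (q - 1) * (q - 2) := by nlinarith
    have h5 : (q ^ 2) ^ 2 ≤ (2 * (q - 1) * (q - 2)) ^ 2 := pow_le_pow_left₀ (by positivity) h4 2
    calc q ^ 5 = q * (q ^ 2) ^ 2 := by ring
      _ ≤ q * (2 * (q - 1) * (q - 2)) ^ 2 := mul_le_mul_of_nonneg_left h5 (by linarith)
      _ = _ := by ring

/-- family 2, the quartic polynomials of the first point -/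
lemma dens2q (hK : ringChar K ≠ 2) (hq7 : 7 ≤ Fintype.card K) :
    ((univ.filter fun t : Fin 5 → K => ∃ s, quart (fam 2 t) (t 0) (t 3 * t 0 + t 4) s = 0).card : ℝ) ≤
      15 / 16 * Fintype.card (Fin 5 → K) := by
  obtain ⟨q, hq⟩ : ∃ q : ℝ, q = Fintype.card K := ⟨_, rfl⟩
  have h20 : (2 : K) ≠ 0 := Ring.two_ne_zero hK
  have h40 : (4 : K) ≠ 0 := by
    have : (4 : K) = 2 * 2 := by norm_num
    rw [this]
    exact mul_ne_zero h20 h20
  have h80 : (8 : K) ≠ 0 := by
    have : (8 : K) = 2 * 4 := by norm_num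
    rw [this]
    exact mul_ne_zero h20 h40
  have hq7' : 7 ≤ q := by
    rw [hq]
    exact_mod_cast hq7
  have hcard : (Fintype.card (Fin 5 → K) : ℝ) = q ^ 5 := by
    rw [Fintype.card_pi_const, hq]
    push_cast
    rfl
  obtain ⟨R, hR⟩ : ∃ R : (Fin 5 → K) → K → K, R = fun t s => quart (fam 2 t) (t 0) (t 3 * t 0 + t 4) s := ⟨_, rfl⟩
  have e : ∀ a b c u v s : K, R ![a, b, c, u, v] s = -(8 * (s + u)) * v +
      (-(4 * (s + u) ^ 2) * a + ((s ^ 2 - u ^ 2) ^ 2 + 2 * (b + c) * (s ^ 2 - u ^ 2) + (b - c) ^ 2)) := by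
    intro a b c u v s
    rw [hR]
    show s ^ 4 - (2 * (u ^ 2 - (a + b + c)) + 6 * a) * s ^ 2 - 8 * (u * a + v) * s +
      ((u ^ 2 - (a + b + c)) ^ 2 - 2 * (u ^ 2 - (a + b + c)) * a - 3 * a ^ 2 - 4 * (a * b + a * c + b * c + 2 * u * v)) = _
    ring
  have hmain : ((univ.filter fun t : Fin 5 → K => ∃ s, R t s = 0).card : ℝ) ≤ 15 / 16 * Fintype.card (Fin 5 → K) := by
    refine dens (fun t s => R t s = 0) (fun t => by rw [hR]; exact quart_roots _ _ _) (fun s => ?_) (fun s s' hs => ?_)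
    · rw [sum5, hcard, ← hq, comm4 (fun a b c u => ∑ v, if R ![a, b, c, u, v] s = 0 then (1 : ℝ) else 0)]
      have h1 : ∀ b c u : K, ∑ a : K, ∑ v : K, (if R ![a, b, c, u, v] s = 0 then (1 : ℝ) else 0) =
          q + (if u = -s then ((if b = c then q ^ 2 else 0) - q) else 0) := by
        intro b c u
        by_cases h0 : u = -s
        · rw [if_pos h0]
          have h2 : ∀ a v : K, (if R ![a, b, c, u, v] s = 0 then (1 : ℝ) else 0) = if b = c then 1 else 0 := by
            intro a v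
            rw [e, h0]
            have e2 : -(8 * (s + -s)) * v + (-(4 * (s + -s) ^ 2) * a + ((s ^ 2 - (-s) ^ 2) ^ 2 + 2 * (b + c) * (s ^ 2 - (-s) ^ 2) +
              (b - c) ^ 2)) = (b - c) ^ 2 := by ring
            rw [e2]
            simp only [pow_eq_zero_iff (two_ne_zero), sub_eq_zero]
          rw [sum_congr rfl fun a _ => sum_congr rfl fun v _ => h2 a v]
          simp only [sum_const, card_univ, nsmul_eq_mul, ← hq]
          split_ifs <;> ring
        · rw [if_neg h0, add_zero]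
          have h3 : -(8 * (s + u)) ≠ 0 := by
            refine neg_ne_zero.2 (mul_ne_zero h80 fun h4 => h0 ?_)
            linear_combination h4
          have h2 : ∀ a : K, ∑ v : K, (if R ![a, b, c, u, v] s = 0 then (1 : ℝ) else 0) = 1 := by
            intro a
            exact (sum_congr rfl fun v _ => by rw [e]).trans (cnt_one h3
              (-(4 * (s + u) ^ 2) * a + ((s ^ 2 - u ^ 2) ^ 2 + 2 * (b + c) * (s ^ 2 - u ^ 2) + (b - c) ^ 2)))
          rw [sum_congr rfl fun a _ => h2 a, sum_const, card_univ, nsmul_eq_mul, mul_one, hq]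
      have h2 : ∀ b c : K, ∑ u : K, ∑ a : K, ∑ v : K, (if R ![a, b, c, u, v] s = 0 then (1 : ℝ) else 0) =
          q * q + ((if b = c then q ^ 2 else 0) - q) := by
        intro b c
        rw [sum_congr rfl fun u _ => h1 b c u, sum_add_distrib, sum_ite_eq', if_pos (mem_univ _), sum_const, card_univ,
          nsmul_eq_mul, ← hq]
      have h3 : ∀ b : K, ∑ c : K, ∑ u : K, ∑ a : K, ∑ v : K, (if R ![a, b, c, u, v] s = 0 then (1 : ℝ) else 0) = q ^ 3 := by
        intro b
        rw [sum_congr rfl fun c _ => h2 b c, sum_add_distrib, sum_sub_distrib, sum_ite_eq, if_pos (mem_univ _)]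
        simp only [sum_const, card_univ, nsmul_eq_mul, ← hq]
        ring
      rw [sum_congr rfl fun b _ => h3 b, sum_const, card_univ, nsmul_eq_mul, ← hq]
      refine le_of_eq ?_
      ring
    · rw [sum5, hcard, ← hq, comm4 (fun a b c u => ∑ v, if R ![a, b, c, u, v] s = 0 ∧ R ![a, b, c, u, v] s' = 0 then (1 : ℝ) else 0)]
      have hd : s - s' ≠ 0 := sub_ne_zero.2 hs
      have h1 : ∀ b c u : K, u ≠ -s → u ≠ -s' → 1 ≤ ∑ a : K, ∑ v : K,
          (if R ![a, b, c, u, v] s = 0 ∧ R ![a, b, c, u, v] s' = 0 then (1 : ℝ) else 0) := by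
        intro b c u hu hu'
        have h3 : s + u ≠ 0 := fun h4 => hu (by linear_combination h4)
        have h3' : s' + u ≠ 0 := fun h4 => hu' (by linear_combination h4)
        obtain ⟨w, hw⟩ : ∃ w : K, w * (s + u) = (s ^ 2 - u ^ 2) ^ 2 + 2 * (b + c) * (s ^ 2 - u ^ 2) + (b - c) ^ 2 :=
          ⟨_, div_mul_cancel₀ _ h3⟩
        obtain ⟨w', hw'⟩ : ∃ w' : K, w' * (s' + u) = (s' ^ 2 - u ^ 2) ^ 2 + 2 * (b + c) * (s' ^ 2 - u ^ 2) + (b - c) ^ 2 :=
          ⟨_, div_mul_cancel₀ _ h3'⟩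
        obtain ⟨a, ha⟩ : ∃ a : K, a * (4 * (s - s')) = w - w' := ⟨_, div_mul_cancel₀ _ (mul_ne_zero h40 hd)⟩
        obtain ⟨v, hv⟩ : ∃ v : K, v * 8 = w - 4 * (s + u) * a := ⟨_, div_mul_cancel₀ _ h80⟩
        refine two_ge _ a v ⟨?_, ?_⟩
        · rw [e]
          linear_combination -(s + u) * hv - hw
        · rw [e]
          linear_combination -(s' + u) * hv - hw' + (s' + u) * ha
      have h2 : q * (q * ((q - 2) * 1)) ≤ ∑ b : K, ∑ c : K, ∑ u : K, ∑ a : K, ∑ v : K,
          (if R ![a, b, c, u, v] s = 0 ∧ R ![a, b, c, u, v] s' = 0 then (1 : ℝ) else 0) := by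
        have h3 : ∀ b c : K, (q - 2) * 1 ≤ ∑ u : K, ∑ a : K, ∑ v : K,
            (if R ![a, b, c, u, v] s = 0 ∧ R ![a, b, c, u, v] s' = 0 then (1 : ℝ) else 0) := by
          intro b c
          have h4 := sum_ge_ne2 (fun u : K => ∑ a : K, ∑ v : K,
            (if R ![a, b, c, u, v] s = 0 ∧ R ![a, b, c, u, v] s' = 0 then (1 : ℝ) else 0))
            (fun u => sum_nonneg fun a _ => sum_nonneg fun v _ => ind_nonneg _) (-s) (-s') 1
            (fun u hu hu' => h1 b c u hu hu') zero_le_one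
          rw [← hq] at h4
          exact h4
        refine le_trans (le_of_eq ?_) (sum_le_sum fun b _ => sum_le_sum fun c _ => h3 b c)
        simp only [sum_const, card_univ, nsmul_eq_mul, ← hq]
      have h3 : 0 ≤ 4 * (q * (q - 1)) := by
        have : 0 ≤ q - 1 := by linarith
        positivity
      refine le_trans ?_ (mul_le_mul_of_nonneg_left h2 h3)
      have h4 : q ^ 2 ≤ 4 * (q - 1) * (q - 2) := by nlinarith
      calc q ^ 5 = q ^ 3 * q ^ 2 := by ring
        _ ≤ q ^ 3 * (4 * (q - 1) * (q - 2)) := mul_le_mul_of_nonneg_left h4 (by positivity)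
        _ = _ := by ring
  rw [hR] at hmain
  exact hmain

/-- permutation of the parameters -/
lemma dens_perm (σ : Equiv.Perm (Fin 5)) (P : (Fin 5 → K) → Prop) [DecidablePred P] (B : ℝ)
    (h : ((univ.filter fun t : Fin 5 → K => P t).card : ℝ) ≤ B) :
    ((univ.filter fun t : Fin 5 → K => P (fun i => t (σ i))).card : ℝ) ≤ B := by
  have h1 : (univ.filter fun t : Fin 5 → K => P (fun i => t (σ i))).card = (univ.filter fun t : Fin 5 → K => P t).card := by
    refine card_nbij' (fun t i => t (σ i)) (fun t i => t (σ.symm i)) ?_ ?_ ?_ ?_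
    · intro t ht
      rw [mem_coe, mem_filter] at ht ⊢
      exact ⟨mem_univ _, ht.2⟩
    · intro t ht
      rw [mem_coe, mem_filter] at ht ⊢
      refine ⟨mem_univ _, ?_⟩
      have e : (fun i => (fun i => t (σ.symm i)) (σ i)) = t := by
        funext i
        simp
      show P (fun i => (fun i => t (σ.symm i)) (σ i))
      rw [e]
      exact ht.2
    · intro t _
      funext i
      simp
    · intro t _
      funext i
      simp
  rw [h1]
  exact h

lemma dens2q1 (hK : ringChar K ≠ 2) (hq7 : 7 ≤ Fintype.card K) :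
    ((univ.filter fun t : Fin 5 → K => ∃ s, quart (fam 2 t) (t 1) (t 3 * t 1 + t 4) s = 0).card : ℝ) ≤
      15 / 16 * Fintype.card (Fin 5 → K) := by
  have h := dens_perm (Equiv.swap 0 1) (fun t : Fin 5 → K => ∃ s, quart (fam 2 t) (t 0) (t 3 * t 0 + t 4) s = 0) _ (dens2q hK hq7)
  refine le_trans (le_of_eq ?_) h
  congr 2
  refine filter_congr fun t _ => exists_congr fun s => ?_
  have e : quart (fam 2 t) (t 1) (t 3 * t 1 + t 4) s =
      quart (fam 2 fun i => t (Equiv.swap 0 1 i)) (t (Equiv.swap 0 1 0)) (t (Equiv.swap 0 1 3) * t (Equiv.swap 0 1 0) + t (Equiv.swap 0 1 4)) s := by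
    have s0 : (Equiv.swap (0 : Fin 5) 1) 0 = 1 := by decide
    have s1 : (Equiv.swap (0 : Fin 5) 1) 1 = 0 := by decide
    have s2 : (Equiv.swap (0 : Fin 5) 1) 2 = 2 := by decide
    have s3 : (Equiv.swap (0 : Fin 5) 1) 3 = 3 := by decide
    have s4 : (Equiv.swap (0 : Fin 5) 1) 4 = 4 := by decide
    unfold quart fam
    simp only [s0, s1, s2, s3, s4]
    ring
  rw [e]

lemma dens2q2 (hK : ringChar K ≠ 2) (hq7 : 7 ≤ Fintype.card K) :
    ((univ.filter fun t : Fin 5 → K => ∃ s, quart (fam 2 t) (t 2) (t 3 * t 2 + t 4) s = 0).card : ℝ) ≤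
      15 / 16 * Fintype.card (Fin 5 → K) := by
  have h := dens_perm (Equiv.swap 0 2) (fun t : Fin 5 → K => ∃ s, quart (fam 2 t) (t 0) (t 3 * t 0 + t 4) s = 0) _ (dens2q hK hq7)
  refine le_trans (le_of_eq ?_) h
  congr 2
  refine filter_congr fun t _ => exists_congr fun s => ?_
  have e : quart (fam 2 t) (t 2) (t 3 * t 2 + t 4) s =
      quart (fam 2 fun i => t (Equiv.swap 0 2 i)) (t (Equiv.swap 0 2 0)) (t (Equiv.swap 0 2 3) * t (Equiv.swap 0 2 0) + t (Equiv.swap 0 2 4)) s := by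
    have s0 : (Equiv.swap (0 : Fin 5) 2) 0 = 2 := by decide
    have s1 : (Equiv.swap (0 : Fin 5) 2) 1 = 1 := by decide
    have s2 : (Equiv.swap (0 : Fin 5) 2) 2 = 0 := by decide
    have s3 : (Equiv.swap (0 : Fin 5) 2) 3 = 3 := by decide
    have s4 : (Equiv.swap (0 : Fin 5) 2) 4 = 4 := by decide
    unfold quart fam
    simp only [s0, s1, s2, s3, s4]
    ring
  rw [e]

end

end Q282.BP
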