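import Pool.Agent.Q282.BP.Fam

/-!
# The number of the singular cubic polynomials
-/

set_option autoImplicit false
set_option linter.unusedSectionVars false

namespace Q282.BP

open Finset

section

variable {K : Type} [Field K] [Fintype K] [DecidableEq K]

lemma roots4 (c4 c3 c2 c1 c0 : K) (h : c4 ≠ 0) :
    (univ.filter fun s : K => c4 * s ^ 4 + c3 * s ^ 3 + c2 * s ^ 2 + c1 * s + c0 = 0).card ≤ 4 := by
  classical
  obtain ⟨P, hP⟩ : ∃ P : Polynomial K, P = Polynomial.C c4 * Polynomial.X ^ 4 + Polynomial.C c3 * Polynomial.X ^ 3 +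
    Polynomial.C c2 * Polynomial.X ^ 2 + Polynomial.C c1 * Polynomial.X + Polynomial.C c0 := ⟨_, rfl⟩
  have h1 : P.natDegree ≤ 4 := by
    rw [hP]
    compute_degree
  have h2 : P.coeff 4 = c4 := by
    rw [hP]
    simp [Polynomial.coeff_X_pow]
  have h3 : P ≠ 0 := by
    intro h0
    rw [h0, Polynomial.coeff_zero] at h2
    exact h h2.symm
  have hsub : (univ.filter fun s : K => c4 * s ^ 4 + c3 * s ^ 3 + c2 * s ^ 2 + c1 * s + c0 = 0) ⊆ P.roots.toFinset := by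
    intro s hs
    rw [mem_filter] at hs
    rw [Multiset.mem_toFinset, Polynomial.mem_roots h3, Polynomial.IsRoot, hP]
    simpa using hs.2
  exact (card_le_card hsub).trans ((Multiset.toFinset_card_le _).trans ((Polynomial.card_roots' _).trans h1))

lemma sum_ind4 (p : K → Prop) [DecidablePred p] (c4 c3 c2 c1 c0 : K) (h : c4 ≠ 0)
    (hp : ∀ s, p s → c4 * s ^ 4 + c3 * s ^ 3 + c2 * s ^ 2 + c1 * s + c0 = 0) :
    ∑ s : K, (if p s then (1 : ℝ) else 0) ≤ 4 := by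
  classical
  rw [← sum_filter, sum_const, nsmul_eq_mul, mul_one]
  have h1 : (univ.filter p) ⊆ (univ.filter fun s : K => c4 * s ^ 4 + c3 * s ^ 3 + c2 * s ^ 2 + c1 * s + c0 = 0) := by
    intro s hs
    rw [mem_filter] at hs ⊢
    exact ⟨hs.1, hp s hs.2⟩
  have h2 := (card_le_card h1).trans (roots4 c4 c3 c2 c1 c0 h)
  exact_mod_cast h2

lemma card_as_sum {n : ℕ} (p : (Fin n → K) → Prop) [DecidablePred p] :
    ((univ.filter p).card : ℝ) = ∑ t : Fin n → K, if p t then (1 : ℝ) else 0 := by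
  rw [← sum_filter, sum_const, nsmul_eq_mul, mul_one]

lemma bad0 (h27 : (27 : K) ≠ 0) :
    ((univ.filter fun t : Fin 3 → K => dis (fam 0 t) = 0).card : ℝ) ≤ 4 * (Fintype.card K : ℝ) ^ 2 := by
  obtain ⟨q, hq⟩ : ∃ q : ℝ, q = Fintype.card K := ⟨_, rfl⟩
  rw [card_as_sum, sum3, ← hq]
  have h1 : ∀ a b : K, ∑ c : K, (if dis (fam 0 ![a, b, c]) = 0 then (1 : ℝ) else 0) ≤ 4 := by
    intro a b
    refine sum_ind4 _ (-27) (18 * a * b - 4 * a ^ 3) (a ^ 2 * b ^ 2 - 4 * b ^ 3) 0 0 (neg_ne_zero.2 h27) fun s hs => ?_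
    have e : dis (fam 0 ![a, b, s]) = a ^ 2 * b ^ 2 - 4 * b ^ 3 - 4 * a ^ 3 * s + 18 * a * b * s - 27 * s ^ 2 := rfl
    rw [e] at hs
    linear_combination s ^ 2 * hs
  refine (sum_le_sum fun a _ => sum_le_sum fun b _ => h1 a b).trans (le_of_eq ?_)
  simp only [sum_const, card_univ, nsmul_eq_mul, ← hq]
  ring

lemma bad1 (h27 : (27 : K) ≠ 0) :
    ((univ.filter fun t : Fin 4 → K => dis (fam 1 t) = 0).card : ℝ) ≤ 4 * (Fintype.card K : ℝ) ^ 3 := by
  obtain ⟨q, hq⟩ : ∃ q : ℝ, q = Fintype.card K := ⟨_, rfl⟩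
  rw [card_as_sum, sum4, ← hq]
  have h1 : ∀ a c d : K, ∑ b : K, (if dis (fam 1 ![a, b, c, d]) = 0 then (1 : ℝ) else 0) ≤ 4 := by
    intro a c d
    obtain ⟨β, hβ⟩ : ∃ β, β = c - a := ⟨_, rfl⟩
    obtain ⟨γ, hγ⟩ : ∃ γ, γ = d - a * c := ⟨_, rfl⟩
    obtain ⟨k, hk⟩ : ∃ k, k = a * d := ⟨_, rfl⟩
    refine sum_ind4 _ (-27) 0 (54 * k - 4 * β ^ 3 + 18 * β * γ) 0
      (β ^ 2 * γ ^ 2 - 4 * γ ^ 3 + 4 * β ^ 3 * k - 18 * β * γ * k - 27 * k ^ 2) (neg_ne_zero.2 h27) fun s hs => ?_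
    have e : dis (fam 1 ![a, s, c, d]) = β ^ 2 * γ ^ 2 - 4 * γ ^ 3 - 4 * β ^ 3 * (s ^ 2 - k) + 18 * β * γ * (s ^ 2 - k) -
        27 * (s ^ 2 - k) ^ 2 := by
      rw [hβ, hγ, hk]
      rfl
    rw [e] at hs
    linear_combination hs
  have h2 : ∀ a : K, ∑ b : K, ∑ c : K, ∑ d : K, (if dis (fam 1 ![a, b, c, d]) = 0 then (1 : ℝ) else 0) ≤ 4 * q ^ 2 := by
    intro a
    rw [sum_comm, sum_congr rfl fun c _ => sum_comm]
    refine (sum_le_sum fun c _ => sum_le_sum fun d _ => h1 a c d).trans (le_of_eq ?_)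
    simp only [sum_const, card_univ, nsmul_eq_mul, ← hq]
    ring
  refine (sum_le_sum fun a _ => h2 a).trans (le_of_eq ?_)
  simp only [sum_const, card_univ, nsmul_eq_mul, ← hq]
  ring

lemma bad2 (h27 : (27 : K) ≠ 0) :
    ((univ.filter fun t : Fin 5 → K => dis (fam 2 t) = 0).card : ℝ) ≤ 4 * (Fintype.card K : ℝ) ^ 4 := by
  obtain ⟨q, hq⟩ : ∃ q : ℝ, q = Fintype.card K := ⟨_, rfl⟩
  rw [card_as_sum, sum5, ← hq]
  have h1 : ∀ a b c u : K, ∑ v : K, (if dis (fam 2 ![a, b, c, u, v]) = 0 then (1 : ℝ) else 0) ≤ 4 := by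
    intro a b c u
    obtain ⟨β, hβ⟩ : ∃ β, β = u ^ 2 - (a + b + c) := ⟨_, rfl⟩
    obtain ⟨g, hg⟩ : ∃ g, g = a * b + a * c + b * c := ⟨_, rfl⟩
    obtain ⟨k, hk⟩ : ∃ k, k = a * b * c := ⟨_, rfl⟩
    have hex : ∀ s : K, β ^ 2 * (g + 2 * u * s) ^ 2 - 4 * (g + 2 * u * s) ^ 3 - 4 * β ^ 3 * (s ^ 2 - k) +
        18 * β * (g + 2 * u * s) * (s ^ 2 - k) - 27 * (s ^ 2 - k) ^ 2 =
        (-27) * s ^ 4 + (-32 * u ^ 3 + 36 * β * u) * s ^ 3 +
          (4 * β ^ 2 * u ^ 2 - 48 * g * u ^ 2 - 4 * β ^ 3 + 18 * β * g + 54 * k) * s ^ 2 +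
          (4 * β ^ 2 * g * u - 24 * g ^ 2 * u - 36 * β * u * k) * s +
          (β ^ 2 * g ^ 2 - 4 * g ^ 3 + 4 * β ^ 3 * k - 18 * β * g * k - 27 * k ^ 2) := by
      intro s
      ring
    refine sum_ind4 _ _ _ _ _ _ (neg_ne_zero.2 h27) fun s hs => (hex s).symm.trans ?_
    have e : dis (fam 2 ![a, b, c, u, s]) = β ^ 2 * (g + 2 * u * s) ^ 2 - 4 * (g + 2 * u * s) ^ 3 - 4 * β ^ 3 * (s ^ 2 - k) +
        18 * β * (g + 2 * u * s) * (s ^ 2 - k) - 27 * (s ^ 2 - k) ^ 2 := by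
      rw [hβ, hg, hk]
      rfl
    rw [← e]
    exact hs
  refine (sum_le_sum fun a _ => sum_le_sum fun b _ => sum_le_sum fun c _ => sum_le_sum fun u _ => h1 a b c u).trans (le_of_eq ?_)
  simp only [sum_const, card_univ, nsmul_eq_mul, ← hq]
  ring

/-- the local data of the families -/
theorem loc_fam (hK : ringChar K ≠ 2) (hq3 : (27 : K) ≠ 0 ∨ Fintype.card K = 3) (r : ℕ) (hr : r ≤ 2) :
    ((univ.filter fun t : Fin (r + 3) → K => dis (fam r t) = 0).card : ℝ) * Fintype.card K ≤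
      20 * Fintype.card (Fin (r + 3) → K) ∧
    |∑ t : Fin (r + 3) → K, SS (fam r t) - r * Fintype.card (Fin (r + 3) → K)| * Fintype.card K ≤
      20 * Fintype.card (Fin (r + 3) → K) ∧
    |∑ t : Fin (r + 3) → K, SS (fam r t) ^ 2 - Fintype.card K * Fintype.card (Fin (r + 3) → K)| ≤
      20 * Fintype.card (Fin (r + 3) → K) := by
  classical
  obtain ⟨q, hq⟩ : ∃ q : ℝ, q = Fintype.card K := ⟨_, rfl⟩
  have hq1 : 1 ≤ q := by
    rw [hq]
    exact_mod_cast Fintype.card_pos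
  have hcard : (Fintype.card (Fin (r + 3) → K) : ℝ) = q ^ (r + 3) := by
    rw [Fintype.card_pi_const, hq]
    push_cast
    rfl
  rw [hcard, ← hq]
  have hbad : (27 : K) ≠ 0 → ((univ.filter fun t : Fin (r + 3) → K => dis (fam r t) = 0).card : ℝ) ≤ 4 * q ^ (r + 2) := by
    intro h27
    rw [hq]
    interval_cases r
    · exact bad0 h27
    · exact bad1 h27
    · exact bad2 h27
  refine ⟨?_, ?_, ?_⟩
  · rcases hq3 with h27 | h3
    · have h1 := mul_le_mul_of_nonneg_right (hbad h27) (by linarith : (0 : ℝ) ≤ q)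
      have h2 : 4 * q ^ (r + 2) * q = 4 * q ^ (r + 3) := by ring
      have h3 : 0 < q ^ (r + 3) := by positivity
      linarith
    · have h1 : ((univ.filter fun t : Fin (r + 3) → K => dis (fam r t) = 0).card : ℝ) ≤ q ^ (r + 3) := by
        rw [← hcard]
        exact_mod_cast card_le_univ _
      have h2 : q = 3 := by
        rw [hq, h3]
        norm_num
      have h3 : 0 < q ^ (r + 3) := by positivity
      have h4 := mul_le_mul_of_nonneg_right h1 (by linarith : (0 : ℝ) ≤ q)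
      rw [h2] at h4 h3 ⊢
      linarith
  · interval_cases r
    · have h := (mom0 hK).1
      rw [h]
      norm_num
      positivity
    · have h := (mom1 hK).1
      rw [h, ← hq]
      have e : q ^ 3 * (q - 1) - ((1 : ℕ) : ℝ) * q ^ (1 + 3) = - q ^ 3 := by
        push_cast
        ring
      rw [e, abs_neg, abs_of_pos (by positivity)]
      have e2 : q ^ 3 * q = q ^ (1 + 3) := by ring
      rw [e2]
      have : 0 < q ^ (1 + 3) := by positivity
      linarith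
    · have h := (mom2 hK).1
      rw [← hq] at h
      have h1 := mul_le_mul_of_nonneg_right h (by linarith : (0 : ℝ) ≤ q)
      push_cast
      have e2 : 3 * q ^ 4 * q = 3 * q ^ (2 + 3) := by ring
      rw [e2] at h1
      have : 0 < q ^ (2 + 3) := by positivity
      have e3 : (2 : ℝ) * q ^ (2 + 3) = 2 * q ^ 5 := by norm_num
      rw [e3]
      linarith
  · interval_cases r
    · have h := (mom0 hK).2
      rw [h, ← hq]
      have e : q ^ 3 * (q - 1) - q * q ^ (0 + 3) = - q ^ 3 := by ring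
      rw [e, abs_neg, abs_of_pos (by positivity)]
      have : 0 < q ^ 3 := by positivity
      have e2 : q ^ (0 + 3) = q ^ 3 := by norm_num
      rw [e2]
      linarith
    · have h := (mom1 hK).2
      rw [h, ← hq]
      have e : q ^ 4 * (q - 1) - q * q ^ (1 + 3) = - q ^ 4 := by ring
      rw [e, abs_neg, abs_of_pos (by positivity)]
      have : 0 < q ^ 4 := by positivity
      have e2 : q ^ (1 + 3) = q ^ 4 := by norm_num
      rw [e2]
      linarith
    · have h := (mom2 hK).2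
      rw [← hq] at h
      have e : q * q ^ (2 + 3) = q ^ 6 := by ring
      rw [e]
      have : 0 < q ^ 5 := by positivity
      have e2 : q ^ (2 + 3) = q ^ 5 := by norm_num
      rw [e2]
      linarith

end

end Q282.BP
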