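import Pool.Agent.Q282.BP.Max
import Pool.Agent.TH894.NE2

/-!
# Means of periodic functions over boxes
-/

set_option autoImplicit false

namespace Q282.BP

open Finset
open Pool.Agent.TH894.NE (box mem_box card_box Per mean)

/-- a box with given sides -/
def bx {d : ℕ} (L : Fin d → ℕ) : Finset (Fin d → ℕ) := Fintype.piFinset fun i => range (L i)

lemma mem_bx {d : ℕ} {L n : Fin d → ℕ} : n ∈ bx L ↔ ∀ i, n i < L i := by
  unfold bx
  simp only [Fintype.mem_piFinset, mem_range]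

lemma card_bx {d : ℕ} (L : Fin d → ℕ) : (bx L).card = ∏ i, L i := by
  unfold bx
  rw [Fintype.card_piFinset]
  simp only [card_range]

/-- the number of the `n < L` with a given residue -/
def cnt (q L r : ℕ) : ℕ := ((range L).filter fun n => n % q = r).card

lemma cnt_eq {q L r : ℕ} (hq : 0 < q) (hr : r < q) : cnt q L r = L / q + if r < L % q then 1 else 0 := by
  unfold cnt
  have h := Nat.count_modEq_card L hq r
  rw [Nat.count_eq_card_filter_range, Nat.mod_eq_of_lt hr] at h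
  rw [← h]
  congr 1
  apply filter_congr
  intro n _
  unfold Nat.ModEq
  rw [Nat.mod_eq_of_lt hr]

lemma cnt_abs {q L r : ℕ} (hq : 0 < q) (hr : r < q) : |(cnt q L r : ℝ) - (L : ℝ) / q| ≤ 1 := by
  rw [cnt_eq hq hr]
  have hq0 : (0 : ℝ) < q := by exact_mod_cast hq
  have h1 : (L : ℝ) = q * (L / q : ℕ) + (L % q : ℕ) := by
    have := Nat.div_add_mod L q
    exact_mod_cast this.symm
  have h2 : ((L % q : ℕ) : ℝ) < q := by exact_mod_cast Nat.mod_lt L hq
  have h3 : (0 : ℝ) ≤ ((L % q : ℕ) : ℝ) := Nat.cast_nonneg _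
  have h4 : (L : ℝ) / q = (L / q : ℕ) + ((L % q : ℕ) : ℝ) / q := by
    rw [div_eq_iff hq0.ne', add_mul, div_mul_cancel₀ _ hq0.ne']
    linarith
  have h5 : ((L % q : ℕ) : ℝ) / q ≤ 1 := by
    rw [div_le_one hq0]
    exact h2.le
  have h6 : 0 ≤ ((L % q : ℕ) : ℝ) / q := by positivity
  rw [h4]
  push_cast
  split_ifs
  · rw [abs_le]
    constructor <;> linarith
  · rw [abs_le]
    constructor <;> linarith

/-- sums over boxes through residues -/
lemma sum_bx {d q : ℕ} (hq : 0 < q) (L : Fin d → ℕ) (H : (Fin d → ℕ) → ℝ) (hH : Per q H) :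
    ∑ n ∈ bx L, H n = ∑ r ∈ box d q, H r * ∏ i, (cnt q (L i) (r i) : ℝ) := by
  classical
  have hmaps : ∀ n ∈ bx L, (fun i => n i % q) ∈ box d q := by
    intro n _
    rw [mem_box]
    exact fun i => Nat.mod_lt _ hq
  rw [← sum_fiberwise_of_maps_to hmaps]
  refine sum_congr rfl fun r hr => ?_
  have h1 : ∀ n ∈ (bx L).filter (fun n => (fun i => n i % q) = r), H n = H r := by
    intro n hn
    rw [mem_filter] at hn
    rw [hH n, hn.2]
  rw [sum_congr rfl h1, sum_const, nsmul_eq_mul, mul_comm]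
  congr 1
  have h2 : (bx L).filter (fun n => (fun i => n i % q) = r) =
      Fintype.piFinset fun i => (range (L i)).filter fun n => n % q = r i := by
    ext n
    rw [mem_filter, mem_bx, Fintype.mem_piFinset]
    simp only [mem_filter, mem_range]
    constructor
    · rintro ⟨h3, h4⟩ i
      exact ⟨h3 i, congrFun h4 i⟩
    · intro h3
      exact ⟨fun i => (h3 i).1, funext fun i => (h3 i).2⟩
  rw [h2, Fintype.card_piFinset]
  push_cast
  rfl

/-- the mean does not depend on the period -/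
lemma mean_mul_period {d q : ℕ} (hq : 0 < q) (k : ℕ) (hk : 0 < k) (H : (Fin d → ℕ) → ℝ) (hH : Per q H) :
    mean d (q * k) H = mean d q H := by
  have h1 : box d (q * k) = bx (fun _ : Fin d => q * k) := rfl
  have hq0 : (q : ℝ) ≠ 0 := by exact_mod_cast hq.ne'
  have hk0 : (k : ℝ) ≠ 0 := by exact_mod_cast hk.ne'
  unfold Pool.Agent.TH894.NE.mean
  rw [h1, sum_bx hq _ H hH, mul_sum, mul_sum]
  refine sum_congr rfl fun r hr => ?_
  rw [mem_box] at hr
  have h2 : ∀ i, cnt q (q * k) (r i) = k := by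
    intro i
    rw [cnt_eq hq (hr i), Nat.mul_div_cancel_left k hq, Nat.mul_mod_right, if_neg (Nat.not_lt_zero _), add_zero]
  rw [prod_congr rfl fun i _ => by rw [h2 i], prod_const, card_univ, Fintype.card_fin]
  push_cast
  rw [mul_pow]
  field_simp

/-- means over boxes with long sides -/
lemma bx_mean {d q : ℕ} (hq : 0 < q) (L : Fin d → ℕ) (T : ℝ) (hT : 0 < T) (hL : ∀ i, T ≤ L i) (H : (Fin d → ℕ) → ℝ)
    (hH : Per q H) (M : ℝ) (hM : ∀ n, |H n| ≤ M) :
    |∑ n ∈ bx L, H n - (∏ i, (L i : ℝ)) * mean d q H| ≤ (∏ i, (L i : ℝ)) * (M * (Real.exp (d * q / T) - 1)) := by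
  have hq0 : (0 : ℝ) < q := by exact_mod_cast hq
  have hL0 : ∀ i, (0 : ℝ) < L i := fun i => hT.trans_le (hL i)
  have hM0 : 0 ≤ M := (abs_nonneg _).trans (hM 0)
  have hP0 : 0 < ∏ i, (L i : ℝ) := prod_pos fun i _ => hL0 i
  rw [sum_bx hq L H hH]
  unfold Pool.Agent.TH894.NE.mean
  rw [mul_sum, mul_sum, ← sum_sub_distrib]
  refine (abs_sum_le_sum_abs _ _).trans ?_
  have h1 : ∀ r ∈ box d q, |H r * ∏ i, (cnt q (L i) (r i) : ℝ) - (∏ i, (L i : ℝ)) * (1 / (q : ℝ) ^ d * H r)| ≤
      (∏ i, (L i : ℝ)) * (M * (Real.exp (d * q / T) - 1)) / (q : ℝ) ^ d := by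
    intro r hr
    rw [mem_box] at hr
    obtain ⟨y, hy⟩ : ∃ y : Fin d → ℝ, y = fun i => (cnt q (L i) (r i) : ℝ) * (q / L i) - 1 := ⟨_, rfl⟩
    have hy1 : ∀ i, (cnt q (L i) (r i) : ℝ) = (1 + y i) * (L i / q) := by
      intro i
      rw [hy]
      have := (hL0 i).ne'
      field_simp
      ring
    have hy2 : ∀ i, ‖y i‖ ≤ q / T := by
      intro i
      have h2 := cnt_abs hq (hr i) (L := L i)
      have h3 : y i = ((cnt q (L i) (r i) : ℝ) - L i / q) * (q / L i) := by
        rw [hy]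
        have := (hL0 i).ne'
        field_simp
      rw [Real.norm_eq_abs, h3, abs_mul, abs_of_pos (by have := hL0 i; positivity : 0 < (q : ℝ) / L i)]
      calc |(cnt q (L i) (r i) : ℝ) - L i / q| * (q / L i) ≤ 1 * (q / L i) :=
            mul_le_mul_of_nonneg_right h2 (by have := hL0 i; positivity)
        _ = q / L i := one_mul _
        _ ≤ q / T := div_le_div_of_nonneg_left hq0.le hT (hL i)
    have hprod : ∏ i, (cnt q (L i) (r i) : ℝ) = (∏ i, (1 + y i)) * ((∏ i, (L i : ℝ)) / (q : ℝ) ^ d) := by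
      rw [prod_congr rfl fun i _ => hy1 i, prod_mul_distrib, prod_div_distrib, prod_const, card_univ, Fintype.card_fin]
    have h4 : |∏ i, (1 + y i) - 1| ≤ Real.exp (d * q / T) - 1 := by
      have h5 := norm_prod_one_add_sub_one_le univ y
      rw [Real.norm_eq_abs] at h5
      refine h5.trans ?_
      have h6 : ∑ i, ‖y i‖ ≤ d * q / T := by
        refine (sum_le_sum fun i _ => hy2 i).trans (le_of_eq ?_)
        rw [sum_const, card_univ, Fintype.card_fin, nsmul_eq_mul]
        ring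
      linarith [Real.exp_le_exp.2 h6]
    have e : H r * ∏ i, (cnt q (L i) (r i) : ℝ) - (∏ i, (L i : ℝ)) * (1 / (q : ℝ) ^ d * H r) =
        (∏ i, (L i : ℝ)) / (q : ℝ) ^ d * (H r * (∏ i, (1 + y i) - 1)) := by
      rw [hprod]
      ring
    rw [e, abs_mul, abs_mul, abs_of_pos (by positivity : 0 < (∏ i, (L i : ℝ)) / (q : ℝ) ^ d), mul_div_right_comm]
    exact mul_le_mul_of_nonneg_left (mul_le_mul (hM r) h4 (abs_nonneg _) hM0) (by positivity)
  refine (sum_le_sum h1).trans (le_of_eq ?_)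
  rw [sum_const, card_box, nsmul_eq_mul]
  push_cast
  field_simp

end Q282.BP
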