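import Mathlib

/-!
# Character sums over the families of cubic polynomials
-/

set_option autoImplicit false
set_option linter.unusedSectionVars false

namespace Q282.BP

open Finset

section

variable {K : Type} [Field K] [Fintype K] [DecidableEq K]

/-- the quadratic character with real values -/
noncomputable def ch (x : K) : ℝ := (quadraticChar K x : ℝ)

lemma ch_zero : ch (0 : K) = 0 := by
  unfold ch
  simp

lemma ch_mul (x y : K) : ch (x * y) = ch x * ch y := by
  unfold ch
  rw [map_mul]
  push_cast
  rfl

lemma ch_sq {x : K} (hx : x ≠ 0) : ch x ^ 2 = 1 := by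
  unfold ch
  have := quadraticChar_sq_one hx
  exact_mod_cast this

lemma ch_sq' (x : K) : ch x ^ 2 = if x = 0 then 0 else 1 := by
  split_ifs with h
  · rw [h, ch_zero]
    norm_num
  · exact ch_sq h

lemma ch_of_sq {x : K} (hx : x ≠ 0) : ch (x ^ 2) = 1 := by
  unfold ch
  have := quadraticChar_sq_one' hx
  exact_mod_cast this

lemma ch_one : ch (1 : K) = 1 := by
  unfold ch
  simp

lemma sum_ch (hK : ringChar K ≠ 2) : ∑ x : K, ch x = 0 := by
  unfold ch
  have := quadraticChar_sum_zero hK
  exact_mod_cast this

lemma sum_affine {a : K} (ha : a ≠ 0) (b : K) (G : K → ℝ) : ∑ v : K, G (a * v + b) = ∑ v : K, G v := by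
  refine Fintype.sum_equiv ((Equiv.mulLeft₀ a ha).trans (Equiv.addRight b)) _ _ fun v => ?_
  rfl

lemma sum_ch_sq : ∑ x : K, ch x ^ 2 = (Fintype.card K : ℝ) - 1 := by
  simp only [ch_sq']
  rw [← sum_filter_add_sum_filter_not univ (fun x : K => x = 0)]
  rw [sum_congr rfl (g := fun _ => (0 : ℝ)) (fun x hx => by rw [if_pos (mem_filter.1 hx).2]), sum_const_zero, zero_add]
  rw [sum_congr rfl (g := fun _ => (1 : ℝ)) (fun x hx => by rw [if_neg (mem_filter.1 hx).2]), sum_const, nsmul_eq_mul, mul_one]
  have h1 : (univ.filter fun x : K => ¬ x = 0).card = Fintype.card K - 1 := by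
    rw [filter_not, filter_eq' univ (0 : K), if_pos (mem_univ _), card_sdiff_of_subset (subset_univ _), card_singleton, card_univ]
  rw [h1, Nat.cast_sub Fintype.card_pos]
  push_cast
  rfl

/-- two values of `u x + v` -/
lemma sum_two {x y : K} (hxy : x ≠ y) (G H : K → ℝ) :
    ∑ u : K, ∑ v : K, G (u * x + v) * H (u * y + v) = (∑ v : K, G v) * ∑ v : K, H v := by
  rw [sum_mul_sum, ← Fintype.sum_prod_type' (f := fun u v => G (u * x + v) * H (u * y + v)),
    ← Fintype.sum_prod_type' (f := fun u v => G u * H v)]
  have hd : x - y ≠ 0 := sub_ne_zero.2 hxy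
  refine Fintype.sum_equiv
    { toFun := fun z : K × K => (z.1 * x + z.2, z.1 * y + z.2)
      invFun := fun z : K × K => ((z.1 - z.2) / (x - y), z.1 - (z.1 - z.2) / (x - y) * x)
      left_inv := ?_
      right_inv := ?_ } _ _ fun z => rfl
  · rintro ⟨u, v⟩
    have e : (u * x + v - (u * y + v)) / (x - y) = u := by
      rw [div_eq_iff hd]
      ring
    show ((u * x + v - (u * y + v)) / (x - y), u * x + v - (u * x + v - (u * y + v)) / (x - y) * x) = (u, v)
    rw [e]
    refine Prod.ext rfl ?_
    show u * x + v - u * x = v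
    ring
  · rintro ⟨a, b⟩
    show ((a - b) / (x - y) * x + (a - (a - b) / (x - y) * x), (a - b) / (x - y) * y + (a - (a - b) / (x - y) * x)) = (a, b)
    refine Prod.ext ?_ ?_
    · show (a - b) / (x - y) * x + (a - (a - b) / (x - y) * x) = a
      ring
    · show (a - b) / (x - y) * y + (a - (a - b) / (x - y) * x) = b
      have e : (a - b) / (x - y) * (x - y) = a - b := div_mul_cancel₀ _ hd
      have : (a - b) / (x - y) * y + (a - (a - b) / (x - y) * x) = a - (a - b) / (x - y) * (x - y) := by ring
      rw [this, e]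
      ring

/-- the mean square over two parameters which occur linearly -/
lemma inner_lin (hK : ringChar K ≠ 2) (w g : K → K) :
    (∑ u : K, ∑ v : K, ∑ x : K, ch (w x * (u * x + v) + g x) =
      (Fintype.card K : ℝ) ^ 2 * ∑ x ∈ univ.filter (fun x => w x = 0), ch (g x)) ∧
    (∑ u : K, ∑ v : K, (∑ x : K, ch (w x * (u * x + v) + g x)) ^ 2 =
      (Fintype.card K : ℝ) ^ 2 * (∑ x ∈ univ.filter (fun x => w x = 0), ch (g x)) ^ 2 +
        (univ.filter fun x => ¬ w x = 0).card * ((Fintype.card K : ℝ) * (Fintype.card K - 1))) := by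
  classical
  obtain ⟨q, hq⟩ : ∃ q : ℝ, q = Fintype.card K := ⟨_, rfl⟩
  rw [← hq]
  have hzero : ∀ x, w x ≠ 0 → ∀ u : K, ∑ v : K, ch (w x * (u * x + v) + g x) = 0 := by
    intro x hx u
    have : ∀ v : K, w x * (u * x + v) + g x = w x * v + (w x * (u * x) + g x) := fun v => by ring
    rw [sum_congr rfl fun v _ => by rw [this v], sum_affine hx _ ch, sum_ch hK]
  have hconst : ∀ c : ℝ, ∑ _u : K, ∑ _v : K, c = q ^ 2 * c := by
    intro c
    rw [sum_const, sum_const, card_univ, nsmul_eq_mul, nsmul_eq_mul, ← hq]
    ring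
  constructor
  · have h1 : ∑ u : K, ∑ v : K, ∑ x : K, ch (w x * (u * x + v) + g x) =
        ∑ x : K, ∑ u : K, ∑ v : K, ch (w x * (u * x + v) + g x) := by
      rw [sum_congr rfl fun u _ => sum_comm, sum_comm]
    rw [h1, mul_sum, sum_filter]
    refine sum_congr rfl fun x _ => ?_
    split_ifs with hx
    · rw [sum_congr rfl fun u _ => sum_congr rfl fun v _ => by rw [hx, zero_mul, zero_add]]
      exact hconst _
    · exact sum_eq_zero fun u _ => hzero x hx u
  · have h1 : ∑ u : K, ∑ v : K, (∑ x : K, ch (w x * (u * x + v) + g x)) ^ 2 =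
        ∑ x : K, ∑ y : K, ∑ u : K, ∑ v : K, ch (w x * (u * x + v) + g x) * ch (w y * (u * y + v) + g y) := by
      have h2 : ∀ u v : K, (∑ x : K, ch (w x * (u * x + v) + g x)) ^ 2 =
          ∑ x : K, ∑ y : K, ch (w x * (u * x + v) + g x) * ch (w y * (u * y + v) + g y) := by
        intro u v
        rw [sq, sum_mul_sum]
      rw [sum_congr rfl fun u _ => sum_congr rfl fun v _ => h2 u v]
      rw [sum_congr rfl fun u _ => sum_comm, sum_comm]
      refine sum_congr rfl fun x _ => ?_
      rw [sum_congr rfl fun u _ => sum_comm, sum_comm]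
    have hM : ∀ x y : K, ∑ u : K, ∑ v : K, ch (w x * (u * x + v) + g x) * ch (w y * (u * y + v) + g y) =
        (if w x = 0 then ch (g x) else 0) * (if w y = 0 then ch (g y) else 0) * q ^ 2 +
          if x = y then (if w x = 0 then 0 else q * (q - 1)) else 0 := by
      intro x y
      by_cases hx : w x = 0
      · by_cases hy : w y = 0
        · rw [if_pos hx, if_pos hy, if_pos hx]
          have : ∑ u : K, ∑ v : K, ch (w x * (u * x + v) + g x) * ch (w y * (u * y + v) + g y) =
              ∑ _u : K, ∑ _v : K, ch (g x) * ch (g y) := by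
            refine sum_congr rfl fun u _ => sum_congr rfl fun v _ => ?_
            rw [hx, hy, zero_mul, zero_add, zero_mul, zero_add]
          rw [this, hconst, ite_self]
          ring
        · have hne : x ≠ y := fun h => hy (h ▸ hx)
          rw [if_neg hy, if_neg hne, mul_zero, zero_mul, zero_add]
          refine sum_eq_zero fun u _ => ?_
          rw [sum_congr rfl fun v _ => by rw [hx, zero_mul, zero_add], ← mul_sum, hzero y hy u, mul_zero]
      · by_cases hy : w y = 0
        · have hne : x ≠ y := fun h => hx (h ▸ hy)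
          rw [if_neg hx, if_neg hne, zero_mul, zero_mul, zero_add]
          refine sum_eq_zero fun u _ => ?_
          rw [sum_congr rfl fun v _ => by rw [hy, zero_mul, zero_add], ← sum_mul, hzero x hx u, zero_mul]
        · rw [if_neg hx, if_neg hy, if_neg hx, zero_mul, zero_mul, zero_add]
          by_cases hxy : x = y
          · subst hxy
            rw [if_pos rfl]
            have h2 : ∀ u : K, ∑ v : K, ch (w x * (u * x + v) + g x) * ch (w x * (u * x + v) + g x) = q - 1 := by
              intro u
              have : ∀ v : K, ch (w x * (u * x + v) + g x) * ch (w x * (u * x + v) + g x) =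
                  (fun z => ch z ^ 2) (w x * v + (w x * (u * x) + g x)) := fun v => by
                show _ = ch (w x * v + (w x * (u * x) + g x)) ^ 2
                rw [sq]
                congr 2 <;> ring
              rw [sum_congr rfl fun v _ => this v, sum_affine hx _ (fun z => ch z ^ 2), sum_ch_sq, ← hq]
            rw [sum_congr rfl fun u _ => h2 u, sum_const, card_univ, nsmul_eq_mul, ← hq]
          · rw [if_neg hxy]
            have h2 := sum_two hxy (fun z => ch (w x * z + g x)) (fun z => ch (w y * z + g y))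
            rw [sum_affine hx _ ch, sum_ch hK, zero_mul] at h2
            exact h2
    rw [h1, sum_congr rfl fun x _ => sum_congr rfl fun y _ => hM x y]
    rw [sum_congr rfl fun x _ => sum_add_distrib, sum_add_distrib]
    congr 1
    · rw [sum_filter, sq (∑ a, if w a = 0 then ch (g a) else 0), sum_mul_sum, mul_sum]
      refine sum_congr rfl fun x _ => ?_
      rw [mul_sum]
      refine sum_congr rfl fun y _ => ?_
      ring
    · rw [← nsmul_eq_mul, ← sum_const, sum_filter]
      refine sum_congr rfl fun x _ => ?_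
      rw [sum_ite_eq, if_pos (mem_univ _)]
      by_cases hx : w x = 0
      · rw [if_pos hx, if_neg (fun h => h hx)]
      · rw [if_neg hx, if_pos hx]

/-- the sums over `c + L ^ 2` -/
lemma sum_shift_sq (hK : ringChar K ≠ 2) (c : K) :
    ∑ L : K, ch (c + L ^ 2) = (if c = 0 then (Fintype.card K : ℝ) else 0) - 1 := by
  classical
  have h1 : ∑ L : K, ch (c + L ^ 2) = ∑ v : K, (ch v + 1) * ch (c + v) := by
    rw [← sum_fiberwise_of_maps_to (s := univ) (t := univ) (g := fun L : K => L ^ 2) (fun _ _ => mem_univ _)]
    refine sum_congr rfl fun v _ => ?_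
    rw [sum_congr rfl (g := fun _ => ch (c + v)) (fun L hL => by rw [(mem_filter.1 hL).2]), sum_const, nsmul_eq_mul]
    congr 1
    have h2 := quadraticChar_card_sqrts hK v
    have h3 : ((univ.filter fun L : K => L ^ 2 = v).card : ℤ) = quadraticChar K v + 1 := by
      rw [← h2]
      congr 2
      ext L
      simp
    unfold ch
    exact_mod_cast h3
  have h2 : ∑ v : K, (ch v + 1) * ch (c + v) = ∑ v : K, ch v * ch (c + v) := by
    have h3 : ∑ v : K, ch (c + v) = 0 := by
      have h4 := sum_affine (K := K) one_ne_zero c ch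
      rw [sum_ch hK] at h4
      rw [← h4]
      refine sum_congr rfl fun v _ => ?_
      rw [one_mul, add_comm]
    rw [sum_congr rfl fun v _ => add_mul _ _ _, sum_add_distrib, sum_congr rfl fun v _ => one_mul (ch (c + v)), h3, add_zero]
  rw [h1, h2]
  split_ifs with hc
  · rw [hc, sum_congr rfl fun v _ => by rw [zero_add, ← sq], sum_ch_sq]
  · rw [zero_sub]
    -- `v ↦ c / v`
    have h3 : ∀ v : K, ch v * ch (c + v) = if v = 0 then 0 else ch (1 + c / v) := by
      intro v
      split_ifs with hv
      · rw [hv, ch_zero, zero_mul]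
      · have e : c + v = v * (1 + c / v) := by
          field_simp
          ring
        rw [e, ch_mul, ← mul_assoc, ← sq, ch_sq hv, one_mul]
    rw [sum_congr rfl fun v _ => h3 v]
    have h4 : ∑ v : K, (if v = 0 then (0 : ℝ) else ch (1 + c / v)) = ∑ v : K, (if v = 0 then (0 : ℝ) else ch (1 + v)) := by
      refine Fintype.sum_equiv
        { toFun := fun v : K => c / v
          invFun := fun v : K => c / v
          left_inv := fun v => ?_
          right_inv := fun v => ?_ } _ _ fun v => ?_
      · show c / (c / v) = v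
        exact div_div_cancel₀ hc
      · show c / (c / v) = v
        exact div_div_cancel₀ hc
      · show (if v = 0 then (0 : ℝ) else ch (1 + c / v)) = if c / v = 0 then (0 : ℝ) else ch (1 + c / v)
        by_cases hv : v = 0
        · rw [if_pos hv, hv, div_zero, if_pos rfl]
        · rw [if_neg hv, if_neg (div_ne_zero hc hv)]
    rw [h4]
    have h5 : ∑ v : K, (if v = 0 then (0 : ℝ) else ch (1 + v)) = ∑ v : K, (ch (1 + v) - if v = 0 then 1 else 0) := by
      refine sum_congr rfl fun v _ => ?_
      split_ifs with hv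
      · rw [hv, add_zero, ch_one, sub_self]
      · rw [sub_zero]
    have h6 : ∑ v : K, ch (1 + v) = 0 := by
      have h7 := sum_affine (K := K) one_ne_zero 1 ch
      rw [sum_ch hK] at h7
      rw [← h7]
      refine sum_congr rfl fun v _ => ?_
      rw [one_mul, add_comm]
    rw [h5, sum_sub_distrib, h6, sum_ite_eq', if_pos (mem_univ _)]
    norm_num

lemma card_sq_le (v : K) : (univ.filter fun L : K => L ^ 2 = v).card ≤ 2 := by
  classical
  by_cases h : ∃ L₀ : K, L₀ ^ 2 = v
  · obtain ⟨L₀, hL₀⟩ := h
    have : (univ.filter fun L : K => L ^ 2 = v) ⊆ {L₀, -L₀} := by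
      intro L hL
      rw [mem_filter] at hL
      rw [mem_insert, mem_singleton]
      exact sq_eq_sq_iff_eq_or_eq_neg.1 (hL.2.trans hL₀.symm)
    exact (card_le_card this).trans card_le_two
  · rw [card_eq_zero.2]
    · omega
    · rw [filter_eq_empty_iff]
      intro L _ hL
      exact h ⟨L, hL⟩

end

end Q282.BP
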