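import Pool.Agent.Q282.BP.Grp
import Pool.Agent.Q282.BP.Bad

/-!
# The proportion of the polynomials with a root modulo `p`
-/

set_option autoImplicit false
set_option linter.unusedSectionVars false

namespace Q282.BP

open Finset

section

variable {K : Type} [Field K] [Fintype K] [DecidableEq K]

/-- the number of the polynomials with roots, from the first two moments of the number of the roots -/
lemma dens {U : Type} [Fintype U] (R : U → K → Prop) [∀ u s, Decidable (R u s)]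
    (h4 : ∀ u, (univ.filter (R u)).card ≤ 4)
    (h1 : ∀ s : K, (∑ u, (if R u s then (1 : ℝ) else 0)) * Fintype.card K ≤ Fintype.card U)
    (h2 : ∀ s s' : K, s ≠ s' → (Fintype.card U : ℝ) ≤ 4 * (Fintype.card K * (Fintype.card K - 1)) *
      ∑ u, (if R u s ∧ R u s' then (1 : ℝ) else 0)) :
    ((univ.filter fun u => ∃ s, R u s).card : ℝ) ≤ 15 / 16 * Fintype.card U := by
  classical
  obtain ⟨q, hq⟩ : ∃ q : ℝ, q = Fintype.card K := ⟨_, rfl⟩
  obtain ⟨D, hD⟩ : ∃ D : ℝ, D = Fintype.card U := ⟨_, rfl⟩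
  rw [← hq, ← hD] at h2
  rw [← hD]
  have hq2 : 2 ≤ q := by
    rw [hq]
    exact_mod_cast Fintype.one_lt_card
  have hD0 : 0 ≤ D := by
    rw [hD]
    positivity
  have e1 : ((univ.filter fun u => ∃ s, R u s).card : ℝ) = ∑ u, if ∃ s, R u s then (1 : ℝ) else 0 := by
    rw [← sum_filter, sum_const, nsmul_eq_mul, mul_one]
  have e2 : ∀ u, (if ∃ s, R u s then (1 : ℝ) else 0) ≤
      ∑ s, (if R u s then (1 : ℝ) else 0) - 1 / 4 * ∑ s, ∑ s', (if s ≠ s' then (if R u s ∧ R u s' then (1 : ℝ) else 0) else 0) := by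
    intro u
    obtain ⟨N, hN⟩ : ∃ N : ℕ, N = (univ.filter (R u)).card := ⟨_, rfl⟩
    have h5 : ∑ s, (if R u s then (1 : ℝ) else 0) = N := by
      rw [← sum_filter, sum_const, nsmul_eq_mul, mul_one, hN]
    have h6 : ∑ s, ∑ s', (if s ≠ s' then (if R u s ∧ R u s' then (1 : ℝ) else 0) else 0) = N * N - N := by
      have h7 : ∀ s s', (if s ≠ s' then (if R u s ∧ R u s' then (1 : ℝ) else 0) else 0) =
          (if R u s then (1 : ℝ) else 0) * (if R u s' then (1 : ℝ) else 0) - if s = s' then (if R u s then (1 : ℝ) else 0) else 0 := by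
        intro s s'
        by_cases hs : s = s'
        · subst hs
          by_cases hr : R u s <;> simp [hr]
        · by_cases hr : R u s <;> by_cases hr' : R u s' <;> simp [hr, hr', hs]
      rw [sum_congr rfl fun s _ => sum_congr rfl fun s' _ => h7 s s']
      simp only [sum_sub_distrib, sum_ite_eq, mem_univ, if_true]
      rw [← sum_mul_sum, h5]
    rw [h5, h6]
    have h8 : N ≤ 4 := by
      rw [hN]
      exact h4 u
    by_cases hex : ∃ s, R u s
    · rw [if_pos hex]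
      have h9 : 1 ≤ N := by
        rw [hN]
        obtain ⟨s, hs⟩ := hex
        exact card_pos.2 ⟨s, mem_filter.2 ⟨mem_univ _, hs⟩⟩
      interval_cases N <;> norm_num
    · rw [if_neg hex]
      interval_cases N <;> norm_num
  rw [e1]
  refine (sum_le_sum fun u _ => e2 u).trans ?_
  rw [sum_sub_distrib, ← mul_sum]
  have e3 : ∑ u, ∑ s, (if R u s then (1 : ℝ) else 0) ≤ D := by
    rw [sum_comm]
    have h5 : ∀ s : K, ∑ u, (if R u s then (1 : ℝ) else 0) ≤ D / q := by
      intro s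
      rw [le_div_iff₀ (by linarith), hq, hD]
      exact h1 s
    refine (sum_le_sum fun s _ => h5 s).trans (le_of_eq ?_)
    rw [sum_const, card_univ, nsmul_eq_mul, ← hq]
    field_simp
  have e4 : D / 4 ≤ ∑ u, ∑ s, ∑ s', (if s ≠ s' then (if R u s ∧ R u s' then (1 : ℝ) else 0) else 0) := by
    rw [sum_comm]
    rw [sum_congr rfl fun s _ => sum_comm]
    have h5 : ∀ s s' : K, (if s ≠ s' then D / (4 * (q * (q - 1))) else 0) ≤
        ∑ u, (if s ≠ s' then (if R u s ∧ R u s' then (1 : ℝ) else 0) else 0) := by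
      intro s s'
      by_cases hs : s = s'
      · simp [hs]
      · simp only [ne_eq, hs, not_false_eq_true, if_true]
        have h6 : 0 < 4 * (q * (q - 1)) := by
          have : 0 < q - 1 := by linarith
          positivity
        rw [div_le_iff₀ h6, mul_comm]
        exact h2 s s' hs
    refine le_trans (le_of_eq ?_) (sum_le_sum fun s _ => sum_le_sum fun s' _ => h5 s s')
    have h6 : ∀ s : K, ∑ s', (if s ≠ s' then D / (4 * (q * (q - 1))) else 0) = (q - 1) * (D / (4 * (q * (q - 1)))) := by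
      intro s
      have h7 : ∀ s' : K, (if s ≠ s' then D / (4 * (q * (q - 1))) else 0) =
          D / (4 * (q * (q - 1))) - if s = s' then D / (4 * (q * (q - 1))) else 0 := by
        intro s'
        by_cases hs : s = s'
        · simp [hs]
        · simp [hs]
      rw [sum_congr rfl fun s' _ => h7 s', sum_sub_distrib, sum_ite_eq, if_pos (mem_univ _), sum_const, card_univ, nsmul_eq_mul,
        ← hq]
      ring
    rw [sum_congr rfl fun s _ => h6 s, sum_const, card_univ, nsmul_eq_mul, ← hq]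
    have h7 : q - 1 ≠ 0 := by
      have : 0 < q - 1 := by linarith
      exact this.ne'
    have h8 : q ≠ 0 := by
      intro h0
      rw [h0] at hq2
      linarith
    field_simp
  linarith

lemma cnt_one {a : K} (ha : a ≠ 0) (b : K) : ∑ v : K, (if a * v + b = 0 then (1 : ℝ) else 0) = 1 := by
  rw [sum_affine ha b (fun v => if v = 0 then (1 : ℝ) else 0), sum_ite_eq', if_pos (mem_univ _)]

lemma two_ge (P : K → K → Prop) [∀ v w, Decidable (P v w)] (v₀ w₀ : K) (h : P v₀ w₀) :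
    1 ≤ ∑ v : K, ∑ w : K, (if P v w then (1 : ℝ) else 0) := by
  have h1 : ∑ w : K, (if P v₀ w then (1 : ℝ) else 0) ≤ ∑ v : K, ∑ w : K, (if P v w then (1 : ℝ) else 0) :=
    single_le_sum (f := fun v => ∑ w : K, (if P v w then (1 : ℝ) else 0)) (fun v _ => sum_nonneg fun w _ => by split_ifs <;> norm_num)
      (mem_univ v₀)
  have h2 : (if P v₀ w₀ then (1 : ℝ) else 0) ≤ ∑ w : K, (if P v₀ w then (1 : ℝ) else 0) :=
    single_le_sum (f := fun w => (if P v₀ w then (1 : ℝ) else 0)) (fun w _ => by split_ifs <;> norm_num) (mem_univ w₀)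
  rw [if_pos h] at h2
  exact h2.trans h1

/-- a lower bound for a sum over the elements different from two given ones -/
lemma sum_ge_ne2 (f : K → ℝ) (hf : ∀ x, 0 ≤ f x) (s s' : K) (c : ℝ) (hc : ∀ x, x ≠ s → x ≠ s' → c ≤ f x) (hc0 : 0 ≤ c) :
    ((Fintype.card K : ℝ) - 2) * c ≤ ∑ x, f x := by
  classical
  have h1 : ∑ x ∈ univ \ {s, s'}, f x ≤ ∑ x, f x :=
    sum_le_sum_of_subset_of_nonneg sdiff_subset fun x _ _ => hf x
  have h2 : ∑ x ∈ univ \ ({s, s'} : Finset K), c ≤ ∑ x ∈ univ \ {s, s'}, f x := by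
    refine sum_le_sum fun x hx => ?_
    rw [mem_sdiff, mem_insert, mem_singleton, not_or] at hx
    exact hc x hx.2.1 hx.2.2
  refine le_trans ?_ (h2.trans h1)
  rw [sum_const, nsmul_eq_mul]
  refine mul_le_mul_of_nonneg_right ?_ hc0
  have h3 : (univ \ ({s, s'} : Finset K)).card = Fintype.card K - ({s, s'} : Finset K).card := by
    rw [card_sdiff_of_subset (subset_univ _), card_univ]
  have h4 : ({s, s'} : Finset K).card ≤ 2 := card_le_two
  have h5 : Fintype.card K ≤ (univ \ ({s, s'} : Finset K)).card + 2 := by omega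
  have h6 : (Fintype.card K : ℝ) ≤ ((univ \ ({s, s'} : Finset K)).card : ℝ) + 2 := by exact_mod_cast h5
  linarith

lemma roots_le (a₃ a₂ a₁ a₀ : K) (p : K → Prop) [DecidablePred p] (hp : ∀ s, p s → s ^ 4 + a₃ * s ^ 3 + a₂ * s ^ 2 + a₁ * s + a₀ = 0) :
    (univ.filter p).card ≤ 4 := by
  refine (card_le_card ?_).trans (roots4 1 a₃ a₂ a₁ a₀ one_ne_zero)
  intro s hs
  rw [mem_filter] at hs ⊢
  exact ⟨hs.1, by rw [one_mul]; exact hp s hs.2⟩

lemma cub_roots (C : K × K × K) : (univ.filter fun s => cub C s = 0).card ≤ 4 := by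
  refine roots_le C.1 C.2.1 C.2.2 0 _ fun s hs => ?_
  unfold cub at hs
  linear_combination s * hs

lemma quart_roots (C : K × K × K) (x y : K) : (univ.filter fun s => quart C x y s = 0).card ≤ 4 := by
  refine roots_le 0 (-(2 * C.1 + 6 * x)) (-(8 * y)) (C.1 ^ 2 - 2 * C.1 * x - 3 * x ^ 2 - 4 * C.2.1) _ fun s hs => ?_
  unfold quart at hs
  linear_combination hs

lemma ind_nonneg (p : Prop) [Decidable p] : (0 : ℝ) ≤ if p then 1 else 0 := by
  split_ifs <;> norm_num

/-- family 0 -/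
lemma dens0 (hq7 : 7 ≤ Fintype.card K) :
    ((univ.filter fun t : Fin 3 → K => ∃ s, cub (fam 0 t) s = 0).card : ℝ) ≤ 15 / 16 * Fintype.card (Fin 3 → K) := by
  obtain ⟨q, hq⟩ : ∃ q : ℝ, q = Fintype.card K := ⟨_, rfl⟩
  have hq7' : 7 ≤ q := by
    rw [hq]
    exact_mod_cast hq7
  have hcard : (Fintype.card (Fin 3 → K) : ℝ) = q ^ 3 := by
    rw [Fintype.card_pi_const, hq]
    push_cast
    rfl
  have e0 : ∀ a b c s : K, cub (fam 0 ![a, b, c]) s = 1 * c + (s ^ 3 + a * s ^ 2 + b * s) := by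
    intro a b c s
    show s ^ 3 + a * s ^ 2 + b * s + c = _
    ring
  refine dens (fun t s => cub (fam 0 t) s = 0) (fun t => cub_roots _) (fun s => ?_) (fun s s' hs => ?_)
  · rw [sum3, hcard, ← hq]
    have h1 : ∀ a b : K, ∑ c : K, (if cub (fam 0 ![a, b, c]) s = 0 then (1 : ℝ) else 0) = 1 := by
      intro a b
      refine (sum_congr rfl fun c _ => ?_).trans (cnt_one one_ne_zero (s ^ 3 + a * s ^ 2 + b * s))
      rw [e0]
    rw [sum_congr rfl fun a _ => sum_congr rfl fun b _ => h1 a b]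
    simp only [sum_const, card_univ, nsmul_eq_mul, ← hq]
    refine le_of_eq ?_
    ring
  · rw [sum3, hcard, ← hq]
    have hd : s - s' ≠ 0 := sub_ne_zero.2 hs
    have h1 : ∀ a : K, 1 ≤ ∑ b : K, ∑ c : K, (if cub (fam 0 ![a, b, c]) s = 0 ∧ cub (fam 0 ![a, b, c]) s' = 0 then (1 : ℝ) else 0) := by
      intro a
      obtain ⟨b, hb⟩ : ∃ b : K, b * (s - s') = -((s ^ 3 + a * s ^ 2) - (s' ^ 3 + a * s' ^ 2)) := ⟨_, div_mul_cancel₀ _ hd⟩
      refine two_ge _ b (-(s ^ 3 + a * s ^ 2) - b * s) ⟨?_, ?_⟩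
      · rw [e0]
        ring
      · rw [e0]
        linear_combination -hb
    have h2 : q ≤ ∑ a : K, ∑ b : K, ∑ c : K, (if cub (fam 0 ![a, b, c]) s = 0 ∧ cub (fam 0 ![a, b, c]) s' = 0 then (1 : ℝ) else 0) := by
      refine le_trans (le_of_eq ?_) (sum_le_sum fun a _ => h1 a)
      rw [sum_const, card_univ, nsmul_eq_mul, ← hq, mul_one]
    have h3 : 0 ≤ 4 * (q * (q - 1)) := by
      have : 0 ≤ q - 1 := by linarith
      positivity
    refine le_trans ?_ (mul_le_mul_of_nonneg_left h2 h3)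
    nlinarith [mul_nonneg (by linarith : (0 : ℝ) ≤ q) (by linarith : (0 : ℝ) ≤ q)]

/-- family 1, the cubic polynomials -/
lemma dens1 (hq7 : 7 ≤ Fintype.card K) :
    ((univ.filter fun t : Fin 4 → K => ∃ s, cub (fam 1 t) s = 0).card : ℝ) ≤ 15 / 16 * Fintype.card (Fin 4 → K) := by
  obtain ⟨q, hq⟩ : ∃ q : ℝ, q = Fintype.card K := ⟨_, rfl⟩
  have hq7' : 7 ≤ q := by
    rw [hq]
    exact_mod_cast hq7
  have hcard : (Fintype.card (Fin 4 → K) : ℝ) = q ^ 4 := by
    rw [Fintype.card_pi_const, hq]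
    push_cast
    rfl
  have e : ∀ a b c d s : K, cub (fam 1 ![a, b, c, d]) s = (s - a) * d + ((s - a) * (s ^ 2 + c * s) + b ^ 2) := by
    intro a b c d s
    show s ^ 3 + (c - a) * s ^ 2 + (d - a * c) * s + (b ^ 2 - a * d) = _
    ring
  refine dens (fun t s => cub (fam 1 t) s = 0) (fun t => cub_roots _) (fun s => ?_) (fun s s' hs => ?_)
  · rw [sum4, hcard, ← hq]
    have h1 : ∀ a : K, ∑ b : K, ∑ c : K, ∑ d : K, (if cub (fam 1 ![a, b, c, d]) s = 0 then (1 : ℝ) else 0) = q ^ 2 := by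
      intro a
      by_cases ha : s - a = 0
      · have h2 : ∀ b : K, ∑ c : K, ∑ d : K, (if cub (fam 1 ![a, b, c, d]) s = 0 then (1 : ℝ) else 0) =
            if b = 0 then q ^ 2 else 0 := by
          intro b
          have h3 : ∀ c d : K, (if cub (fam 1 ![a, b, c, d]) s = 0 then (1 : ℝ) else 0) = if b = 0 then 1 else 0 := by
            intro c d
            rw [e, ha, zero_mul, zero_mul, zero_add, zero_add]
            simp only [pow_eq_zero_iff (two_ne_zero)]
          rw [sum_congr rfl fun c _ => sum_congr rfl fun d _ => h3 c d]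
          simp only [sum_const, card_univ, nsmul_eq_mul, ← hq]
          split_ifs <;> ring
        rw [sum_congr rfl fun b _ => h2 b, sum_ite_eq', if_pos (mem_univ _)]
      · have h2 : ∀ b c : K, ∑ d : K, (if cub (fam 1 ![a, b, c, d]) s = 0 then (1 : ℝ) else 0) = 1 := by
          intro b c
          exact (sum_congr rfl fun d _ => by rw [e]).trans (cnt_one ha ((s - a) * (s ^ 2 + c * s) + b ^ 2))
        rw [sum_congr rfl fun b _ => sum_congr rfl fun c _ => h2 b c]
        simp only [sum_const, card_univ, nsmul_eq_mul, ← hq]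
        ring
    rw [sum_congr rfl fun a _ => h1 a, sum_const, card_univ, nsmul_eq_mul, ← hq]
    refine le_of_eq ?_
    ring
  · rw [sum4, hcard, ← hq]
    have hd : s - s' ≠ 0 := sub_ne_zero.2 hs
    have h1 : ∀ a b : K, a ≠ s → a ≠ s' → 1 ≤ ∑ c : K, ∑ d : K,
        (if cub (fam 1 ![a, b, c, d]) s = 0 ∧ cub (fam 1 ![a, b, c, d]) s' = 0 then (1 : ℝ) else 0) := by
      intro a b ha ha'
      have h2 : s - a ≠ 0 := sub_ne_zero.2 (Ne.symm ha)
      have h3 : s' - a ≠ 0 := sub_ne_zero.2 (Ne.symm ha')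
      -- `c s + d = - b ^ 2 / (s - a) - s ^ 2`
      obtain ⟨w, hw⟩ : ∃ w : K, w * (s - a) = - b ^ 2 := ⟨- b ^ 2 / (s - a), div_mul_cancel₀ _ h2⟩
      obtain ⟨w', hw'⟩ : ∃ w' : K, w' * (s' - a) = - b ^ 2 := ⟨- b ^ 2 / (s' - a), div_mul_cancel₀ _ h3⟩
      obtain ⟨c, hc⟩ : ∃ c : K, c * (s - s') = (w - s ^ 2) - (w' - s' ^ 2) := ⟨_, div_mul_cancel₀ _ hd⟩
      refine two_ge _ c (w - s ^ 2 - c * s) ⟨?_, ?_⟩
      · rw [e]
        linear_combination hw
      · rw [e]
        linear_combination hw' - (s' - a) * hc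
    have h2 : (q - 2) * q ≤ ∑ a : K, ∑ b : K, ∑ c : K, ∑ d : K,
        (if cub (fam 1 ![a, b, c, d]) s = 0 ∧ cub (fam 1 ![a, b, c, d]) s' = 0 then (1 : ℝ) else 0) := by
      rw [hq]
      refine sum_ge_ne2 _ (fun a => sum_nonneg fun b _ => sum_nonneg fun c _ => sum_nonneg fun d _ => ind_nonneg _) s s' _ ?_
        (Nat.cast_nonneg _)
      intro a ha ha'
      refine le_trans (le_of_eq ?_) (sum_le_sum fun b _ => h1 a b ha ha')
      rw [sum_const, card_univ, nsmul_eq_mul, mul_one]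
    have h3 : 0 ≤ 4 * (q * (q - 1)) := by
      have : 0 ≤ q - 1 := by linarith
      positivity
    refine le_trans ?_ (mul_le_mul_of_nonneg_left h2 h3)
    have h4 : q ^ 2 ≤ 4 * (q - 1) * (q - 2) := by nlinarith
    calc q ^ 4 = q ^ 2 * q ^ 2 := by ring
      _ ≤ q ^ 2 * (4 * (q - 1) * (q - 2)) := mul_le_mul_of_nonneg_left h4 (by positivity)
      _ = _ := by ring

/-- family 1, the quartic polynomials -/
lemma dens1q (hK : ringChar K ≠ 2) (hq7 : 7 ≤ Fintype.card K) :
    ((univ.filter fun t : Fin 4 → K => ∃ s, quart (fam 1 t) (t 0) (t 1) s = 0).card : ℝ) ≤ 15 / 16 * Fintype.card (Fin 4 → K) := by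
  obtain ⟨q, hq⟩ : ∃ q : ℝ, q = Fintype.card K := ⟨_, rfl⟩
  have h20 : (2 : K) ≠ 0 := Ring.two_ne_zero hK
  have hq7' : 7 ≤ q := by
    rw [hq]
    exact_mod_cast hq7
  have hcard : (Fintype.card (Fin 4 → K) : ℝ) = q ^ 4 := by
    rw [Fintype.card_pi_const, hq]
    push_cast
    rfl
  have e : ∀ a b c d s : K, quart (fam 1 ![a, b, c, d]) ((![a, b, c, d] : Fin 4 → K) 0) ((![a, b, c, d] : Fin 4 → K) 1) s =
      -4 * d + (s ^ 4 - (2 * c + 4 * a) * s ^ 2 - 8 * b * s + c ^ 2) := by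
    intro a b c d s
    show s ^ 4 - (2 * (c - a) + 6 * a) * s ^ 2 - 8 * b * s + ((c - a) ^ 2 - 2 * (c - a) * a - 3 * a ^ 2 - 4 * (d - a * c)) = _
    ring
  have h40 : (-4 : K) ≠ 0 := by
    have : (-4 : K) = -(2 * 2) := by norm_num
    rw [this]
    exact neg_ne_zero.2 (mul_ne_zero h20 h20)
  refine dens (fun t s => quart (fam 1 t) (t 0) (t 1) s = 0) (fun t => quart_roots _ _ _) (fun s => ?_) (fun s s' hs => ?_)
  · rw [sum4, hcard, ← hq]
    have h1 : ∀ a b c : K, ∑ d : K, (if quart (fam 1 ![a, b, c, d]) ((![a, b, c, d] : Fin 4 → K) 0) ((![a, b, c, d] : Fin 4 → K) 1) s = 0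
        then (1 : ℝ) else 0) = 1 := by
      intro a b c
      exact (sum_congr rfl fun d _ => by rw [e]).trans (cnt_one h40 (s ^ 4 - (2 * c + 4 * a) * s ^ 2 - 8 * b * s + c ^ 2))
    rw [sum_congr rfl fun a _ => sum_congr rfl fun b _ => sum_congr rfl fun c _ => h1 a b c]
    simp only [sum_const, card_univ, nsmul_eq_mul, ← hq]
    refine le_of_eq ?_
    ring
  · rw [sum4, hcard, ← hq]
    have hd : s - s' ≠ 0 := sub_ne_zero.2 hs
    have h1 : ∀ a c : K, 1 ≤ ∑ b : K, ∑ d : K,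
        (if quart (fam 1 ![a, b, c, d]) ((![a, b, c, d] : Fin 4 → K) 0) ((![a, b, c, d] : Fin 4 → K) 1) s = 0 ∧
          quart (fam 1 ![a, b, c, d]) ((![a, b, c, d] : Fin 4 → K) 0) ((![a, b, c, d] : Fin 4 → K) 1) s' = 0 then (1 : ℝ) else 0) := by
      intro a c
      obtain ⟨b, hb⟩ : ∃ b : K, b * (8 * (s - s')) = (s ^ 4 - (2 * c + 4 * a) * s ^ 2) - (s' ^ 4 - (2 * c + 4 * a) * s' ^ 2) :=
        ⟨_, div_mul_cancel₀ _ (mul_ne_zero (by
          have : (8 : K) = 2 * 2 * 2 := by norm_num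
          rw [this]
          exact mul_ne_zero (mul_ne_zero h20 h20) h20) hd)⟩
      obtain ⟨d, hdd⟩ : ∃ d : K, d * 4 = s ^ 4 - (2 * c + 4 * a) * s ^ 2 - 8 * b * s + c ^ 2 :=
        ⟨_, div_mul_cancel₀ _ (by
          have : (4 : K) = 2 * 2 := by norm_num
          rw [this]
          exact mul_ne_zero h20 h20)⟩
      refine two_ge _ b d ⟨?_, ?_⟩
      · rw [e]
        linear_combination -hdd
      · rw [e]
        linear_combination -hdd + hb
    have h2 : q * q ≤ ∑ a : K, ∑ b : K, ∑ c : K, ∑ d : K,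
        (if quart (fam 1 ![a, b, c, d]) ((![a, b, c, d] : Fin 4 → K) 0) ((![a, b, c, d] : Fin 4 → K) 1) s = 0 ∧
          quart (fam 1 ![a, b, c, d]) ((![a, b, c, d] : Fin 4 → K) 0) ((![a, b, c, d] : Fin 4 → K) 1) s' = 0 then (1 : ℝ) else 0) := by
      rw [sum_congr rfl fun a _ => sum_comm]
      refine le_trans (le_of_eq ?_) (sum_le_sum fun a _ => sum_le_sum fun c _ => h1 a c)
      simp only [sum_const, card_univ, nsmul_eq_mul, ← hq]
      ring
    have h3 : 0 ≤ 4 * (q * (q - 1)) := by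
      have : 0 ≤ q - 1 := by linarith
      positivity
    refine le_trans ?_ (mul_le_mul_of_nonneg_left h2 h3)
    have h4 : q ≤ 4 * (q - 1) := by nlinarith
    calc q ^ 4 = q ^ 3 * q := by ring
      _ ≤ q ^ 3 * (4 * (q - 1)) := mul_le_mul_of_nonneg_left h4 (by positivity)
      _ = _ := by ring

end

end Q282.BP
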