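import Pool.Agent.Q282.BP.Ch

/-!
# The families of cubic polynomials
-/

set_option autoImplicit false
set_option linter.unusedSectionVars false

namespace Q282.BP

open Finset

/-- the families of the cubic polynomials `x ^ 3 + b x ^ 2 + c x + d` -/
def fam {R : Type} [CommRing R] : (r : ℕ) → (Fin (r + 3) → R) → R × R × R
  | 0, t => (t 0, t 1, t 2)
  | 1, t => (t 2 - t 0, t 3 - t 0 * t 2, t 1 ^ 2 - t 0 * t 3)
  | _ + 2, t => (t 3 ^ 2 - (t 0 + t 1 + t 2), t 0 * t 1 + t 0 * t 2 + t 1 * t 2 + 2 * t 3 * t 4, t 4 ^ 2 - t 0 * t 1 * t 2)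

/-- the value of the cubic polynomial -/
def cub {R : Type} [CommRing R] (c : R × R × R) (x : R) : R := x ^ 3 + c.1 * x ^ 2 + c.2.1 * x + c.2.2

/-- the discriminant of the cubic polynomial -/
def dis {R : Type} [CommRing R] (c : R × R × R) : R :=
  c.1 ^ 2 * c.2.1 ^ 2 - 4 * c.2.1 ^ 3 - 4 * c.1 ^ 3 * c.2.2 + 18 * c.1 * c.2.1 * c.2.2 - 27 * c.2.2 ^ 2

section

variable {K : Type} [Field K] [Fintype K] [DecidableEq K]

lemma sum_cons {n : ℕ} (G : (Fin (n + 1) → K) → ℝ) :
    ∑ t : Fin (n + 1) → K, G t = ∑ a : K, ∑ s : Fin n → K, G (Matrix.vecCons a s) := by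
  rw [← Fintype.sum_prod_type' (f := fun (a : K) (s : Fin n → K) => G (Matrix.vecCons a s))]
  refine (Fintype.sum_equiv (Fin.consEquiv (fun _ : Fin (n + 1) => K)) _ _ ?_).symm
  intro x
  rfl

lemma sum_nil (G : (Fin 0 → K) → ℝ) : ∑ t : Fin 0 → K, G t = G ![] := by
  rw [Fintype.sum_eq_single ![] fun t ht => absurd (Subsingleton.elim t ![]) ht]

lemma sum3 (G : (Fin 3 → K) → ℝ) : ∑ t : Fin 3 → K, G t = ∑ a, ∑ b, ∑ c, G ![a, b, c] := by
  simp only [sum_cons, sum_nil]

lemma sum4 (G : (Fin 4 → K) → ℝ) : ∑ t : Fin 4 → K, G t = ∑ a, ∑ b, ∑ c, ∑ d, G ![a, b, c, d] := by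
  simp only [sum_cons, sum_nil]

lemma sum5 (G : (Fin 5 → K) → ℝ) : ∑ t : Fin 5 → K, G t = ∑ a, ∑ b, ∑ c, ∑ d, ∑ e, G ![a, b, c, d, e] := by
  simp only [sum_cons, sum_nil]

/-- the character sum -/
noncomputable def SS (c : K × K × K) : ℝ := ∑ x : K, ch (cub c x)

/-- family 0 -/
lemma mom0 (hK : ringChar K ≠ 2) :
    ∑ t : Fin 3 → K, SS (fam 0 t) = 0 ∧
    ∑ t : Fin 3 → K, SS (fam 0 t) ^ 2 = (Fintype.card K : ℝ) ^ 3 * (Fintype.card K - 1) := by
  obtain ⟨q, hq⟩ : ∃ q : ℝ, q = Fintype.card K := ⟨_, rfl⟩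
  have e : ∀ a b c : K, SS (fam 0 ![a, b, c]) = ∑ x : K, ch (1 * (b * x + c) + (x ^ 3 + a * x ^ 2)) := by
    intro a b c
    unfold SS cub
    refine sum_congr rfl fun x _ => ?_
    congr 1
    show x ^ 3 + a * x ^ 2 + b * x + c = _
    ring
  have h : ∀ a : K, _ := fun a => inner_lin hK (fun _ : K => (1 : K)) (fun x => x ^ 3 + a * x ^ 2)
  have h0 : (univ.filter fun _ : K => (1 : K) = 0) = ∅ := by
    rw [filter_eq_empty_iff]
    intro x _
    exact one_ne_zero
  have h1 : (univ.filter fun _ : K => ¬ (1 : K) = 0) = univ := by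
    rw [filter_eq_self]
    intro x _
    exact one_ne_zero
  simp only [h0, h1, sum_empty, card_univ, mul_zero] at h
  constructor
  · rw [sum3]
    refine sum_eq_zero fun a _ => ?_
    rw [sum_congr rfl fun b _ => sum_congr rfl fun c _ => e a b c]
    exact (h a).1
  · rw [sum3 (fun t => SS (fam 0 t) ^ 2)]
    have h2 : ∀ a : K, ∑ b : K, ∑ c : K, SS (fam 0 ![a, b, c]) ^ 2 = q * (q * (q - 1)) := by
      intro a
      rw [sum_congr rfl fun b _ => sum_congr rfl fun c _ => by rw [e a b c], (h a).2, hq]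
      ring
    rw [sum_congr rfl fun a _ => h2 a, sum_const, card_univ, nsmul_eq_mul, ← hq]
    ring

/-- family 1 -/
lemma mom1 (hK : ringChar K ≠ 2) :
    ∑ t : Fin 4 → K, SS (fam 1 t) = (Fintype.card K : ℝ) ^ 3 * (Fintype.card K - 1) ∧
    ∑ t : Fin 4 → K, SS (fam 1 t) ^ 2 = (Fintype.card K : ℝ) ^ 4 * (Fintype.card K - 1) := by
  classical
  obtain ⟨q, hq⟩ : ∃ q : ℝ, q = Fintype.card K := ⟨_, rfl⟩
  have e : ∀ a b c d : K, SS (fam 1 ![a, b, c, d]) = ∑ x : K, ch ((x - a) * (c * x + d) + ((x - a) * x ^ 2 + b ^ 2)) := by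
    intro a b c d
    unfold SS cub
    refine sum_congr rfl fun x _ => ?_
    congr 1
    show x ^ 3 + (c - a) * x ^ 2 + (d - a * c) * x + (b ^ 2 - a * d) = _
    ring
  have h : ∀ a b : K, _ := fun a b => inner_lin hK (fun x : K => x - a) (fun x => (x - a) * x ^ 2 + b ^ 2)
  have h0 : ∀ a : K, (univ.filter fun x : K => x - a = 0) = {a} := by
    intro a
    ext x
    rw [mem_filter, mem_singleton, sub_eq_zero]
    simp
  have h1 : ∀ a : K, ((univ.filter fun x : K => ¬ x - a = 0).card : ℝ) = q - 1 := by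
    intro a
    have h2 : (univ.filter fun x : K => ¬ x - a = 0) = univ \ {a} := by
      rw [← h0 a, filter_not]
    rw [h2, card_sdiff_of_subset (subset_univ _), card_singleton, card_univ, Nat.cast_sub Fintype.card_pos, hq]
    push_cast
    rfl
  have h2 : ∀ a b : K, ch ((a - a) * a ^ 2 + b ^ 2) = ch b ^ 2 := by
    intro a b
    rw [sub_self, zero_mul, zero_add, sq, ch_mul, sq]
  simp only [h0, h1, sum_singleton, h2, ← hq] at h
  have h3 : ∑ b : K, ch b ^ 2 = q - 1 := by
    rw [sum_ch_sq, ← hq]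
  constructor
  · rw [sum4]
    have h4 : ∀ a b : K, ∑ c : K, ∑ d : K, SS (fam 1 ![a, b, c, d]) = q ^ 2 * ch b ^ 2 := by
      intro a b
      rw [sum_congr rfl fun c _ => sum_congr rfl fun d _ => e a b c d]
      exact (h a b).1
    rw [sum_congr rfl fun a _ => sum_congr rfl fun b _ => h4 a b, sum_congr rfl fun a _ => by rw [← mul_sum, h3],
      sum_const, card_univ, nsmul_eq_mul, ← hq]
    ring
  · rw [sum4 (fun t => SS (fam 1 t) ^ 2)]
    have h4 : ∀ a b : K, ∑ c : K, ∑ d : K, SS (fam 1 ![a, b, c, d]) ^ 2 = q ^ 2 * ch b ^ 2 + (q - 1) * (q * (q - 1)) := by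
      intro a b
      rw [sum_congr rfl fun c _ => sum_congr rfl fun d _ => by rw [e a b c d], (h a b).2]
      have h5 : (ch b ^ 2) ^ 2 = ch b ^ 2 := by
        by_cases hb : b = 0
        · rw [hb, ch_zero]
          norm_num
        · rw [ch_sq hb]
          norm_num
      rw [h5]
    have h5 : ∀ a : K, ∑ b : K, (q ^ 2 * ch b ^ 2 + (q - 1) * (q * (q - 1))) = q ^ 2 * (q - 1) + q * ((q - 1) * (q * (q - 1))) := by
      intro a
      rw [sum_add_distrib, ← mul_sum, h3, sum_const, card_univ, nsmul_eq_mul, ← hq]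
    rw [sum_congr rfl fun a _ => sum_congr rfl fun b _ => h4 a b, sum_congr rfl fun a _ => h5 a, sum_const, card_univ,
      nsmul_eq_mul, ← hq]
    ring

/-- the inner sums of family 2 -/
lemma inner_sq (hK : ringChar K ≠ 2) (c : K → K) (z : ℝ) (hz : ((univ.filter fun x => c x = 0).card : ℝ) = z) (_hz0 : 0 ≤ z)
    (hz3 : z ≤ 3) :
    (∑ u : K, ∑ v : K, ∑ x : K, ch (c x + (u * x + v) ^ 2) = (Fintype.card K : ℝ) ^ 2 * (z - 1)) ∧
    |∑ u : K, ∑ v : K, (∑ x : K, ch (c x + (u * x + v) ^ 2)) ^ 2 - (Fintype.card K : ℝ) ^ 3| ≤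
      10 * (Fintype.card K : ℝ) ^ 2 := by
  classical
  obtain ⟨q, hq⟩ : ∃ q : ℝ, q = Fintype.card K := ⟨_, rfl⟩
  have hq1 : 1 ≤ q := by
    rw [hq]
    exact_mod_cast Fintype.card_pos
  obtain ⟨k, hk⟩ : ∃ k : K → ℝ, k = fun x => (if c x = 0 then q else 0) - 1 := ⟨_, rfl⟩
  have hkx : ∀ x, ∑ L : K, ch (c x + L ^ 2) = k x := by
    intro x
    rw [sum_shift_sq hK, hk, hq]
  have hsumk : ∑ x, k x = q * (z - 1) := by
    rw [hk, sum_sub_distrib, ← sum_filter, sum_const, sum_const, nsmul_eq_mul, nsmul_eq_mul, hz, card_univ, ← hq]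
    ring
  have hone : ∀ x : K, ∀ G : K → ℝ, ∑ u : K, ∑ v : K, G (u * x + v) = q * ∑ v : K, G v := by
    intro x G
    have : ∀ u : K, ∑ v : K, G (u * x + v) = ∑ v : K, G v := by
      intro u
      have h1 := sum_affine (K := K) one_ne_zero (u * x) G
      rw [← h1]
      refine sum_congr rfl fun v _ => ?_
      rw [one_mul, add_comm]
    rw [sum_congr rfl fun u _ => this u, sum_const, card_univ, nsmul_eq_mul, ← hq]
  rw [← hq]
  constructor
  · have h1 : ∑ u : K, ∑ v : K, ∑ x : K, ch (c x + (u * x + v) ^ 2) =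
        ∑ x : K, ∑ u : K, ∑ v : K, ch (c x + (u * x + v) ^ 2) := by
      rw [sum_congr rfl fun u _ => sum_comm, sum_comm]
    rw [h1, sum_congr rfl fun x _ => (hone x (fun L => ch (c x + L ^ 2))).trans (by rw [hkx x]), ← mul_sum, hsumk]
    ring
  · have h1 : ∑ u : K, ∑ v : K, (∑ x : K, ch (c x + (u * x + v) ^ 2)) ^ 2 =
        ∑ x : K, ∑ y : K, ∑ u : K, ∑ v : K, ch (c x + (u * x + v) ^ 2) * ch (c y + (u * y + v) ^ 2) := by
      have h2 : ∀ u v : K, (∑ x : K, ch (c x + (u * x + v) ^ 2)) ^ 2 =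
          ∑ x : K, ∑ y : K, ch (c x + (u * x + v) ^ 2) * ch (c y + (u * y + v) ^ 2) := by
        intro u v
        rw [sq, sum_mul_sum]
      rw [sum_congr rfl fun u _ => sum_congr rfl fun v _ => h2 u v]
      rw [sum_congr rfl fun u _ => sum_comm, sum_comm]
      refine sum_congr rfl fun x _ => ?_
      rw [sum_congr rfl fun u _ => sum_comm, sum_comm]
    obtain ⟨n, hn⟩ : ∃ n : K → ℝ, n = fun x => ((univ.filter fun L : K => L ^ 2 = - c x).card : ℝ) := ⟨_, rfl⟩
    have hn2 : ∀ x, n x ≤ 2 := by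
      intro x
      rw [hn]
      show ((univ.filter fun L : K => L ^ 2 = - c x).card : ℝ) ≤ 2
      exact_mod_cast card_sq_le (- c x)
    have hn0 : ∀ x, 0 ≤ n x := by
      intro x
      rw [hn]
      positivity
    have hdiag : ∀ x, ∑ L : K, ch (c x + L ^ 2) * ch (c x + L ^ 2) = q - n x := by
      intro x
      have h2 : ∀ L : K, ch (c x + L ^ 2) * ch (c x + L ^ 2) = 1 - if L ^ 2 = - c x then 1 else 0 := by
        intro L
        rw [← sq, ch_sq']
        by_cases h : c x + L ^ 2 = 0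
        · rw [if_pos h, if_pos (eq_neg_of_add_eq_zero_right h), sub_self]
        · rw [if_neg h, if_neg (fun h' => h (by rw [h']; ring)), sub_zero]
      rw [sum_congr rfl fun L _ => h2 L, sum_sub_distrib, sum_const, card_univ, nsmul_eq_mul, mul_one, ← hq, hn, ← sum_filter,
        sum_const, nsmul_eq_mul, mul_one]
    have hM : ∀ x y : K, ∑ u : K, ∑ v : K, ch (c x + (u * x + v) ^ 2) * ch (c y + (u * y + v) ^ 2) =
        k x * k y + if x = y then q * (q - n x) - k x ^ 2 else 0 := by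
      intro x y
      by_cases hxy : x = y
      · subst hxy
        rw [if_pos rfl]
        have h2 := hone x (fun L => ch (c x + L ^ 2) * ch (c x + L ^ 2))
        rw [hdiag x] at h2
        rw [h2]
        ring
      · rw [if_neg hxy, add_zero]
        have h2 := sum_two hxy (fun L => ch (c x + L ^ 2)) (fun L => ch (c y + L ^ 2))
        rw [hkx x, hkx y] at h2
        exact h2
    have h3 : ∑ u : K, ∑ v : K, (∑ x : K, ch (c x + (u * x + v) ^ 2)) ^ 2 =
        (q * (z - 1)) ^ 2 + (q ^ 3 - q * ∑ x, n x) - ∑ x, k x ^ 2 := by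
      rw [h1, sum_congr rfl fun x _ => sum_congr rfl fun y _ => hM x y, sum_congr rfl fun x _ => sum_add_distrib, sum_add_distrib]
      have e1 : ∑ x, ∑ y, k x * k y = (q * (z - 1)) ^ 2 := by
        rw [← hsumk, sq, sum_mul_sum]
      have e2 : ∑ x, ∑ y, (if x = y then q * (q - n x) - k x ^ 2 else 0) = (q ^ 3 - q * ∑ x, n x) - ∑ x, k x ^ 2 := by
        rw [sum_congr rfl fun x _ => by rw [sum_ite_eq, if_pos (mem_univ _)], sum_sub_distrib, ← mul_sum, sum_sub_distrib, sum_const,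
          card_univ, nsmul_eq_mul, ← hq]
        ring
      rw [e1, e2]
      ring
    rw [h3]
    have h4 : ∑ x, n x ≤ 2 * q := by
      refine (sum_le_sum fun x _ => hn2 x).trans (le_of_eq ?_)
      rw [sum_const, card_univ, nsmul_eq_mul, ← hq, mul_comm]
    have h5 : 0 ≤ ∑ x, n x := sum_nonneg fun x _ => hn0 x
    have h6 : ∑ x, k x ^ 2 ≤ z * q ^ 2 + q := by
      have e1 : ∀ x, k x ^ 2 ≤ (if c x = 0 then q ^ 2 else 0) + 1 := by
        intro x
        rw [hk]
        show ((if c x = 0 then q else 0) - 1) ^ 2 ≤ _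
        split_ifs
        · nlinarith
        · norm_num
      refine (sum_le_sum fun x _ => e1 x).trans (le_of_eq ?_)
      rw [sum_add_distrib, ← sum_filter, sum_const, sum_const, nsmul_eq_mul, nsmul_eq_mul, hz, card_univ, ← hq, mul_one]
    have h7 : 0 ≤ ∑ x, k x ^ 2 := sum_nonneg fun x _ => sq_nonneg _
    have h8 : (q * (z - 1)) ^ 2 ≤ 4 * q ^ 2 := by
      have : (z - 1) ^ 2 ≤ 4 := by nlinarith
      nlinarith [sq_nonneg q]
    have h9 : 0 ≤ (q * (z - 1)) ^ 2 := sq_nonneg _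
    have h10 : q * ∑ x, n x ≤ 2 * q ^ 2 := by nlinarith
    have h11 : 0 ≤ q * ∑ x, n x := by positivity
    have h12 : z * q ^ 2 ≤ 3 * q ^ 2 := mul_le_mul_of_nonneg_right hz3 (sq_nonneg q)
    have h13 : q ≤ q ^ 2 := by nlinarith
    rw [abs_le]
    constructor
    · linarith
    · linarith

/-- family 2 -/
lemma mom2 (hK : ringChar K ≠ 2) :
    |∑ t : Fin 5 → K, SS (fam 2 t) - 2 * (Fintype.card K : ℝ) ^ 5| ≤ 3 * (Fintype.card K : ℝ) ^ 4 ∧
    |∑ t : Fin 5 → K, SS (fam 2 t) ^ 2 - (Fintype.card K : ℝ) ^ 6| ≤ 10 * (Fintype.card K : ℝ) ^ 5 := by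
  classical
  obtain ⟨q, hq⟩ : ∃ q : ℝ, q = Fintype.card K := ⟨_, rfl⟩
  have hq1 : 1 ≤ q := by
    rw [hq]
    exact_mod_cast Fintype.card_pos
  have e : ∀ a b c u v : K, SS (fam 2 ![a, b, c, u, v]) = ∑ x : K, ch ((x - a) * (x - b) * (x - c) + (u * x + v) ^ 2) := by
    intro a b c u v
    unfold SS cub
    refine sum_congr rfl fun x _ => ?_
    congr 1
    show x ^ 3 + (u ^ 2 - (a + b + c)) * x ^ 2 + (a * b + a * c + b * c + 2 * u * v) * x + (v ^ 2 - a * b * c) = _
    ring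
  obtain ⟨z, hz⟩ : ∃ z : K → K → K → ℝ, z = fun a b c => ((univ.filter fun x : K => (x - a) * (x - b) * (x - c) = 0).card : ℝ) := ⟨_, rfl⟩
  have hz0 : ∀ a b c, 0 ≤ z a b c := by
    intro a b c
    rw [hz]
    positivity
  have hz3 : ∀ a b c, z a b c ≤ 3 := by
    intro a b c
    rw [hz]
    have h1 : (univ.filter fun x : K => (x - a) * (x - b) * (x - c) = 0) ⊆ {a, b, c} := by
      intro x hx
      rw [mem_filter, mul_eq_zero, mul_eq_zero, sub_eq_zero, sub_eq_zero, sub_eq_zero] at hx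
      simp only [mem_insert, mem_singleton]
      tauto
    have h2 := (card_le_card h1).trans card_le_three
    show ((univ.filter fun x : K => (x - a) * (x - b) * (x - c) = 0).card : ℝ) ≤ 3
    exact_mod_cast h2
  have h : ∀ a b c : K, _ := fun a b c => inner_sq hK (fun x : K => (x - a) * (x - b) * (x - c)) (z a b c) (by rw [hz]) (hz0 a b c) (hz3 a b c)
  simp only [← hq] at h
  rw [← hq]
  constructor
  · rw [sum5]
    have h1 : ∀ a b c : K, ∑ u : K, ∑ v : K, SS (fam 2 ![a, b, c, u, v]) = q ^ 2 * (z a b c - 1) := by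
      intro a b c
      rw [sum_congr rfl fun u _ => sum_congr rfl fun v _ => e a b c u v]
      exact (h a b c).1
    have h2 : ∑ a : K, ∑ b : K, ∑ c : K, z a b c = q * (q ^ 3 - (q - 1) ^ 3) := by
      have h3 : ∀ a b c : K, z a b c = ∑ x : K, (1 - (if x = a then (0 : ℝ) else 1) * (if x = b then 0 else 1) * (if x = c then 0 else 1)) := by
        intro a b c
        rw [hz]
        show ((univ.filter fun x : K => (x - a) * (x - b) * (x - c) = 0).card : ℝ) = _
        rw [card_filter]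
        push_cast
        refine sum_congr rfl fun x _ => ?_
        by_cases h1 : x = a
        · simp [h1]
        · by_cases h2 : x = b
          · simp [h2]
          · by_cases h3 : x = c
            · simp [h3]
            · rw [if_neg, if_neg h1, if_neg h2, if_neg h3]
              · norm_num
              · exact mul_ne_zero (mul_ne_zero (sub_ne_zero.2 h1) (sub_ne_zero.2 h2)) (sub_ne_zero.2 h3)
      have h4 : ∀ x : K, ∑ a : K, (if x = a then (0 : ℝ) else 1) = q - 1 := by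
        intro x
        have : ∀ a : K, (if x = a then (0 : ℝ) else 1) = 1 - if x = a then 1 else 0 := by
          intro a
          split_ifs <;> norm_num
        rw [sum_congr rfl fun a _ => this a, sum_sub_distrib, sum_const, card_univ, nsmul_eq_mul, mul_one, ← hq, sum_ite_eq,
          if_pos (mem_univ _)]
      rw [sum_congr rfl fun a _ => sum_congr rfl fun b _ => sum_congr rfl fun c _ => h3 a b c]
      rw [sum_congr rfl fun a _ => sum_congr rfl fun b _ => sum_comm]
      rw [sum_congr rfl fun a _ => sum_comm]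
      rw [sum_comm]
      have h5 : ∀ x : K, ∑ a : K, ∑ b : K, ∑ c : K,
          (1 - (if x = a then (0 : ℝ) else 1) * (if x = b then 0 else 1) * (if x = c then 0 else 1)) = q ^ 3 - (q - 1) ^ 3 := by
        intro x
        have h6 : ∀ a b : K, ∑ c : K, (1 - (if x = a then (0 : ℝ) else 1) * (if x = b then 0 else 1) * (if x = c then 0 else 1)) =
            q - (if x = a then (0 : ℝ) else 1) * (if x = b then 0 else 1) * (q - 1) := by
          intro a b
          rw [sum_sub_distrib, ← mul_sum, h4 x, sum_const, card_univ, nsmul_eq_mul, mul_one, ← hq]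
        have h7 : ∀ a : K, ∑ b : K, (q - (if x = a then (0 : ℝ) else 1) * (if x = b then 0 else 1) * (q - 1)) =
            q ^ 2 - (if x = a then (0 : ℝ) else 1) * (q - 1) ^ 2 := by
          intro a
          rw [sum_sub_distrib, ← sum_mul, ← mul_sum, h4 x, sum_const, card_univ, nsmul_eq_mul, ← hq]
          ring
        rw [sum_congr rfl fun a _ => sum_congr rfl fun b _ => h6 a b, sum_congr rfl fun a _ => h7 a, sum_sub_distrib, ← sum_mul, h4 x,
          sum_const, card_univ, nsmul_eq_mul, ← hq]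
        ring
      rw [sum_congr rfl fun x _ => h5 x, sum_const, card_univ, nsmul_eq_mul, ← hq]
    have h3 : ∑ a : K, ∑ b : K, ∑ c : K, q ^ 2 * (z a b c - 1) = q ^ 2 * (q * (q ^ 3 - (q - 1) ^ 3) - q ^ 3) := by
      rw [← h2]
      simp only [← mul_sum, sum_sub_distrib, sum_const, card_univ, nsmul_eq_mul, ← hq]
      ring
    rw [sum_congr rfl fun a _ => sum_congr rfl fun b _ => sum_congr rfl fun c _ => h1 a b c, h3]
    have e1 : q ^ 2 * (q * (q ^ 3 - (q - 1) ^ 3) - q ^ 3) - 2 * q ^ 5 = q ^ 3 - 3 * q ^ 4 := by ring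
    rw [e1, abs_le]
    have h4 : 0 < q ^ 3 := by positivity
    have h5 : q ^ 3 ≤ q ^ 4 := pow_le_pow_right₀ hq1 (by norm_num)
    constructor <;> linarith
  · rw [sum5 (fun t => SS (fam 2 t) ^ 2)]
    have h1 : ∀ a b c : K, |∑ u : K, ∑ v : K, SS (fam 2 ![a, b, c, u, v]) ^ 2 - q ^ 3| ≤ 10 * q ^ 2 := by
      intro a b c
      rw [sum_congr rfl fun u _ => sum_congr rfl fun v _ => by rw [e a b c u v]]
      exact (h a b c).2
    have h2 : (q : ℝ) ^ 6 = ∑ _a : K, ∑ _b : K, ∑ _c : K, q ^ 3 := by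
      simp only [sum_const, card_univ, nsmul_eq_mul, ← hq]
      ring
    rw [h2, ← sum_sub_distrib]
    have h3 : (10 : ℝ) * q ^ 5 = ∑ _a : K, ∑ _b : K, ∑ _c : K, 10 * q ^ 2 := by
      simp only [sum_const, card_univ, nsmul_eq_mul, ← hq]
      ring
    rw [h3]
    refine (abs_sum_le_sum_abs _ _).trans (sum_le_sum fun a _ => ?_)
    rw [← sum_sub_distrib]
    refine (abs_sum_le_sum_abs _ _).trans (sum_le_sum fun b _ => ?_)
    rw [← sum_sub_distrib]
    exact (abs_sum_le_sum_abs _ _).trans (sum_le_sum fun c _ => h1 a b c)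

end

end Q282.BP
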