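import Pool.Agent.Q282.BP.Fam

/-!
# Halving of points, and the rank
-/

set_option autoImplicit false

namespace Q282.BP

open WeierstrassCurve

/-- the curve `y ^ 2 = x ^ 3 + b x ^ 2 + c x + d` over the rational numbers -/
def crv (C : ℤ × ℤ × ℤ) : Affine ℚ := { a₁ := 0, a₂ := C.1, a₃ := 0, a₄ := C.2.1, a₆ := C.2.2 }

/-- the quartic polynomial whose roots are the slopes of the tangents through the point `- (x, y)` -/
def quart {R : Type} [CommRing R] (C : R × R × R) (x y s : R) : R :=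
  s ^ 4 - (2 * C.1 + 6 * x) * s ^ 2 - 8 * y * s + (C.1 ^ 2 - 2 * C.1 * x - 3 * x ^ 2 - 4 * C.2.1)

lemma int_root (a₃ a₂ a₁ a₀ : ℤ) (s : ℚ) (h : s ^ 4 + a₃ * s ^ 3 + a₂ * s ^ 2 + a₁ * s + a₀ = 0) :
    ∃ n : ℤ, (n : ℚ) = s := by
  obtain ⟨P, hP⟩ : ∃ P : Polynomial ℤ, P = Polynomial.X ^ 4 + (Polynomial.C a₃ * Polynomial.X ^ 3 + Polynomial.C a₂ * Polynomial.X ^ 2 +
    Polynomial.C a₁ * Polynomial.X + Polynomial.C a₀) := ⟨_, rfl⟩
  have hm : P.Monic := by
    rw [hP]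
    exact Polynomial.monic_X_pow_add (lt_of_le_of_lt Polynomial.degree_cubic_le (by exact_mod_cast (by norm_num : 3 < 4)))
  have hr : Polynomial.aeval s P = 0 := by
    rw [hP]
    simp only [map_add, map_mul, map_pow, Polynomial.aeval_X, Polynomial.aeval_C]
    simp only [algebraMap_int_eq, eq_intCast]
    linarith
  obtain ⟨n, hn⟩ := isInteger_of_is_root_of_monic hm hr
  exact ⟨n, by rw [← hn]; simp⟩

/-- a rational root of the cubic polynomial is an integer -/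
lemma int_root_cub (C : ℤ × ℤ × ℤ) (x : ℚ) (h : x ^ 3 + C.1 * x ^ 2 + C.2.1 * x + C.2.2 = 0) : ∃ n : ℤ, cub C n = 0 := by
  obtain ⟨n, hn⟩ := int_root C.1 C.2.1 C.2.2 0 x (by
    push_cast
    linear_combination x * h)
  refine ⟨n, ?_⟩
  rw [← hn] at h
  unfold cub
  exact_mod_cast h

/-- if the discriminant vanishes, then there is a root -/
lemma root_of_dis (C : ℤ × ℤ × ℤ) (h : dis C = 0) : ∃ n : ℤ, cub C n = 0 := by
  obtain ⟨b, c, d⟩ := C
  unfold dis at h
  simp only at h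
  have hq : ((b : ℚ) ^ 2 * c ^ 2 - 4 * c ^ 3 - 4 * b ^ 3 * d + 18 * b * c * d - 27 * d ^ 2) = 0 := by exact_mod_cast h
  by_cases h0 : (b : ℚ) ^ 2 - 3 * c = 0
  · refine int_root_cub (b, c, d) (-(b : ℚ) / 3) ?_
    have hc : (c : ℚ) = b ^ 2 / 3 := by linarith
    show (-(b : ℚ) / 3) ^ 3 + b * (-(b : ℚ) / 3) ^ 2 + c * (-(b : ℚ) / 3) + d = 0
    rw [hc] at hq ⊢
    have h1 : ((d : ℚ) - b ^ 3 / 27) ^ 2 = 0 := by linear_combination (-1 / 27) * hq
    have h2 : (d : ℚ) - b ^ 3 / 27 = 0 := pow_eq_zero_iff (two_ne_zero) |>.1 h1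
    linear_combination h2
  · refine int_root_cub (b, c, d) ((9 * d - b * c) / (2 * (b ^ 2 - 3 * c))) ?_
    show ((9 * (d : ℚ) - b * c) / (2 * (b ^ 2 - 3 * c))) ^ 3 + b * ((9 * (d : ℚ) - b * c) / (2 * (b ^ 2 - 3 * c))) ^ 2 +
      c * ((9 * (d : ℚ) - b * c) / (2 * (b ^ 2 - 3 * c))) + d = 0
    have h2 : (2 * ((b : ℚ) ^ 2 - 3 * c)) ≠ 0 := mul_ne_zero two_ne_zero h0
    obtain ⟨D, hD⟩ : ∃ D : ℚ, D = 2 * ((b : ℚ) ^ 2 - 3 * c) := ⟨_, rfl⟩
    rw [← hD] at h2 ⊢
    have h3 : ((9 * (d : ℚ) - b * c) / D) ^ 3 + b * ((9 * (d : ℚ) - b * c) / D) ^ 2 + c * ((9 * (d : ℚ) - b * c) / D) + d =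
        ((9 * (d : ℚ) - b * c) ^ 3 + b * (9 * (d : ℚ) - b * c) ^ 2 * D + c * (9 * (d : ℚ) - b * c) * D ^ 2 + d * D ^ 3) / D ^ 3 := by
      field_simp
    rw [h3, div_eq_zero_iff]
    left
    rw [hD]
    linear_combination (-27 * (d : ℚ) + 9 * b * c - 2 * b ^ 3) * hq

lemma crv_negY (C : ℤ × ℤ × ℤ) (x y : ℚ) : (crv C).negY x y = -y := by
  unfold Affine.negY crv
  simp

lemma crv_eq (C : ℤ × ℤ × ℤ) (x y : ℚ) (h : (crv C).Nonsingular x y) : y ^ 2 = x ^ 3 + C.1 * x ^ 2 + C.2.1 * x + C.2.2 := by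
  have h1 := (Affine.equation_iff x y).1 h.1
  unfold crv at h1
  simp only at h1
  linear_combination h1

/-- no roots: no points of order two -/
lemma tors (C : ℤ × ℤ × ℤ) (hC : ∀ n : ℤ, cub C n ≠ 0) (P : (crv C).Point) (hP : P + P = 0) : P = 0 := by
  cases P with
  | zero => rfl
  | some x y h =>
    exfalso
    have h1 : Affine.Point.some x y h = - Affine.Point.some x y h := eq_neg_of_add_eq_zero_left hP
    rw [Affine.Point.neg_some] at h1
    have h2 := (Affine.Point.some.injEq ..).mp h1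
    have h3 : y = (crv C).negY x y := h2.2
    rw [crv_negY] at h3
    have h4 : y = 0 := by linarith
    have h5 := crv_eq C x y h
    rw [h4] at h5
    obtain ⟨n, hn⟩ := int_root_cub C x (by rw [← h5]; norm_num)
    exact hC n hn

/-- the slope of the tangent is a root of the quartic polynomial -/
lemma half (C : ℤ × ℤ × ℤ) (x y : ℤ) (h : (crv C).Nonsingular (x : ℚ) (y : ℚ)) (Q : (crv C).Point)
    (hQ : Q + Q = Affine.Point.some (x : ℚ) (y : ℚ) h) : ∃ s : ℤ, quart C x y s = 0 := by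
  cases Q with
  | zero =>
    exfalso
    have h1 : (Affine.Point.zero : (crv C).Point) = 0 := rfl
    rw [h1, add_zero] at hQ
    exact Affine.Point.some_ne_zero h hQ.symm
  | some X Y hXY =>
    by_cases hY : Y = (crv C).negY X Y
    · exfalso
      rw [Affine.Point.add_self_of_Y_eq hY] at hQ
      exact Affine.Point.some_ne_zero h hQ.symm
    · rw [Affine.Point.add_self_of_Y_ne hY] at hQ
      obtain ⟨hx, hy⟩ := (Affine.Point.some.injEq ..).mp hQ
      have hs := Affine.slope_of_Y_ne (W := crv C) (x₁ := X) (x₂ := X) (y₁ := Y) (y₂ := Y) rfl hY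
      obtain ⟨s, hs'⟩ : ∃ s, s = (crv C).slope X X Y Y := ⟨_, rfl⟩
      rw [← hs'] at hs hx hy
      rw [crv_negY] at hY hs
      have hY0 : Y ≠ 0 := by
        rintro rfl
        apply hY
        norm_num
      have e1 : (crv C).a₁ = 0 := rfl
      have e2 : (crv C).a₂ = C.1 := rfl
      have e3 : (crv C).a₄ = C.2.1 := rfl
      rw [e1, e2, e3] at hs
      unfold Affine.addY Affine.negAddY at hy
      rw [crv_negY, hx] at hy
      unfold Affine.addX at hx
      rw [e1, e2] at hx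
      have h1 : s * (2 * Y) = 3 * X ^ 2 + 2 * C.1 * X + C.2.1 := by
        rw [hs]
        have : Y - -Y ≠ 0 := by
          intro h0
          apply hY0
          linarith
        field_simp
        ring
      have h2 := crv_eq C X Y hXY
      have h3 : (y : ℚ) ^ 2 = x ^ 3 + C.1 * x ^ 2 + C.2.1 * x + C.2.2 := crv_eq C x y h
      -- the quartic equation
      have hq : s ^ 4 - (2 * (C.1 : ℚ) + 6 * x) * s ^ 2 - 8 * y * s + ((C.1 : ℚ) ^ 2 - 2 * C.1 * x - 3 * x ^ 2 - 4 * C.2.1) = 0 := by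
        have hX : X = (s ^ 2 - C.1 - x) / 2 := by linarith
        have hYY : Y = s * (X - x) - y := by linarith
        rw [hYY, hX] at h1
        linear_combination 4 * h1
      obtain ⟨n, hn⟩ := int_root 0 (-(2 * C.1 + 6 * x)) (-(8 * y)) (C.1 ^ 2 - 2 * C.1 * x - 3 * x ^ 2 - 4 * C.2.1) s (by
        push_cast
        linear_combination hq)
      refine ⟨n, ?_⟩
      rw [← hn] at hq
      unfold quart
      exact_mod_cast hq

end Q282.BP
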