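import Pool.Agent.Q282.BP.Mom
import Pool.Agent.Erdos456.Mertens

/-!
# The law of the partial sums over primes for almost all points of a box
-/

set_option autoImplicit false

namespace Q282.BP

open Finset
open Pool.Agent.TH894.NE (box mem_box card_box Per mean mean_mul mean_mono momentd)

/-- the primes up to `m` -/
abbrev PP (m : ℕ) : Finset ℕ := (Icc 1 m).filter Nat.Prime

/-- the partial sums -/
noncomputable def sm {d : ℕ} (g : ℕ → (Fin d → ℕ) → ℝ) (m : ℕ) (n : Fin d → ℕ) : ℝ := ∑ p ∈ PP m, g p n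

lemma sm_sub {d : ℕ} (g : ℕ → (Fin d → ℕ) → ℝ) {a b : ℕ} (hab : a ≤ b) (n : Fin d → ℕ) :
    sm g b n - sm g a n = ∑ p ∈ (Ioc a b).filter Nat.Prime, g p n := by
  unfold sm
  rw [sub_eq_iff_eq_add]
  have h : PP b = (Ioc a b).filter Nat.Prime ∪ PP a := by
    ext p
    simp only [mem_union, mem_filter, mem_Icc, mem_Ioc]
    constructor
    · rintro ⟨h1, h2⟩
      by_cases h3 : p ≤ a
      · exact Or.inr ⟨⟨h1.1, h3⟩, h2⟩
      · exact Or.inl ⟨⟨by omega, h1.2⟩, h2⟩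
    · rintro (⟨h1, h2⟩ | ⟨h1, h2⟩)
      · exact ⟨⟨h2.one_lt.le, h1.2⟩, h2⟩
      · exact ⟨⟨h1.1, h1.2.trans hab⟩, h2⟩
  rw [h, sum_union]
  rw [disjoint_left]
  intro p hp hp'
  rw [mem_filter, mem_Ioc] at hp
  rw [mem_filter, mem_Icc] at hp'
  omega

/-- the sums of the reciprocals -/
noncomputable def GG (B : ℝ) (m : ℕ) : ℝ := ∑ p ∈ PP m, B ^ 2 / p

lemma GG_mono (B : ℝ) : Monotone (GG B) := by
  intro a b hab
  unfold GG
  refine sum_le_sum_of_subset_of_nonneg ?_ fun p _ _ => by positivity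
  intro p hp
  rw [mem_filter, mem_Icc] at hp ⊢
  exact ⟨⟨hp.1.1, hp.1.2.trans hab⟩, hp.2⟩

lemma GG_sub (B : ℝ) {a b : ℕ} (hab : a ≤ b) : GG B b - GG B a = ∑ p ∈ (Ioc a b).filter Nat.Prime, B ^ 2 / (p : ℝ) :=
  sm_sub (d := 0) (fun p _ => B ^ 2 / (p : ℝ)) hab (fun _ => 0)

lemma GG_zero (B : ℝ) : GG B 0 = 0 := by
  unfold GG
  rw [sum_eq_zero]
  intro p hp
  rw [mem_filter, mem_Icc] at hp
  omega

/-- the law for the centred functions -/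
theorem law {d : ℕ} (δ A : ℝ) (hδ : 0 < δ) (hA : 0 < A) (B : ℝ) (hB : 0 < B) :
    ∃ j : ℕ, 1 ≤ j ∧ ∃ C : ℝ, 0 ≤ C ∧
    ∀ g : ℕ → (Fin d → ℕ) → ℝ, (∀ p : ℕ, p.Prime → Per p (g p)) → (∀ p : ℕ, p.Prime → mean d p (g p) = 0) →
    (∀ p : ℕ, p.Prime → ∀ n, |g p n| ≤ B / Real.sqrt p) →
    ∀ (X₀ N : ℕ) (T : ℝ), 16 ≤ X₀ → 0 < T → 2 * d * (N : ℝ) ^ (5 * j) ≤ T →
    ∀ L : Fin d → ℕ, (∀ i, T ≤ L i) → ∀ E : Finset (Fin d → ℕ), E ⊆ bx L →
      (∀ n ∈ E, ∃ X : ℕ, X₀ ≤ X ∧ X ≤ N ∧ (Real.log (Real.log X)) ^ (1 / 2 + δ) < |sm g X n|) →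
      (E.card : ℝ) ≤ C * (∏ i, (L i : ℝ)) * (Real.log (Real.log X₀)) ^ (-A) := by
  classical
  obtain ⟨M₀, hM₀⟩ := Pool.Agent.Erdos456.Mert.mertens_inv
  obtain ⟨M, hM, hM0⟩ : ∃ M : ℝ, (∀ N : ℕ, 3 ≤ N → |∑ p ∈ PP N, (1 : ℝ) / p - Real.log (Real.log N)| ≤ M) ∧ 0 ≤ M :=
    ⟨|M₀|, fun N hN => (hM₀ N hN).trans (le_abs_self _), abs_nonneg _⟩
  obtain ⟨j₀, hj₀⟩ := exists_nat_ge (A / (2 * δ))
  obtain ⟨j, hj⟩ : ∃ j : ℕ, j = j₀ + 2 := ⟨_, rfl⟩
  have hjA : A ≤ 2 * j * δ := by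
    rw [div_le_iff₀ (by positivity)] at hj₀
    rw [hj]
    push_cast
    nlinarith
  obtain ⟨A', hA'⟩ : ∃ A' : ℝ, A' = 2 * j * δ := ⟨_, rfl⟩
  have hA'0 : 0 < A' := by rw [hA']; linarith
  obtain ⟨ρ, hρ⟩ : ∃ ρ : ℝ, ρ = (2 : ℝ) ^ (-A') := ⟨_, rfl⟩
  have hρ0 : 0 < ρ := by rw [hρ]; positivity
  have hρ1 : ρ < 1 := by
    rw [hρ]
    exact Real.rpow_lt_one_of_one_lt_of_neg (by norm_num) (by linarith)
  obtain ⟨D, hD⟩ : ∃ D : ℝ, D = cmx j * (6 * (2 * j).factorial + 1) * (B ^ 2 * (2 + M)) ^ j := ⟨_, rfl⟩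
  have hcmx : 0 ≤ cmx j := by
    unfold cmx
    positivity
  have hD0 : 0 ≤ D := by
    rw [hD]
    positivity
  refine ⟨j, by omega, D * (2 ^ A' / (1 - ρ)), by
    have : 0 < 1 - ρ := by linarith
    positivity, ?_⟩
  intro g hg hg0 hgB X₀ N T hX₀ hT0 hT L hL E hE hEx
  have hL0 : ∀ i, (0 : ℝ) < L i := fun i => hT0.trans_le (hL i)
  have hP0 : 0 < ∏ i, (L i : ℝ) := prod_pos fun i _ => hL0 i
  have hll1 : ∀ X : ℕ, 16 ≤ X → 1 ≤ Real.log (Real.log X) := by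
    intro X hX
    have h1 : (16 : ℝ) ≤ X := by exact_mod_cast hX
    have h2 : Real.exp (Real.exp 1) ≤ 16 := by
      have e1 := Real.exp_one_lt_d9
      have e2 : Real.exp (Real.exp 1) ≤ Real.exp (2.7182818286) := Real.exp_le_exp.2 e1.le
      have e3 : Real.exp (2.7182818286) ≤ 16 := by
        rw [← Real.le_log_iff_exp_le (by norm_num)]
        have e4 : Real.log 16 = 4 * Real.log 2 := by
          rw [show (16 : ℝ) = 2 ^ 4 by norm_num, Real.log_pow]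
          norm_num
        have e5 := Real.log_two_gt_d9
        rw [e4]
        linarith
      exact e2.trans e3
    have h3 : Real.exp 1 ≤ Real.log X := by
      rw [Real.le_log_iff_exp_le (by linarith)]
      linarith
    rw [Real.le_log_iff_exp_le (by linarith [Real.exp_pos 1])]
    exact h3
  have hllmono : ∀ X Y : ℕ, 16 ≤ X → X ≤ Y → Real.log (Real.log X) ≤ Real.log (Real.log Y) := by
    intro X Y hX hXY
    have h1 : (16 : ℝ) ≤ X := by exact_mod_cast hX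
    have h2 : (X : ℝ) ≤ Y := by exact_mod_cast hXY
    have h3 : 0 < Real.log X := Real.log_pos (by linarith)
    exact Real.log_le_log h3 (Real.log_le_log (by linarith) h2)
  rcases E.eq_empty_or_nonempty with hEe | ⟨n₀, hn₀⟩
  · rw [hEe, card_empty, Nat.cast_zero]
    have h1 := hll1 X₀ hX₀
    have : 0 < 1 - ρ := by linarith
    positivity
  obtain ⟨X₁, hX₁, hX₁N, -⟩ := hEx n₀ hn₀
  have hN16 : 16 ≤ N := hX₀.trans (hX₁.trans hX₁N)
  obtain ⟨i₀, hi₀, hi₀'⟩ := exists_nat_pow_near (hll1 X₀ hX₀) (by norm_num : (1 : ℝ) < 2)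
  obtain ⟨I, hI, hI'⟩ := exists_nat_pow_near (hll1 N hN16) (by norm_num : (1 : ℝ) < 2)
  -- the bound of one block
  obtain ⟨K, hK⟩ : ∃ K : ℝ, K = (∏ i, (L i : ℝ)) * (6 * (2 * j).factorial + 1) := ⟨_, rfl⟩
  have hK0 : 0 ≤ K := by
    rw [hK]
    positivity
  have hmom : ∀ a b : ℕ, a ≤ b → b ≤ N → ∑ t ∈ bx L, (sm g b t - sm g a t) ^ (2 * j) ≤ K * (GG B b - GG B a) ^ j := by
    intro a b hab hbN
    rw [GG_sub B hab, sum_congr rfl fun t _ => by rw [sm_sub g hab t], hK, mul_assoc]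
    refine moment j (by omega) B hB g hg hg0 hgB ((Ioc a b).filter Nat.Prime) (fun p hp => (mem_filter.1 hp).2) N
      (fun p hp => ?_) T hT0 hT L hL
    have := (mem_Ioc.1 (mem_filter.1 hp).1).2
    omega
  have hblock : ∀ i : ℕ, (((bx L).filter fun n => ∃ m ≤ N, Real.log (Real.log m) < 2 ^ (i + 1) ∧ 16 ≤ m ∧
      ((2 : ℝ) ^ i) ^ (1 / 2 + δ) < |sm g m n|).card : ℝ) ≤ D * (∏ i, (L i : ℝ)) * ρ ^ i := by
    intro i
    obtain ⟨Ei, hEi⟩ : ∃ Ei : Finset (Fin d → ℕ), Ei = (bx L).filter fun n => ∃ m ≤ N, Real.log (Real.log m) < 2 ^ (i + 1) ∧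
      16 ≤ m ∧ ((2 : ℝ) ^ i) ^ (1 / 2 + δ) < |sm g m n| := ⟨_, rfl⟩
    rw [← hEi]
    rcases Ei.eq_empty_or_nonempty with hEe | ⟨n₁, hn₁⟩
    · rw [hEe, card_empty, Nat.cast_zero]
      positivity
    -- the largest admissible `m`
    obtain ⟨S, hS⟩ : ∃ S : Finset ℕ, S = (range (N + 1)).filter fun m : ℕ => Real.log (Real.log m) < 2 ^ (i + 1) ∧ 16 ≤ m := ⟨_, rfl⟩
    have hne : S.Nonempty := by
      rw [hEi, mem_filter] at hn₁
      obtain ⟨-, m, h1, h2, h3, -⟩ := hn₁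
      exact ⟨m, by rw [hS, mem_filter, mem_range]; exact ⟨by omega, h2, h3⟩⟩
    obtain ⟨b, hb⟩ : ∃ b, b = S.max' hne := ⟨_, rfl⟩
    have hbS : b ∈ S := hb ▸ S.max'_mem hne
    rw [hS, mem_filter, mem_range] at hbS
    have hl0 : (0 : ℝ) < ((2 : ℝ) ^ i) ^ (1 / 2 + δ) := by positivity
    have h1 := maximal_card (bx L) (fun m n => sm g m n) (GG B) (GG_mono B) j (by omega) K hK0 N hmom b (by omega)
      (((2 : ℝ) ^ i) ^ (1 / 2 + δ)) hl0 Ei (by rw [hEi]; exact filter_subset _ _) (by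
      intro n hn
      rw [hEi, mem_filter] at hn
      obtain ⟨-, m, h2, h3, h4, h5⟩ := hn
      refine ⟨m, ?_, ?_⟩
      · rw [hb]
        refine S.le_max' _ ?_
        rw [hS, mem_filter, mem_range]
        exact ⟨by omega, h3, h4⟩
      · have : sm g 0 n = 0 := by
          unfold sm
          rw [sum_eq_zero]
          intro p hp
          rw [mem_filter, mem_Icc] at hp
          omega
        show _ < |sm g m n - sm g 0 n|
        rw [this, sub_zero]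
        exact h5)
    refine h1.trans ?_
    have h2 : GG B b - GG B 0 ≤ B ^ 2 * (2 + M) * 2 ^ i := by
      rw [GG_zero, sub_zero]
      have h3 : GG B b = B ^ 2 * ∑ p ∈ PP b, (1 : ℝ) / p := by
        unfold GG
        rw [mul_sum]
        exact sum_congr rfl fun p _ => by ring
      have h4 := (abs_le.1 (hM b (by omega))).2
      have h5 : ∑ p ∈ PP b, (1 : ℝ) / p ≤ (2 + M) * 2 ^ i := by
        have h6 : (1 : ℝ) ≤ 2 ^ i := one_le_pow₀ (by norm_num)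
        have h7 : (2 : ℝ) ^ (i + 1) = 2 * 2 ^ i := by ring
        have h8 := hbS.2.1
        nlinarith
      rw [h3, mul_assoc]
      exact mul_le_mul_of_nonneg_left h5 (by positivity)
    have h3 : 0 ≤ GG B b - GG B 0 := by linarith [GG_mono B (Nat.zero_le b)]
    have h4 : (((2 : ℝ) ^ i) ^ (1 / 2 + δ)) ^ (2 * j) = (2 ^ i) ^ j * (ρ ^ i)⁻¹ := by
      have e0 : (0 : ℝ) ≤ 2 := by norm_num
      have e1 : ((2 : ℝ) ^ i) = (2 : ℝ) ^ (i : ℝ) := (Real.rpow_natCast 2 i).symm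
      rw [hρ, e1, ← Real.rpow_mul e0, ← Real.rpow_natCast, ← Real.rpow_mul e0, ← Real.rpow_natCast, ← Real.rpow_mul e0,
        ← Real.rpow_natCast, ← Real.rpow_mul e0, ← Real.rpow_neg e0, ← Real.rpow_add (by norm_num), hA']
      congr 1
      push_cast
      ring
    rw [h4, div_le_iff₀ (by positivity)]
    have h5 : (GG B b - GG B 0) ^ j ≤ (B ^ 2 * (2 + M) * 2 ^ i) ^ j := pow_le_pow_left₀ h3 h2 _
    have h6 : cmx j * K * (GG B b - GG B 0) ^ j ≤ cmx j * K * (B ^ 2 * (2 + M) * 2 ^ i) ^ j :=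
      mul_le_mul_of_nonneg_left h5 (mul_nonneg hcmx hK0)
    refine h6.trans (le_of_eq ?_)
    rw [hD, hK, mul_pow (B ^ 2 * (2 + M))]
    have : ρ ^ i ≠ 0 := by positivity
    field_simp
  -- the union
  have hcover : E ⊆ (Icc i₀ I).biUnion fun i => (bx L).filter fun n => ∃ m ≤ N, Real.log (Real.log m) < 2 ^ (i + 1) ∧ 16 ≤ m ∧
      ((2 : ℝ) ^ i) ^ (1 / 2 + δ) < |sm g m n| := by
    intro n hn
    obtain ⟨X, h1, h2, h3⟩ := hEx n hn
    obtain ⟨i, hi, hi'⟩ := exists_nat_pow_near (hll1 X (hX₀.trans h1)) (by norm_num : (1 : ℝ) < 2)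
    rw [mem_biUnion]
    refine ⟨i, ?_, ?_⟩
    · rw [mem_Icc]
      constructor
      · have h4 : (2 : ℝ) ^ i₀ < 2 ^ (i + 1) := lt_of_le_of_lt (hi₀.trans (hllmono X₀ X hX₀ h1)) hi'
        have h5 : i₀ < i + 1 := (pow_lt_pow_iff_right₀ (by norm_num : (1 : ℝ) < 2)).1 h4
        omega
      · have h4 : (2 : ℝ) ^ i < 2 ^ (I + 1) := lt_of_le_of_lt (hi.trans (hllmono X N (hX₀.trans h1) h2)) hI'
        have h5 : i < I + 1 := (pow_lt_pow_iff_right₀ (by norm_num : (1 : ℝ) < 2)).1 h4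
        omega
    · rw [mem_filter]
      refine ⟨hE hn, X, h2, hi', hX₀.trans h1, lt_of_le_of_lt ?_ h3⟩
      exact Real.rpow_le_rpow (by positivity) hi (by positivity)
  have h1 : (E.card : ℝ) ≤ ∑ i ∈ Icc i₀ I, D * (∏ i, (L i : ℝ)) * ρ ^ i := by
    have h2 := (card_le_card hcover).trans card_biUnion_le
    have h3 : (E.card : ℝ) ≤ ∑ i ∈ Icc i₀ I, (((bx L).filter fun n => ∃ m ≤ N, Real.log (Real.log m) < 2 ^ (i + 1) ∧ 16 ≤ m ∧
      ((2 : ℝ) ^ i) ^ (1 / 2 + δ) < |sm g m n|).card : ℝ) := by exact_mod_cast h2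
    exact h3.trans (sum_le_sum fun i _ => hblock i)
  have h2 : ∑ i ∈ Icc i₀ I, ρ ^ i ≤ ρ ^ i₀ / (1 - ρ) := by
    have e1 : ∑ i ∈ Icc i₀ I, ρ ^ i ≤ ∑ i ∈ Ico i₀ (I + 1), ρ ^ i := by
      refine sum_le_sum_of_subset_of_nonneg ?_ fun i _ _ => by positivity
      intro i hi
      rw [mem_Icc] at hi
      rw [mem_Ico]
      omega
    exact e1.trans (geom_sum_Ico_le_of_lt_one hρ0.le hρ1)
  have h3 : ρ ^ i₀ ≤ 2 ^ A' * (Real.log (Real.log X₀)) ^ (-A) := by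
    have hll := hll1 X₀ hX₀
    have e1 : Real.log (Real.log X₀) < 2 * 2 ^ i₀ := by
      have : (2 : ℝ) ^ (i₀ + 1) = 2 * 2 ^ i₀ := by ring
      linarith
    have e2 : (2 * 2 ^ i₀ : ℝ) ^ (-A') ≤ (Real.log (Real.log X₀)) ^ (-A') :=
      Real.rpow_le_rpow_of_nonpos (by linarith) e1.le (by linarith)
    have e3 : (Real.log (Real.log X₀)) ^ (-A') ≤ (Real.log (Real.log X₀)) ^ (-A) :=
      Real.rpow_le_rpow_of_exponent_le hll (by rw [hA']; linarith)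
    have e4 : ρ ^ i₀ = 2 ^ A' * (2 * 2 ^ i₀ : ℝ) ^ (-A') := by
      have e0 : (0 : ℝ) ≤ 2 := by norm_num
      rw [Real.mul_rpow e0 (by positivity), ← mul_assoc, ← Real.rpow_add (by norm_num), add_neg_cancel, Real.rpow_zero, one_mul,
        hρ, ← Real.rpow_natCast, ← Real.rpow_natCast, ← Real.rpow_mul e0, ← Real.rpow_mul e0, mul_comm]
    rw [e4]
    exact mul_le_mul_of_nonneg_left (e2.trans e3) (by positivity)
  have h1ρ : 0 < 1 - ρ := by linarith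
  calc (E.card : ℝ) ≤ ∑ i ∈ Icc i₀ I, D * (∏ i, (L i : ℝ)) * ρ ^ i := h1
    _ = D * (∏ i, (L i : ℝ)) * ∑ i ∈ Icc i₀ I, ρ ^ i := by rw [mul_sum]
    _ ≤ D * (∏ i, (L i : ℝ)) * (2 ^ A' * (Real.log (Real.log X₀)) ^ (-A) / (1 - ρ)) := by
        refine mul_le_mul_of_nonneg_left (h2.trans (div_le_div_of_nonneg_right h3 h1ρ.le)) (by positivity)
    _ = _ := by ring

end Q282.BP
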