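import Mathlib

/-!
# A maximal inequality for moments of even order
-/

set_option autoImplicit false

namespace Q282.BP

open Finset

/-- the maximum of the increments `|f l - f a|`, `a ≤ l ≤ b` -/
noncomputable def mx (f : ℕ → ℝ) (a b : ℕ) : ℝ :=
  (insert a (Icc a b)).sup' ⟨a, mem_insert_self _ _⟩ fun l => |f l - f a|

lemma mx_nonneg (f : ℕ → ℝ) (a b : ℕ) : 0 ≤ mx f a b := by
  unfold mx
  refine le_trans (abs_nonneg (f a - f a)) (le_sup' (fun l => |f l - f a|) (mem_insert_self _ _))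

lemma le_mx (f : ℕ → ℝ) {a b l : ℕ} (h1 : a ≤ l) (h2 : l ≤ b) : |f l - f a| ≤ mx f a b := by
  unfold mx
  exact le_sup' (fun l => |f l - f a|) (mem_insert_of_mem (mem_Icc.2 ⟨h1, h2⟩))

lemma mx_self (f : ℕ → ℝ) (a : ℕ) : mx f a a = 0 := by
  refine le_antisymm ?_ (mx_nonneg _ _ _)
  unfold mx
  refine sup'_le _ _ fun l hl => ?_
  rw [mem_insert, mem_Icc] at hl
  have : l = a := by omega
  rw [this, sub_self, abs_zero]

lemma mx_split (f : ℕ → ℝ) {a m b : ℕ} (h1 : a ≤ m) (_h2 : m + 1 ≤ b) :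
    mx f a b ≤ |f (m + 1) - f a| + max (mx f a m) (mx f (m + 1) b) := by
  unfold mx
  refine sup'_le _ _ fun l hl => ?_
  rw [mem_insert, mem_Icc] at hl
  rcases le_or_gt l m with h | h
  · have h3 : |f l - f a| ≤ mx f a m := le_mx f (by omega) h
    have h4 := le_max_left (mx f a m) (mx f (m + 1) b)
    have h5 := abs_nonneg (f (m + 1) - f a)
    show |f l - f a| ≤ |f (m + 1) - f a| + max (mx f a m) (mx f (m + 1) b)
    linarith
  · have h3 : |f l - f (m + 1)| ≤ mx f (m + 1) b := le_mx f (by omega) (by omega)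
    have h4 := le_max_right (mx f a m) (mx f (m + 1) b)
    have h5 : |f l - f a| ≤ |f (m + 1) - f a| + |f l - f (m + 1)| := by
      have := abs_add_le (f (m + 1) - f a) (f l - f (m + 1))
      rwa [show f (m + 1) - f a + (f l - f (m + 1)) = f l - f a by ring] at this
    show |f l - f a| ≤ |f (m + 1) - f a| + max (mx f a m) (mx f (m + 1) b)
    linarith

/-- convexity -/
lemma pow_add_le (n : ℕ) {l x y : ℝ} (hl : 0 < l) (hx : 0 ≤ x) (hy : 0 ≤ y) :
    (x + y) ^ (n + 1) ≤ (1 + 1 / l) ^ n * x ^ (n + 1) + (1 + l) ^ n * y ^ (n + 1) := by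
  have hconv : ConvexOn ℝ (Set.Ici (0 : ℝ)) fun x : ℝ => x ^ (n + 1) := convexOn_pow (n + 1)
  have hx' : (1 + 1 / l) * x ∈ Set.Ici (0 : ℝ) := by
    rw [Set.mem_Ici]
    positivity
  have hy' : (1 + l) * y ∈ Set.Ici (0 : ℝ) := by
    rw [Set.mem_Ici]
    positivity
  have h := hconv.2 hx' hy' (show 0 ≤ l / (1 + l) by positivity) (show 0 ≤ 1 / (1 + l) by positivity) (by
    field_simp
    ring)
  simp only [smul_eq_mul] at h
  have e1 : l / (1 + l) * ((1 + 1 / l) * x) + 1 / (1 + l) * ((1 + l) * y) = x + y := by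
    field_simp
    ring
  have e2 : l / (1 + l) * ((1 + 1 / l) * x) ^ (n + 1) = (1 + 1 / l) ^ n * x ^ (n + 1) := by
    rw [mul_pow, pow_succ (1 + 1 / l) n]
    field_simp
    ring
  have e3 : 1 / (1 + l) * ((1 + l) * y) ^ (n + 1) = (1 + l) ^ n * y ^ (n + 1) := by
    rw [mul_pow, pow_succ (1 + l) n]
    field_simp
  rw [e1, e2, e3] at h
  exact h

/-- the constant -/
lemma beta_le (j : ℕ) (hj : 1 ≤ j) : (1 + 1 / (6 * (j : ℝ))) ^ (2 * j - 1) ≤ 7 / 5 := by
  have hj0 : (0 : ℝ) < j := by exact_mod_cast hj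
  have h1 : (1 + 1 / (6 * (j : ℝ))) ^ (2 * j - 1) ≤ (1 + 1 / (6 * (j : ℝ))) ^ (2 * j) := by
    apply pow_le_pow_right₀ _ (by omega)
    have : (0 : ℝ) < 1 / (6 * (j : ℝ)) := by positivity
    linarith
  have h2 : (1 + 1 / (6 * (j : ℝ))) ^ (2 * j) ≤ Real.exp (1 / 3) := by
    calc (1 + 1 / (6 * (j : ℝ))) ^ (2 * j) ≤ (Real.exp (1 / (6 * (j : ℝ)))) ^ (2 * j) := by
          refine pow_le_pow_left₀ (by positivity) ?_ _
          have := Real.add_one_le_exp (1 / (6 * (j : ℝ)))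
          linarith
      _ = Real.exp (1 / 3) := by
          rw [← Real.exp_nat_mul]
          congr 1
          push_cast
          field_simp
          norm_num
  have h3 : Real.exp (1 / 3) ≤ 7 / 5 := by
    have h4 : (Real.exp (1 / 3)) ^ 3 = Real.exp 1 := by
      rw [← Real.exp_nat_mul]
      norm_num
    have h5 := Real.exp_one_lt_d9
    by_contra hcon
    push Not at hcon
    have h6 : (7 / 5 : ℝ) ^ 3 < (Real.exp (1 / 3)) ^ 3 := pow_lt_pow_left₀ hcon (by norm_num) (by norm_num)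
    rw [h4] at h6
    norm_num at h6
    linarith
  linarith

/-- the constant of the maximal inequality -/
noncomputable def cmx (j : ℕ) : ℝ := 4 * (1 + 6 * (j : ℝ)) ^ (2 * j - 1)

/-- **The maximal inequality.** -/
theorem maximal {α : Type*} (B : Finset α) (s : ℕ → α → ℝ) (G : ℕ → ℝ) (hG : Monotone G) (j : ℕ) (hj : 2 ≤ j)
    (K : ℝ) (hK : 0 ≤ K) (N : ℕ)
    (h : ∀ a b : ℕ, a ≤ b → b ≤ N → ∑ t ∈ B, (s b t - s a t) ^ (2 * j) ≤ K * (G b - G a) ^ j) :
    ∀ n a b : ℕ, b - a ≤ n → a ≤ b → b ≤ N →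
      ∑ t ∈ B, (mx (fun l => s l t) a b) ^ (2 * j) ≤ cmx j * K * (G b - G a) ^ j := by
  have hα : (1 : ℝ) ≤ (1 + 6 * (j : ℝ)) ^ (2 * j - 1) := one_le_pow₀ (by
    have : (0 : ℝ) ≤ j := Nat.cast_nonneg j
    linarith)
  have hc0 : 0 ≤ cmx j := by
    unfold cmx
    positivity
  intro n
  induction n with
  | zero =>
    intro a b h1 h2 h3
    have hab : a = b := by omega
    subst hab
    simp only [mx_self]
    rw [sub_self, sum_eq_zero (fun t _ => zero_pow (by omega)), zero_pow (by omega), mul_zero]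
  | succ n ih =>
    intro a b h1 h2 h3
    rcases Nat.eq_or_lt_of_le h2 with hab | hab
    · subst hab
      simp only [mx_self]
      rw [sub_self, sum_eq_zero (fun t _ => zero_pow (by omega)), zero_pow (by omega), mul_zero]
    obtain ⟨D, hD⟩ : ∃ D : ℝ, D = G b - G a := ⟨_, rfl⟩
    have hD0 : 0 ≤ D := by
      rw [hD]
      linarith [hG h2]
    -- the point of division
    obtain ⟨m, hma, hmb, hm1, hm2⟩ : ∃ m : ℕ, a ≤ m ∧ m + 1 ≤ b ∧ G m - G a ≤ D / 2 ∧ G b - G (m + 1) ≤ D / 2 := by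
      classical
      obtain ⟨S, hS⟩ : ∃ S : Finset ℕ, S = (Ico a b).filter fun m => G m - G a ≤ D / 2 := ⟨_, rfl⟩
      have hne : S.Nonempty := by
        refine ⟨a, ?_⟩
        rw [hS, mem_filter, mem_Ico]
        refine ⟨⟨le_rfl, hab⟩, ?_⟩
        rw [sub_self]
        positivity
      have hmem := S.max'_mem hne
      obtain ⟨m, hm⟩ : ∃ m, m = S.max' hne := ⟨_, rfl⟩
      rw [← hm] at hmem
      have hmem' := hmem
      rw [hS, mem_filter, mem_Ico] at hmem
      refine ⟨m, hmem.1.1, hmem.1.2, hmem.2, ?_⟩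
      by_cases hlast : m + 1 = b
      · rw [hlast, sub_self]
        positivity
      · by_contra hcon
        have h4 : G (m + 1) - G a ≤ D / 2 := by
          push Not at hcon
          rw [hD] at hcon ⊢
          linarith
        have h5 : m + 1 ∈ S := by
          rw [hS, mem_filter, mem_Ico]
          exact ⟨⟨by omega, by omega⟩, h4⟩
        have h6 := S.le_max' _ h5
        rw [← hm] at h6
        omega
    have hpt : ∀ t, (mx (fun l => s l t) a b) ^ (2 * j) ≤
        (1 + 6 * (j : ℝ)) ^ (2 * j - 1) * (s (m + 1) t - s a t) ^ (2 * j) +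
          7 / 5 * ((mx (fun l => s l t) a m) ^ (2 * j) + (mx (fun l => s l t) (m + 1) b) ^ (2 * j)) := by
      intro t
      have h4 := mx_split (fun l => s l t) hma hmb
      have hM0 : 0 ≤ max (mx (fun l => s l t) a m) (mx (fun l => s l t) (m + 1) b) :=
        (mx_nonneg _ _ _).trans (le_max_left _ _)
      have h5 := pow_le_pow_left₀ (mx_nonneg (fun l => s l t) a b) h4 (2 * j)
      refine h5.trans ?_
      have hj0 : (0 : ℝ) < j := by exact_mod_cast (by omega : 0 < j)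
      have h6 := pow_add_le (2 * j - 1) (l := 1 / (6 * (j : ℝ))) (by positivity) (abs_nonneg (s (m + 1) t - s a t)) hM0
      rw [Nat.sub_add_cancel (by omega : 1 ≤ 2 * j), one_div_one_div] at h6
      refine h6.trans ?_
      have h7 : |s (m + 1) t - s a t| ^ (2 * j) = (s (m + 1) t - s a t) ^ (2 * j) := (even_two_mul j).pow_abs _
      rw [h7]
      have h8 : (max (mx (fun l => s l t) a m) (mx (fun l => s l t) (m + 1) b)) ^ (2 * j) ≤
          (mx (fun l => s l t) a m) ^ (2 * j) + (mx (fun l => s l t) (m + 1) b) ^ (2 * j) := by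
        have e1 : 0 ≤ (mx (fun l => s l t) a m) ^ (2 * j) := pow_nonneg (mx_nonneg _ _ _) _
        have e2 : 0 ≤ (mx (fun l => s l t) (m + 1) b) ^ (2 * j) := pow_nonneg (mx_nonneg _ _ _) _
        rcases max_cases (mx (fun l => s l t) a m) (mx (fun l => s l t) (m + 1) b) with h | h
        · rw [h.1]
          linarith
        · rw [h.1]
          linarith
      have h9 := beta_le j (by omega)
      have h10 : (1 + 1 / (6 * (j : ℝ))) ^ (2 * j - 1) *
          (max (mx (fun l => s l t) a m) (mx (fun l => s l t) (m + 1) b)) ^ (2 * j) ≤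
          7 / 5 * ((mx (fun l => s l t) a m) ^ (2 * j) + (mx (fun l => s l t) (m + 1) b) ^ (2 * j)) :=
        mul_le_mul h9 h8 (pow_nonneg hM0 _) (by norm_num)
      linarith
    refine (sum_le_sum fun t _ => hpt t).trans ?_
    rw [sum_add_distrib, ← mul_sum, ← mul_sum, sum_add_distrib]
    have h4 := h a (m + 1) (by omega) (by omega)
    have h5 := ih a m (by omega) hma (by omega)
    have h6 := ih (m + 1) b (by omega) hmb h3
    have hDj : (0 : ℝ) ≤ D ^ j := by positivity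
    have h7 : (G (m + 1) - G a) ^ j ≤ D ^ j := by
      refine pow_le_pow_left₀ (by linarith [hG (by omega : a ≤ m + 1)]) ?_ _
      rw [hD]
      linarith [hG hmb]
    have hhalf : (D / 2) ^ j ≤ D ^ j / 4 := by
      rw [div_pow]
      have : (4 : ℝ) ≤ 2 ^ j := by
        calc (4 : ℝ) = 2 ^ 2 := by norm_num
          _ ≤ 2 ^ j := pow_le_pow_right₀ (by norm_num) hj
      exact div_le_div_of_nonneg_left hDj (by norm_num) this
    have h8 : (G m - G a) ^ j ≤ D ^ j / 4 :=
      (pow_le_pow_left₀ (by linarith [hG hma]) hm1 _).trans hhalf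
    have h9 : (G b - G (m + 1)) ^ j ≤ D ^ j / 4 :=
      (pow_le_pow_left₀ (by linarith [hG hmb]) hm2 _).trans hhalf
    have hcK : 0 ≤ cmx j * K := mul_nonneg hc0 hK
    have h10 : ∑ t ∈ B, (mx (fun l => s l t) a m) ^ (2 * j) + ∑ t ∈ B, (mx (fun l => s l t) (m + 1) b) ^ (2 * j) ≤
        cmx j * K * (D ^ j / 2) := by
      have e1 := mul_le_mul_of_nonneg_left h8 hcK
      have e2 := mul_le_mul_of_nonneg_left h9 hcK
      linarith
    have h11 : ∑ t ∈ B, (s (m + 1) t - s a t) ^ (2 * j) ≤ K * D ^ j :=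
      h4.trans (mul_le_mul_of_nonneg_left h7 hK)
    have h12 := mul_le_mul_of_nonneg_left h11 (zero_le_one.trans hα)
    have h13 := mul_le_mul_of_nonneg_left h10 (by norm_num : (0 : ℝ) ≤ 7 / 5)
    rw [← hD]
    have h14 : (1 + 6 * (j : ℝ)) ^ (2 * j - 1) = cmx j / 4 := by
      unfold cmx
      ring
    rw [h14] at h12 ⊢
    have h15 : 0 ≤ cmx j * K * D ^ j := mul_nonneg hcK hDj
    linarith

/-- Chebyshev's inequality for the maximum -/
theorem maximal_card {α : Type*} (B : Finset α) (s : ℕ → α → ℝ) (G : ℕ → ℝ) (hG : Monotone G) (j : ℕ) (hj : 2 ≤ j)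
    (K : ℝ) (hK : 0 ≤ K) (N : ℕ)
    (h : ∀ a b : ℕ, a ≤ b → b ≤ N → ∑ t ∈ B, (s b t - s a t) ^ (2 * j) ≤ K * (G b - G a) ^ j)
    (b : ℕ) (hb : b ≤ N) (l : ℝ) (hl : 0 < l) (E : Finset α) (hE : E ⊆ B)
    (hE' : ∀ t ∈ E, ∃ m ≤ b, l < |s m t - s 0 t|) :
    (E.card : ℝ) ≤ cmx j * K * (G b - G 0) ^ j / l ^ (2 * j) := by
  have h1 := maximal B s G hG j hj K hK N h b 0 b (by omega) (Nat.zero_le _) hb
  rw [le_div_iff₀ (by positivity)]
  refine le_trans ?_ h1
  calc (E.card : ℝ) * l ^ (2 * j) = ∑ t ∈ E, l ^ (2 * j) := by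
        rw [sum_const, nsmul_eq_mul]
    _ ≤ ∑ t ∈ E, (mx (fun l => s l t) 0 b) ^ (2 * j) := by
        refine sum_le_sum fun t ht => pow_le_pow_left₀ hl.le ?_ _
        obtain ⟨m, hm, hlt⟩ := hE' t ht
        exact hlt.le.trans (le_mx (fun l => s l t) (Nat.zero_le _) hm)
    _ ≤ _ := sum_le_sum_of_subset_of_nonneg hE fun t _ _ => pow_nonneg (mx_nonneg _ _ _) _

end Q282.BP
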