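import Pool.Agent.Q282.BP.Grp

/-!
# The rank of the curves with marked points
-/

set_option autoImplicit false

namespace Q282.BP

open WeierstrassCurve

section

variable {M : Type} [AddCommGroup M]

lemma indep2 (h2 : ∀ T : M, T + T = 0 → T = 0) (P Q : M) (hP : ∀ R, R + R ≠ P) (hQ : ∀ R, R + R ≠ Q)
    (hPQ : ∀ R, R + R ≠ P + Q) : ∀ k : ℕ, ∀ m n : ℤ, m.natAbs + n.natAbs ≤ k → m • P + n • Q = 0 → m = 0 ∧ n = 0 := by
  intro k
  induction k with
  | zero =>
    intro m n hk _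
    omega
  | succ k ih =>
    intro m n hk h
    rcases Int.even_or_odd' m with ⟨a, ha | ha⟩ <;> rcases Int.even_or_odd' n with ⟨b, hb | hb⟩
    · have h1 : (a • P + b • Q) + (a • P + b • Q) = 0 := by
        rw [← h, ha, hb]
        module
      have h3 := h2 _ h1
      by_cases h0 : a.natAbs + b.natAbs = 0
      · omega
      · have := ih a b (by omega) h3
        omega
    · exfalso
      apply hQ (-(a • P + b • Q))
      have h3 : Q = m • P + n • Q - (m • P + (n - 1) • Q) := by module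
      rw [h] at h3
      conv_rhs => rw [h3]
      rw [ha, hb]
      module
    · exfalso
      apply hP (-(a • P + b • Q))
      have h3 : P = m • P + n • Q - ((m - 1) • P + n • Q) := by module
      rw [h] at h3
      conv_rhs => rw [h3]
      rw [ha, hb]
      module
    · exfalso
      apply hPQ (-(a • P + b • Q))
      have h3 : P + Q = m • P + n • Q - ((m - 1) • P + (n - 1) • Q) := by module
      rw [h] at h3
      conv_rhs => rw [h3]
      rw [ha, hb]
      module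

lemma rank2 (h2 : ∀ T : M, T + T = 0 → T = 0) (P Q : M) (hP : ∀ R, R + R ≠ P) (hQ : ∀ R, R + R ≠ Q)
    (hPQ : ∀ R, R + R ≠ P + Q) : ((2 : ℕ) : Cardinal) ≤ Module.rank ℤ M := by
  have h1 : LinearIndependent ℤ ![P, Q] := by
    rw [LinearIndependent.pair_iff]
    intro m n h
    exact indep2 h2 P Q hP hQ hPQ _ m n le_rfl h
  have := h1.cardinal_le_rank
  simpa using this

lemma rank1 (h2 : ∀ T : M, T + T = 0 → T = 0) (P : M) (hP : ∀ R, R + R ≠ P) : ((1 : ℕ) : Cardinal) ≤ Module.rank ℤ M := by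
  have h0 : ∀ k : ℕ, ∀ m : ℤ, m.natAbs ≤ k → m • P = 0 → m = 0 := by
    intro k
    induction k with
    | zero =>
      intro m hk _
      omega
    | succ k ih =>
      intro m hk h
      rcases Int.even_or_odd' m with ⟨a, ha | ha⟩
      · have h1 : a • P + a • P = 0 := by
          rw [← h, ha]
          module
        have h3 := h2 _ h1
        by_cases h0 : a.natAbs = 0
        · omega
        · have := ih a (by omega) h3
          omega
      · exfalso
        apply hP (-(a • P))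
        have h3 : P = m • P - (m - 1) • P := by module
        rw [h] at h3
        conv_rhs => rw [h3]
        rw [ha]
        module
  have h1 : LinearIndependent ℤ ![P] := by
    rw [Fintype.linearIndependent_iff]
    intro g hg i
    have h3 : g 0 • P = 0 := by simpa using hg
    have h4 := h0 _ (g 0) le_rfl h3
    rw [Subsingleton.elim i 0]
    exact h4
  have := h1.cardinal_le_rank
  simpa using this

end

lemma crv_disc (C : ℤ × ℤ × ℤ) : (crv C).Δ = 16 * (dis C : ℤ) := by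
  unfold WeierstrassCurve.Δ WeierstrassCurve.b₂ WeierstrassCurve.b₄ WeierstrassCurve.b₆ WeierstrassCurve.b₈ crv dis
  push_cast
  ring

lemma crv_ns (C : ℤ × ℤ × ℤ) (hC : dis C ≠ 0) (x y : ℤ) (h : y ^ 2 = cub C x) : (crv C).Nonsingular (x : ℚ) (y : ℚ) := by
  rw [← Affine.equation_iff_nonsingular_of_Δ_ne_zero (W := crv C) (by
    show (crv C).Δ ≠ 0
    rw [crv_disc]
    exact mul_ne_zero (by norm_num) (by exact_mod_cast hC)), Affine.equation_iff]
  have h1 : (y : ℚ) ^ 2 = x ^ 3 + C.1 * x ^ 2 + C.2.1 * x + C.2.2 := by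
    unfold cub at h
    exact_mod_cast h
  unfold crv
  linear_combination h1

lemma quart_neg {R : Type} [CommRing R] (C : R × R × R) (x y s : R) : quart C x (-y) s = quart C x y (-s) := by
  unfold quart
  ring

/-- one marked point -/
theorem rank_one (t : Fin 4 → ℤ) (h0 : ∀ n : ℤ, cub (fam 1 t) n ≠ 0) (h1 : ∀ n : ℤ, quart (fam 1 t) (t 0) (t 1) n ≠ 0) :
    ((1 : ℕ) : Cardinal) ≤ Module.rank ℤ (crv (fam 1 t)).Point := by
  have hd : dis (fam 1 t) ≠ 0 := fun h => by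
    obtain ⟨n, hn⟩ := root_of_dis _ h
    exact h0 n hn
  have hns := crv_ns (fam 1 t) hd (t 0) (t 1) (by
    show t 1 ^ 2 = t 0 ^ 3 + (t 2 - t 0) * t 0 ^ 2 + (t 3 - t 0 * t 2) * t 0 + (t 1 ^ 2 - t 0 * t 3)
    ring)
  refine rank1 (tors _ h0) (Affine.Point.some _ _ hns) fun R hR => ?_
  obtain ⟨n, hn⟩ := half _ _ _ hns R hR
  exact h1 n hn

/-- two marked points -/
theorem rank_two (t : Fin 5 → ℤ) (h0 : ∀ n : ℤ, cub (fam 2 t) n ≠ 0)
    (h1 : ∀ n : ℤ, quart (fam 2 t) (t 0) (t 3 * t 0 + t 4) n ≠ 0)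
    (h2 : ∀ n : ℤ, quart (fam 2 t) (t 1) (t 3 * t 1 + t 4) n ≠ 0)
    (h3 : ∀ n : ℤ, quart (fam 2 t) (t 2) (t 3 * t 2 + t 4) n ≠ 0) :
    ((2 : ℕ) : Cardinal) ≤ Module.rank ℤ (crv (fam 2 t)).Point := by
  have hd : dis (fam 2 t) ≠ 0 := fun h => by
    obtain ⟨n, hn⟩ := root_of_dis _ h
    exact h0 n hn
  have hcub : ∀ x : ℤ, cub (fam 2 t) x = (x - t 0) * (x - t 1) * (x - t 2) + (t 3 * x + t 4) ^ 2 := by
    intro x
    show x ^ 3 + (t 3 ^ 2 - (t 0 + t 1 + t 2)) * x ^ 2 + (t 0 * t 1 + t 0 * t 2 + t 1 * t 2 + 2 * t 3 * t 4) * x +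
      (t 4 ^ 2 - t 0 * t 1 * t 2) = _
    ring
  have hns0 := crv_ns (fam 2 t) hd (t 0) (t 3 * t 0 + t 4) (by
    rw [hcub]
    ring)
  have hns1 := crv_ns (fam 2 t) hd (t 1) (t 3 * t 1 + t 4) (by
    rw [hcub]
    ring)
  have hns2 := crv_ns (fam 2 t) hd (t 2) (-(t 3 * t 2 + t 4)) (by
    rw [hcub]
    ring)
  -- the abscissas are different
  have hne : (t 0 : ℚ) ≠ t 1 := by
    intro h
    have h4 : t 0 = t 1 := by exact_mod_cast h
    apply h3 (-t 3)
    show (-t 3) ^ 4 - (2 * (t 3 ^ 2 - (t 0 + t 1 + t 2)) + 6 * t 2) * (-t 3) ^ 2 - 8 * (t 3 * t 2 + t 4) * (-t 3) +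
      ((t 3 ^ 2 - (t 0 + t 1 + t 2)) ^ 2 - 2 * (t 3 ^ 2 - (t 0 + t 1 + t 2)) * t 2 - 3 * t 2 ^ 2 -
        4 * (t 0 * t 1 + t 0 * t 2 + t 1 * t 2 + 2 * t 3 * t 4)) = 0
    rw [h4]
    ring
  have hsum : (Affine.Point.some _ _ hns0 : (crv (fam 2 t)).Point) + Affine.Point.some _ _ hns1 = Affine.Point.some _ _ hns2 := by
    rw [Affine.Point.add_of_X_ne hne]
    have hsl : (crv (fam 2 t)).slope (t 0 : ℚ) (t 1 : ℚ) ((t 3 * t 0 + t 4 : ℤ) : ℚ) ((t 3 * t 1 + t 4 : ℤ) : ℚ) = t 3 := by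
      rw [Affine.slope_of_X_ne hne, div_eq_iff (sub_ne_zero.2 hne)]
      push_cast
      ring
    have hx : (crv (fam 2 t)).addX (t 0 : ℚ) (t 1 : ℚ) (t 3 : ℚ) = t 2 := by
      unfold Affine.addX
      have e1 : (crv (fam 2 t)).a₁ = 0 := rfl
      have e2 : (crv (fam 2 t)).a₂ = ((t 3 ^ 2 - (t 0 + t 1 + t 2) : ℤ) : ℚ) := rfl
      rw [e1, e2]
      push_cast
      ring
    have hy : (crv (fam 2 t)).addY (t 0 : ℚ) (t 1 : ℚ) ((t 3 * t 0 + t 4 : ℤ) : ℚ) (t 3 : ℚ) = ((-(t 3 * t 2 + t 4) : ℤ) : ℚ) := by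
      unfold Affine.addY Affine.negAddY
      rw [crv_negY, hx]
      push_cast
      ring
    rw [Affine.Point.some.injEq]
    refine ⟨?_, ?_⟩
    · rw [hsl, hx]
    · rw [hsl, hy]
  refine rank2 (tors _ h0) (Affine.Point.some _ _ hns0) (Affine.Point.some _ _ hns1) ?_ ?_ ?_
  · intro R hR
    obtain ⟨n, hn⟩ := half _ _ _ hns0 R hR
    exact h1 n hn
  · intro R hR
    obtain ⟨n, hn⟩ := half _ _ _ hns1 R hR
    exact h2 n hn
  · intro R hR
    rw [hsum] at hR
    obtain ⟨n, hn⟩ := half _ _ _ hns2 R hR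
    rw [quart_neg] at hn
    exact h3 (-n) hn

end Q282.BP
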