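import Pool.Agent.Q282.BP.Mom

/-!
# A sieve with few primes
-/

set_option autoImplicit false

namespace Q282.BP

open Finset Filter
open Pool.Agent.TH894.NE (box mem_box card_box Per mean mean_prod mean_mono)

lemma sieve_room (d : ℕ) (A : ℝ) : ∀ᶠ z : ℝ in atTop, z ^ 2 + 4 * z - Real.exp z ≤ -z ∧ (d : ℝ) * Real.exp (-z) ≤ 1 ∧
    16 / 15 * Real.exp (-(Real.log (16 / 15)) * z) + 2 * (d * Real.exp (-z)) ≤ z ^ (-A) := by
  have hc : 0 < Real.log (16 / 15) := Real.log_pos (by norm_num)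
  have h1 : ∀ᶠ z : ℝ in atTop, z ^ 2 + 4 * z - Real.exp z ≤ -z := by
    have h2 := (Real.tendsto_pow_mul_exp_neg_atTop_nhds_zero 2).eventually_lt_const (u := 1 / 2) (by norm_num)
    have h3 := (Real.tendsto_pow_mul_exp_neg_atTop_nhds_zero 1).eventually_lt_const (u := 1 / 10) (by norm_num)
    filter_upwards [h2, h3] with z h2 h3
    have h4 : 0 < Real.exp z := Real.exp_pos z
    rw [Real.exp_neg, ← div_eq_mul_inv, div_lt_iff₀ h4] at h2 h3
    rw [pow_one] at h3
    linarith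
  have h2 : ∀ᶠ z : ℝ in atTop, (d : ℝ) * Real.exp (-z) ≤ 1 := by
    have h3 : Tendsto (fun z : ℝ => (d : ℝ) * Real.exp (-z)) atTop (nhds (d * 0)) :=
      (Real.tendsto_exp_neg_atTop_nhds_zero).const_mul _
    rw [mul_zero] at h3
    filter_upwards [h3.eventually_lt_const (u := 1) (by norm_num)] with z hz
    exact hz.le
  have h3 : ∀ᶠ z : ℝ in atTop, 16 / 15 * Real.exp (-(Real.log (16 / 15)) * z) + 2 * (d * Real.exp (-z)) ≤ z ^ (-A) := by
    have h4 := tendsto_rpow_mul_exp_neg_mul_atTop_nhds_zero A (Real.log (16 / 15)) hc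
    have h5 := tendsto_rpow_mul_exp_neg_mul_atTop_nhds_zero A 1 zero_lt_one
    have h6 : Tendsto (fun z : ℝ => 16 / 15 * (z ^ A * Real.exp (-(Real.log (16 / 15)) * z)) +
        2 * d * (z ^ A * Real.exp (-1 * z))) atTop (nhds (16 / 15 * 0 + 2 * d * 0)) :=
      (h4.const_mul _).add (h5.const_mul _)
    rw [mul_zero, mul_zero, add_zero] at h6
    filter_upwards [h6.eventually_lt_const (u := 1) (by norm_num), eventually_gt_atTop 0] with z hz hz0
    have h7 : 0 < z ^ A := Real.rpow_pos_of_pos hz0 A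
    rw [Real.rpow_neg hz0.le, ← one_div, le_div_iff₀ h7]
    rw [neg_one_mul] at hz
    linarith
  filter_upwards [h1, h2, h3] with z h1 h2 h3
  exact ⟨h1, h2, h3⟩

/-- primes in dyadic intervals -/
lemma dyadic_primes : ∃ π : ℕ → ℕ, (∀ j, (π j).Prime) ∧ (∀ j, 2 ^ (j + 3) < π j) ∧ ∀ j, π j ≤ 2 ^ (j + 4) := by
  have h : ∀ j : ℕ, ∃ p : ℕ, p.Prime ∧ 2 ^ (j + 3) < p ∧ p ≤ 2 * 2 ^ (j + 3) :=
    fun j => Nat.exists_prime_lt_and_le_two_mul _ (by positivity)
  choose π hπ using h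
  refine ⟨π, fun j => (hπ j).1, fun j => (hπ j).2.1, fun j => ?_⟩
  have := (hπ j).2.2
  rw [pow_succ 2 (j + 3)]
  linarith

/-- a sieve with few primes -/
theorem sieve (d : ℕ) (A : ℝ) (hA : 0 < A) : ∃ K : ℝ, 0 ≤ K ∧ ∀ (P : ℕ → (Fin d → ℕ) → Prop) [∀ p n, Decidable (P p n)],
    (∀ p : ℕ, p.Prime → 7 ≤ p → ∀ n, P p n ↔ P p (fun i => n i % p)) →
    (∀ p : ℕ, p.Prime → 7 ≤ p → mean d p (fun n => if P p n then 1 else 0) ≤ 15 / 16) →
    ∀ (T : ℝ) (X₀ : ℕ), 16 ≤ X₀ → (X₀ : ℝ) ≤ T → ∀ L : Fin d → ℕ, (∀ i, T ≤ L i) → ∀ E : Finset (Fin d → ℕ), E ⊆ bx L →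
    (∀ n ∈ E, ∀ p : ℕ, p.Prime → 7 ≤ p → P p n) →
    (E.card : ℝ) ≤ K * (∏ i, (L i : ℝ)) * (Real.log (Real.log X₀)) ^ (-A) := by
  classical
  obtain ⟨z₀, hz₀⟩ := eventually_atTop.1 ((sieve_room d A).and (eventually_ge_atTop 1))
  obtain ⟨π, hπ1, hπ2, hπ3⟩ := dyadic_primes
  have hz₀1 : 1 ≤ z₀ := (hz₀ z₀ le_rfl).2
  refine ⟨z₀ ^ A, by positivity, ?_⟩
  intro P _ hper hmean T X₀ hX₀ hXT L hL E hE hEP
  have hX₀' : (16 : ℝ) ≤ X₀ := by exact_mod_cast hX₀
  have hT0 : 0 < T := by linarith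
  have hL0 : ∀ i, (0 : ℝ) < L i := fun i => hT0.trans_le (hL i)
  have hP0 : 0 < ∏ i, (L i : ℝ) := prod_pos fun i _ => hL0 i
  have hexp : Real.exp 1 < 3 := Real.exp_one_lt_three
  have hlog1 : 1 < Real.log X₀ := by
    rw [Real.lt_log_iff_exp_lt (by linarith)]
    linarith
  have hlog2 : Real.log X₀ ≤ Real.log T := Real.log_le_log (by linarith) hXT
  obtain ⟨z, hz⟩ : ∃ z : ℝ, z = Real.log (Real.log T) := ⟨_, rfl⟩
  have hX1 : 0 < Real.log (Real.log X₀) := Real.log_pos hlog1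
  have hX2 : Real.log (Real.log X₀) ≤ z := by
    rw [hz]
    exact Real.log_le_log (by linarith) hlog2
  have hz0 : 0 < z := hX1.trans_le hX2
  have hzA : z ^ (-A) ≤ (Real.log (Real.log X₀)) ^ (-A) := Real.rpow_le_rpow_of_nonpos hX1 hX2 (by linarith)
  have htriv : (E.card : ℝ) ≤ ∏ i, (L i : ℝ) := by
    have h1 := card_le_card hE
    rw [card_bx] at h1
    exact_mod_cast h1
  rcases lt_or_ge z z₀ with hlt | hge
  · have h1 : 1 ≤ z₀ ^ A * z ^ (-A) := by
      rw [Real.rpow_neg hz0.le, ← div_eq_mul_inv, one_le_div (by positivity)]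
      exact Real.rpow_le_rpow hz0.le hlt.le hA.le
    calc (E.card : ℝ) ≤ (∏ i, (L i : ℝ)) * 1 := by rw [mul_one]; exact htriv
      _ ≤ (∏ i, (L i : ℝ)) * (z₀ ^ A * z ^ (-A)) := mul_le_mul_of_nonneg_left h1 hP0.le
      _ ≤ (∏ i, (L i : ℝ)) * (z₀ ^ A * (Real.log (Real.log X₀)) ^ (-A)) :=
          mul_le_mul_of_nonneg_left (mul_le_mul_of_nonneg_left hzA (by positivity)) hP0.le
      _ = _ := by ring
  · obtain ⟨⟨h1, h2, h3⟩, -⟩ := hz₀ z hge
    obtain ⟨m, hm⟩ : ∃ m : ℕ, m = ⌊z⌋₊ := ⟨_, rfl⟩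
    have hm1 : (m : ℝ) ≤ z := by
      rw [hm]
      exact Nat.floor_le hz0.le
    have hm2 : z < m + 1 := by
      rw [hm]
      exact Nat.lt_floor_add_one z
    obtain ⟨Q, hQ⟩ : ∃ Q : ℕ, Q = ∏ j ∈ range m, π j := ⟨_, rfl⟩
    have hQ0 : 0 < Q := by
      rw [hQ]
      exact prod_pos fun j _ => (hπ1 j).pos
    have hinj : ∀ a b, a < b → π a < π b := by
      intro a b hab
      have h4 := hπ3 a
      have h5 := hπ2 b
      have h6 : 2 ^ (a + 4) ≤ 2 ^ (b + 3) := Nat.pow_le_pow_right (by norm_num) (by omega)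
      omega
    have hne : ∀ a b, a ≠ b → π a ≠ π b := by
      intro a b hab
      rcases lt_or_gt_of_ne hab with h | h
      · exact (hinj a b h).ne
      · exact (hinj b a h).ne'
    have hπ7 : ∀ j, 7 ≤ π j := by
      intro j
      have h4 := hπ2 j
      have h5 : 2 ^ 3 ≤ 2 ^ (j + 3) := Nat.pow_le_pow_right (by norm_num) (by omega)
      omega
    obtain ⟨F, hF⟩ : ∃ F : (Fin d → ℕ) → ℝ, F = fun n => ∏ j ∈ range m, (if P (π j) n then (1 : ℝ) else 0) := ⟨_, rfl⟩
    have hind : ∀ j n, 0 ≤ (if P (π j) n then (1 : ℝ) else 0) ∧ (if P (π j) n then (1 : ℝ) else 0) ≤ 1 := by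
      intro j n
      split_ifs <;> norm_num
    have hF0 : ∀ n, 0 ≤ F n := by
      intro n
      rw [hF]
      exact prod_nonneg fun j _ => (hind j n).1
    have hF1 : ∀ n, |F n| ≤ 1 := by
      intro n
      rw [abs_of_nonneg (hF0 n), hF]
      exact prod_le_one (fun j _ => (hind j n).1) fun j _ => (hind j n).2
    have hFmean : mean d Q F ≤ (15 / 16 : ℝ) ^ m := by
      rw [hF, hQ, mean_prod (range m) π (fun j _ => (hπ1 j).one_lt.le)
        (fun a _ b _ hab => (Nat.coprime_primes (hπ1 a) (hπ1 b)).2 (hne a b hab))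
        (fun j n => if P (π j) n then (1 : ℝ) else 0)
        (fun j _ n => by
          show (if P (π j) n then (1 : ℝ) else 0) = if P (π j) (fun i => n i % π j) then (1 : ℝ) else 0
          simp only [← hper (π j) (hπ1 j) (hπ7 j) n])]
      calc ∏ j ∈ range m, mean d (π j) (fun n => if P (π j) n then (1 : ℝ) else 0) ≤ ∏ _j ∈ range m, (15 / 16 : ℝ) := by
            refine prod_le_prod (fun j _ => ?_) fun j _ => hmean (π j) (hπ1 j) (hπ7 j)
            unfold Pool.Agent.TH894.NE.mean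
            exact mul_nonneg (by positivity) (sum_nonneg fun n _ => (hind j n).1)
        _ = (15 / 16 : ℝ) ^ m := by rw [prod_const, card_range]
    have hFper : Per Q F := by
      intro n
      show F n = F (fun i => n i % Q)
      rw [hF]
      refine prod_congr rfl fun j hj => ?_
      have h4 : P (π j) n ↔ P (π j) (fun i => n i % Q) := by
        rw [hper (π j) (hπ1 j) (hπ7 j) n, hper (π j) (hπ1 j) (hπ7 j) (fun i => n i % Q)]
        have e : (fun i => n i % π j) = fun i => (fun i => n i % Q) i % π j := by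
          funext i
          show n i % π j = n i % Q % π j
          rw [Nat.mod_mod_of_dvd]
          rw [hQ]
          exact dvd_prod_of_mem π hj
        rw [e]
      simp only [h4]
    have h4 := bx_mean hQ0 L T hT0 hL F hFper 1 hF1
    have h5 : (E.card : ℝ) ≤ ∑ n ∈ bx L, F n := by
      calc (E.card : ℝ) = ∑ n ∈ E, (1 : ℝ) := by rw [sum_const, nsmul_eq_mul, mul_one]
        _ = ∑ n ∈ E, F n := by
            refine sum_congr rfl fun n hn => ?_
            rw [hF]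
            symm
            refine prod_eq_one fun j _ => ?_
            rw [if_pos (hEP n hn (π j) (hπ1 j) (hπ7 j))]
        _ ≤ ∑ n ∈ bx L, F n := sum_le_sum_of_subset_of_nonneg hE fun n _ _ => hF0 n
    have h6 : (E.card : ℝ) ≤ (∏ i, (L i : ℝ)) * ((15 / 16 : ℝ) ^ m + (Real.exp (d * Q / T) - 1)) := by
      have h7 := (abs_le.1 h4).2
      have h8 := mul_le_mul_of_nonneg_left hFmean hP0.le
      rw [one_mul] at h7
      rw [mul_add]
      linarith
    -- the size of `Q`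
    have hQle : (Q : ℝ) ≤ Real.exp (z ^ 2 + 4 * z) := by
      have h7 : Q ≤ 2 ^ (m * (m + 4)) := by
        rw [hQ]
        calc ∏ j ∈ range m, π j ≤ ∏ _j ∈ range m, 2 ^ (m + 4) := by
              refine prod_le_prod' fun j hj => (hπ3 j).trans (Nat.pow_le_pow_right (by norm_num) ?_)
              have := mem_range.1 hj
              omega
          _ = 2 ^ (m * (m + 4)) := by rw [prod_const, card_range, ← pow_mul, mul_comm]
      have h8 : (Q : ℝ) ≤ (2 : ℝ) ^ (m * (m + 4)) := by exact_mod_cast h7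
      refine h8.trans ?_
      calc (2 : ℝ) ^ (m * (m + 4)) ≤ (Real.exp 1) ^ (m * (m + 4)) :=
            pow_le_pow_left₀ (by norm_num) (by linarith [Real.add_one_le_exp (1 : ℝ)]) _
        _ = Real.exp ((m * (m + 4) : ℕ) : ℝ) := by
            rw [← Real.exp_nat_mul, mul_one]
        _ ≤ Real.exp (z ^ 2 + 4 * z) := by
            rw [Real.exp_le_exp]
            push_cast
            nlinarith [Nat.cast_nonneg (α := ℝ) m]
    have hTz : T = Real.exp (Real.exp z) := by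
      rw [hz, Real.exp_log (by linarith), Real.exp_log hT0]
    have h7 : d * Q / T ≤ d * Real.exp (-z) := by
      rw [mul_div_assoc]
      refine mul_le_mul_of_nonneg_left ?_ (Nat.cast_nonneg d)
      rw [div_le_iff₀ hT0]
      refine hQle.trans ?_
      rw [hTz, ← Real.exp_add, Real.exp_le_exp]
      linarith
    have h8 : Real.exp (d * Q / T) - 1 ≤ 2 * (d * Real.exp (-z)) := by
      have h9 : 0 ≤ (d : ℝ) * Real.exp (-z) := by positivity
      have h10 := Real.abs_exp_sub_one_le (x := (d : ℝ) * Real.exp (-z)) (by rw [abs_of_nonneg h9]; exact h2)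
      rw [abs_of_nonneg h9] at h10
      have h11 := (abs_le.1 h10).2
      have h12 := Real.exp_le_exp.2 h7
      linarith
    have h9 : (15 / 16 : ℝ) ^ m ≤ 16 / 15 * Real.exp (-(Real.log (16 / 15)) * z) := by
      have h10 : (15 / 16 : ℝ) = Real.exp (-(Real.log (16 / 15))) := by
        rw [Real.exp_neg, Real.exp_log (by norm_num)]
        norm_num
      have h11 : (16 / 15 : ℝ) = Real.exp (Real.log (16 / 15)) := by
        rw [Real.exp_log (by norm_num)]
      rw [h10, ← Real.exp_nat_mul]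
      conv_rhs => rw [h11]
      rw [Real.log_exp, ← Real.exp_add, Real.exp_le_exp]
      have hc : 0 < Real.log (16 / 15) := Real.log_pos (by norm_num)
      nlinarith
    have h10 : (E.card : ℝ) ≤ (∏ i, (L i : ℝ)) * z ^ (-A) :=
      h6.trans (mul_le_mul_of_nonneg_left (by linarith) hP0.le)
    have h11 : 1 ≤ z₀ ^ A := Real.one_le_rpow hz₀1 hA.le
    calc (E.card : ℝ) ≤ (∏ i, (L i : ℝ)) * z ^ (-A) := h10
      _ ≤ (∏ i, (L i : ℝ)) * (Real.log (Real.log X₀)) ^ (-A) := mul_le_mul_of_nonneg_left hzA hP0.le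
      _ ≤ z₀ ^ A * ((∏ i, (L i : ℝ)) * (Real.log (Real.log X₀)) ^ (-A)) :=
          le_mul_of_one_le_left (mul_nonneg hP0.le (Real.rpow_nonneg hX1.le _)) h11
      _ = _ := by ring

end Q282.BP
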